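import Pool.Agent.Hhelper53.Planar.EdgeBound

set_option autoImplicit false

namespace Pool.Agent.Hhelper53.Planar

open SimpleGraph

variable {V : Type}

/-- The complete bipartite graph `K_{3,3}`. -/
abbrev K33 : SimpleGraph (Fin 3 ⊕ Fin 3) := completeBipartiteGraph (Fin 3) (Fin 3)

/-- Merging the set `C` into the vertex `x`. -/
def merge (G : SimpleGraph V) (x : V) (C : Set V) : SimpleGraph V where
  Adj a b := a ≠ b ∧ (G.Adj a b ∨ (a = x ∧ ∃ c ∈ C, G.Adj c b) ∨ (b = x ∧ ∃ c ∈ C, G.Adj c a))
  symm := ⟨by
    rintro a b ⟨h1, h2⟩
    refine ⟨h1.symm, ?_⟩
    rcases h2 with h | h | h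
    · exact Or.inl h.symm
    · exact Or.inr (Or.inr h)
    · exact Or.inr (Or.inl h)⟩
  loopless := ⟨fun a h => h.1 rfl⟩

lemma HasModel.of_merge {A : Type} {X : SimpleGraph A} {G : SimpleGraph V} {T S C : Set V} (x : V)
    (h : HasModel X (merge G x C) T) (hTS : T ⊆ S) (hCS : C ⊆ S) (hxT : x ∈ T)
    (hCT : Disjoint C T) (hconn : Conn G (insert x C)) : HasModel X G S :=
  h.lift x hTS hCS hxT hCT hconn (fun _ _ _ _ hab => hab.2)

lemma hasModel_K33 (G : SimpleGraph V) (S : Set V) (A B : Fin 3 → Set V)
    (hA : ∀ i, Conn G (A i)) (hB : ∀ i, Conn G (B i)) (hAS : ∀ i, A i ⊆ S) (hBS : ∀ i, B i ⊆ S)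
    (hAA : ∀ i j, i ≠ j → Disjoint (A i) (A j)) (hBB : ∀ i j, i ≠ j → Disjoint (B i) (B j))
    (hAB : ∀ i j, Disjoint (A i) (B j)) (hadj : ∀ i j, ∃ u ∈ A i, ∃ v ∈ B j, G.Adj u v) :
    HasModel K33 G S := by
  refine ⟨Sum.elim A B, ?_, ?_, ?_, ?_⟩
  · rintro (i | i)
    · exact hA i
    · exact hB i
  · rintro (i | i)
    · exact hAS i
    · exact hBS i
  · rintro (i | i) (j | j) h
    · exact hAA i j (fun h' => h (by rw [h']))
    · exact hAB i j
    · exact (hAB j i).symm
    · exact hBB i j (fun h' => h (by rw [h']))
  · rintro (i | i) (j | j) h
    · simp at h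
    · exact hadj i j
    · obtain ⟨u, hu, v, hv, huv⟩ := hadj j i
      exact ⟨v, hv, u, hu, huv.symm⟩
    · simp at h

open Classical in
/-- The bipartite planar bound in the form needed. -/
theorem bip_bound : ∀ (n : ℕ) (G : SimpleGraph V) (H U : Finset V), H.card = n → 3 ≤ n →
    Disjoint H U → (∀ u ∈ U, dg G H u = 3) → (∀ u ∈ U, ∀ u' ∈ U, ¬ G.Adj u u') →
    ¬ HasModel K33 G ((H ∪ U : Finset V) : Set V) → U.card + 4 ≤ 2 * n := by
  intro n
  induction n using Nat.strong_induction_on with
  | _ n IH =>
    intro G H U hH hn hdis hdeg hind hK
    by_cases hn3 : n = 3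
    · subst hn3
      by_contra hcon
      have hU3 : 3 ≤ U.card := by omega
      obtain ⟨U', hU'U, hU'⟩ := Finset.exists_subset_card_eq hU3
      let eH := (Finset.equivFinOfCardEq hH)
      let eU := (Finset.equivFinOfCardEq hU')
      have hall : ∀ u ∈ U', ∀ h ∈ H, G.Adj u h := by
        intro u hu h hh
        have h1 := hdeg u (hU'U hu)
        unfold dg at h1
        have h2 : H.filter (fun y => G.Adj u y) = H :=
          Finset.eq_of_subset_of_card_le (Finset.filter_subset _ _) (by omega)
        rw [← h2] at hh
        exact (Finset.mem_filter.1 hh).2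
      apply hK
      refine hasModel_K33 G _ (fun i => {(eU.symm i : V)}) (fun i => {(eH.symm i : V)})
        (fun i => conn_singleton G _) (fun i => conn_singleton G _) ?_ ?_ ?_ ?_ ?_ ?_
      · intro i
        rw [Set.singleton_subset_iff]
        exact Finset.mem_coe.2 (Finset.mem_union_right _ (hU'U (eU.symm i).2))
      · intro i
        rw [Set.singleton_subset_iff]
        exact Finset.mem_coe.2 (Finset.mem_union_left _ (eH.symm i).2)
      · intro i j hij
        rw [Set.disjoint_singleton]
        intro h
        exact hij (eU.symm.injective (Subtype.ext h))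
      · intro i j hij
        rw [Set.disjoint_singleton]
        intro h
        exact hij (eH.symm.injective (Subtype.ext h))
      · intro i j
        rw [Set.disjoint_singleton]
        intro h
        exact Finset.disjoint_left.1 hdis (h ▸ (eH.symm j).2 : (eU.symm i : V) ∈ H)
          (hU'U (eU.symm i).2)
      · intro i j
        exact ⟨_, rfl, _, rfl, hall _ (eU.symm i).2 _ (eH.symm j).2⟩
    · have hn4 : 4 ≤ n := by omega
      by_contra hcon
      have hUpos : 0 < U.card := by omega
      obtain ⟨u₀, hu₀⟩ := Finset.card_pos.1 hUpos
      have hd0 := hdeg u₀ hu₀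
      unfold dg at hd0
      obtain ⟨x, y, z, hxy, hxz, hyz, hxyz⟩ := Finset.card_eq_three.1 hd0
      have hx : x ∈ H ∧ G.Adj u₀ x := by
        have : x ∈ H.filter (fun y => G.Adj u₀ y) := by rw [hxyz]; simp
        exact Finset.mem_filter.1 this
      have hy : y ∈ H ∧ G.Adj u₀ y := by
        have : y ∈ H.filter (fun y => G.Adj u₀ y) := by rw [hxyz]; simp
        exact Finset.mem_filter.1 this
      -- every vertex of U has a neighbour outside x, y
      have hthird : ∀ u ∈ U, ∃ w ∈ H, w ≠ x ∧ w ≠ y ∧ G.Adj u w := by
        intro u hu
        have h1 := hdeg u hu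
        unfold dg at h1
        by_contra hno
        push Not at hno
        have h2 : H.filter (fun y => G.Adj u y) ⊆ {x, y} := by
          intro w hw
          rw [Finset.mem_filter] at hw
          simp only [Finset.mem_insert, Finset.mem_singleton]
          by_contra h3
          push Not at h3
          exact hno w hw.1 h3.1 h3.2 hw.2
        have h3 := Finset.card_le_card h2
        have h4 := Finset.card_le_two (a := x) (b := y)
        omega
      by_cases hsplit : ∃ H1 ⊆ (H.erase x).erase y, H1.Nonempty ∧
          (((H.erase x).erase y) \ H1).Nonempty ∧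
          ∀ u ∈ U, ∀ a ∈ H1, ∀ b ∈ ((H.erase x).erase y) \ H1, ¬ (G.Adj u a ∧ G.Adj u b)
      · obtain ⟨H1, hH1, hne1, hne2, hno⟩ := hsplit
        set H2 := ((H.erase x).erase y) \ H1 with hH2
        set U1 := U.filter (fun u => ∃ a ∈ H1, G.Adj u a) with hU1
        have hcardH : H1.card + H2.card = n - 2 := by
          have h1 : H2.card = ((H.erase x).erase y).card - H1.card := by
            rw [hH2, Finset.card_sdiff_of_subset hH1]
          have h2 := Finset.card_le_card hH1
          have h3 : ((H.erase x).erase y).card = n - 2 := by
            rw [Finset.card_erase_of_mem (by simp [hy.1, Ne.symm hxy]),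
              Finset.card_erase_of_mem hx.1, hH]
            omega
          omega
        have hp1 := Finset.card_pos.2 hne1
        have hp2 := Finset.card_pos.2 hne2
        have hmem1 : ∀ a ∈ H1, a ∈ H ∧ a ≠ x ∧ a ≠ y := by
          intro a ha
          have := hH1 ha
          simp only [Finset.mem_erase] at this
          exact ⟨this.2.2, this.2.1, this.1⟩
        have hmem2 : ∀ a ∈ H2, a ∈ H ∧ a ≠ x ∧ a ≠ y ∧ a ∉ H1 := by
          intro a ha
          simp only [hH2, Finset.mem_sdiff, Finset.mem_erase] at ha
          exact ⟨ha.1.2.2, ha.1.2.1, ha.1.1, ha.2⟩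
        have hsub : ∀ (H' : Finset V), (∀ a ∈ H', a ∈ H ∧ a ≠ x ∧ a ≠ y) →
            insert x (insert y H') ⊆ H := by
          intro H' h' a ha
          simp only [Finset.mem_insert] at ha
          rcases ha with rfl | rfl | ha
          · exact hx.1
          · exact hy.1
          · exact (h' a ha).1
        have hcardI : ∀ (H' : Finset V), (∀ a ∈ H', a ∈ H ∧ a ≠ x ∧ a ≠ y) →
            (insert x (insert y H')).card = H'.card + 2 := by
          intro H' h'
          rw [Finset.card_insert_of_notMem, Finset.card_insert_of_notMem]
          · intro hyH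
            exact (h' y hyH).2.2 rfl
          · simp only [Finset.mem_insert]
            rintro (h1 | h1)
            · exact hxy h1
            · exact (h' x h1).2.1 rfl
        have hfilt : ∀ (H' : Finset V), (∀ a ∈ H', a ∈ H ∧ a ≠ x ∧ a ≠ y) → ∀ u ∈ U,
            (∀ w ∈ H, w ≠ x → w ≠ y → G.Adj u w → w ∈ H') →
            dg G (insert x (insert y H')) u = 3 := by
          intro H' h' u hu hall
          rw [← hdeg u hu]
          unfold dg
          congr 1
          ext w
          simp only [Finset.mem_filter, Finset.mem_insert]
          constructor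
          · rintro ⟨h1 | h1 | h1, h2⟩
            · exact ⟨h1 ▸ hx.1, h2⟩
            · exact ⟨h1 ▸ hy.1, h2⟩
            · exact ⟨(h' w h1).1, h2⟩
          · rintro ⟨h1, h2⟩
            refine ⟨?_, h2⟩
            by_cases hwx : w = x
            · exact Or.inl hwx
            · by_cases hwy : w = y
              · exact Or.inr (Or.inl hwy)
              · exact Or.inr (Or.inr (hall w h1 hwx hwy h2))
        have hUsub : U1 ⊆ U := Finset.filter_subset _ _
        have hm1 : ∀ a ∈ H1, a ∈ H ∧ a ≠ x ∧ a ≠ y := hmem1
        have hm2 : ∀ a ∈ H2, a ∈ H ∧ a ≠ x ∧ a ≠ y := fun a ha =>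
          ⟨(hmem2 a ha).1, (hmem2 a ha).2.1, (hmem2 a ha).2.2.1⟩
        have hcov : ∀ w ∈ H, w ≠ x → w ≠ y → w ∉ H1 → w ∈ H2 := by
          intro w hw hwx hwy hw1
          simp only [hH2, Finset.mem_sdiff, Finset.mem_erase]
          exact ⟨⟨hwy, hwx, hw⟩, hw1⟩
        have r1 := IH (H1.card + 2) (by omega) G (insert x (insert y H1)) U1
          (hcardI H1 hm1) (by omega)
          (Finset.disjoint_of_subset_left (hsub H1 hm1) (Finset.disjoint_of_subset_right hUsub hdis))
          (by
            intro u hu
            have hu' := Finset.mem_filter.1 hu
            obtain ⟨a, ha, hua⟩ := hu'.2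
            refine hfilt H1 hm1 u hu'.1 ?_
            intro w hw hwx hwy huw
            by_contra hw1
            exact hno u hu'.1 a ha w (hcov w hw hwx hwy hw1) ⟨hua, huw⟩)
          (fun u hu u' hu' => hind u (hUsub hu) u' (hUsub hu'))
          (fun h => hK (h.mono (by
            intro w hw
            rw [Finset.mem_coe, Finset.mem_union] at hw ⊢
            rcases hw with hw | hw
            · exact Or.inl (hsub H1 hm1 hw)
            · exact Or.inr (hUsub hw))))
        have r2 := IH (H2.card + 2) (by omega) G (insert x (insert y H2)) (U \ U1)
          (hcardI H2 hm2) (by omega)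
          (Finset.disjoint_of_subset_left (hsub H2 hm2)
            (Finset.disjoint_of_subset_right Finset.sdiff_subset hdis))
          (by
            intro u hu
            rw [Finset.mem_sdiff] at hu
            refine hfilt H2 hm2 u hu.1 ?_
            intro w hw hwx hwy huw
            refine hcov w hw hwx hwy (fun hw1 => hu.2 ?_)
            rw [hU1, Finset.mem_filter]
            exact ⟨hu.1, w, hw1, huw⟩)
          (fun u hu u' hu' => hind u (Finset.mem_sdiff.1 hu).1 u' (Finset.mem_sdiff.1 hu').1)
          (fun h => hK (h.mono (by
            intro w hw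
            rw [Finset.mem_coe, Finset.mem_union] at hw ⊢
            rcases hw with hw | hw
            · exact Or.inl (hsub H2 hm2 hw)
            · exact Or.inr (Finset.mem_sdiff.1 hw).1)))
        have hcardU : U1.card + (U \ U1).card = U.card := by
          rw [Finset.card_sdiff_of_subset hUsub]
          have := Finset.card_le_card hUsub
          omega
        omega
      · push Not at hsplit
        set W := U.filter (fun u => G.Adj u x ∧ G.Adj u y) with hW
        have hWU : W ⊆ U := Finset.filter_subset _ _
        by_cases hW3 : 3 ≤ W.card
        · obtain ⟨W', hW'W, hW'⟩ := Finset.exists_subset_card_eq hW3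
          let eW := (Finset.equivFinOfCardEq hW')
          -- neighbours of W' vertices
          have hW'adj : ∀ u ∈ W', G.Adj u x ∧ G.Adj u y :=
            fun u hu => (Finset.mem_filter.1 (hW'W hu)).2
          have hW'U : W' ⊆ U := hW'W.trans hWU
          have huniq : ∀ u ∈ W', ∀ a ∈ H, ∀ b ∈ H, a ≠ x → a ≠ y → b ≠ x → b ≠ y → G.Adj u a →
              G.Adj u b → a = b := by
            intro u hu a ha b hb hax hay hbx hby hua hub
            by_contra hab
            have h1 : ({x, y, a, b} : Finset V) ⊆ H.filter (fun y => G.Adj u y) := by
              intro w hw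
              simp only [Finset.mem_insert, Finset.mem_singleton] at hw
              rw [Finset.mem_filter]
              rcases hw with rfl | rfl | rfl | rfl
              · exact ⟨hx.1, (hW'adj u hu).1⟩
              · exact ⟨hy.1, (hW'adj u hu).2⟩
              · exact ⟨ha, hua⟩
              · exact ⟨hb, hub⟩
            have h2 := Finset.card_le_card h1
            have h3 := hdeg u (hW'U hu)
            unfold dg at h3
            have h4 : ({x, y, a, b} : Finset V).card = 4 := by
              rw [Finset.card_insert_of_notMem, Finset.card_insert_of_notMem,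
                Finset.card_insert_of_notMem, Finset.card_singleton]
              · simp [hab]
              · simp [Ne.symm hay, Ne.symm hby]
              · simp [hxy, Ne.symm hax, Ne.symm hbx]
            omega
          set R : Set V := {w | (w ∈ H ∧ w ≠ x ∧ w ≠ y) ∨ (w ∈ U ∧ w ∉ W')} with hR
          have hUH : ∀ w, w ∈ U → w ∉ H := fun w h1 h2 => Finset.disjoint_left.1 hdis h2 h1
          have hRconn : Conn G R := by
            refine ⟨?_, ?_⟩
            · obtain ⟨w, hw, h1, h2, _⟩ := hthird u₀ hu₀
              exact ⟨w, Or.inl ⟨hw, h1, h2⟩⟩
            · intro P hP ⟨p, hp⟩ ⟨q, hq⟩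
              by_cases hne1 : ∃ a ∈ P, a ∈ H ∧ a ≠ x ∧ a ≠ y
              · by_cases hne2 : ∃ b, b ∉ P ∧ b ∈ H ∧ b ≠ x ∧ b ≠ y
                · obtain ⟨a0, ha0P, ha0H, ha0x, ha0y⟩ := hne1
                  obtain ⟨b0, hb0P, hb0H, hb0x, hb0y⟩ := hne2
                  obtain ⟨u, hu, a, ha, b, hb, hua, hub⟩ :=
                    hsplit (((H.erase x).erase y).filter (fun w => w ∈ P))
                      (Finset.filter_subset _ _)
                      ⟨a0, Finset.mem_filter.2 ⟨by simp [ha0H, ha0x, ha0y], ha0P⟩⟩
                      ⟨b0, Finset.mem_sdiff.2 ⟨by simp [hb0H, hb0x, hb0y],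
                        fun h => hb0P (Finset.mem_filter.1 h).2⟩⟩
                  simp only [Finset.mem_filter, Finset.mem_erase, Finset.mem_sdiff] at ha hb
                  have hbP : b ∉ P := fun h => hb.2 ⟨hb.1, h⟩
                  by_cases huW : u ∈ W'
                  · exfalso
                    have := huniq u huW a ha.1.2.2 b hb.1.2.2 ha.1.2.1 ha.1.1 hb.1.2.1 hb.1.1
                      hua hub
                    exact hbP (this ▸ ha.2)
                  · have huR : u ∈ R := Or.inr ⟨hu, huW⟩
                    by_cases huP : u ∈ P
                    · exact ⟨u, huP, b, ⟨Or.inl ⟨hb.1.2.2, hb.1.2.1, hb.1.1⟩, hbP⟩, hub⟩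
                    · exact ⟨a, ha.2, u, ⟨huR, huP⟩, hua.symm⟩
                · push Not at hne2
                  have hqU : q ∈ U ∧ q ∉ W' := by
                    rcases hq.1 with h1 | h1
                    · exact absurd h1.2.2 (fun h => (hne2 q hq.2 h1.1 h1.2.1) |> fun h' => h h')
                    · exact h1
                  obtain ⟨w, hw, h1, h2, h3⟩ := hthird q hqU.1
                  have hwP : w ∈ P := by
                    by_contra hwP
                    exact h2 (hne2 w hwP hw h1)
                  exact ⟨w, hwP, q, hq, h3.symm⟩
              · push Not at hne1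
                have hpU : p ∈ U ∧ p ∉ W' := by
                  rcases hP hp with h1 | h1
                  · exact absurd (hne1 p hp h1.1 h1.2.1) h1.2.2
                  · exact h1
                obtain ⟨w, hw, h1, h2, h3⟩ := hthird p hpU.1
                exact ⟨p, hp, w, ⟨Or.inl ⟨hw, h1, h2⟩, fun h => h2 (hne1 w h hw h1)⟩, h3⟩
          apply hK
          refine hasModel_K33 G _ (fun i => {(eW.symm i : V)}) ![{x}, {y}, R]
            (fun i => conn_singleton G _) ?_ ?_ ?_ ?_ ?_ ?_ ?_
          · intro i
            fin_cases i
            · exact conn_singleton G x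
            · exact conn_singleton G y
            · exact hRconn
          · intro i
            rw [Set.singleton_subset_iff]
            exact Finset.mem_coe.2 (Finset.mem_union_right _ (hW'U (eW.symm i).2))
          · intro i
            fin_cases i
            · exact Set.singleton_subset_iff.2 (Finset.mem_coe.2 (Finset.mem_union_left _ hx.1))
            · exact Set.singleton_subset_iff.2 (Finset.mem_coe.2 (Finset.mem_union_left _ hy.1))
            · intro w hw
              rcases hw with h1 | h1
              · exact Finset.mem_coe.2 (Finset.mem_union_left _ h1.1)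
              · exact Finset.mem_coe.2 (Finset.mem_union_right _ h1.1)
          · intro i j hij
            rw [Set.disjoint_singleton]
            intro h
            exact hij (eW.symm.injective (Subtype.ext h))
          · have hxR : x ∉ R := by
              rintro (h1 | h1)
              · exact h1.2.1 rfl
              · exact hUH x h1.1 hx.1
            have hyR : y ∉ R := by
              rintro (h1 | h1)
              · exact h1.2.2 rfl
              · exact hUH y h1.1 hy.1
            intro i j hij
            fin_cases i <;> fin_cases j
            · exact absurd rfl hij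
            · exact Set.disjoint_singleton.2 hxy
            · exact Set.disjoint_singleton_left.2 hxR
            · exact Set.disjoint_singleton.2 (Ne.symm hxy)
            · exact absurd rfl hij
            · exact Set.disjoint_singleton_left.2 hyR
            · exact Set.disjoint_singleton_right.2 hxR
            · exact Set.disjoint_singleton_right.2 hyR
            · exact absurd rfl hij
          · intro i j
            have hi := (eW.symm i).2
            rw [Set.disjoint_singleton_left]
            fin_cases j
            · intro h
              exact hUH _ (hW'U hi) ((Set.mem_singleton_iff.1 h) ▸ hx.1)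
            · intro h
              exact hUH _ (hW'U hi) ((Set.mem_singleton_iff.1 h) ▸ hy.1)
            · intro h
              rcases h with h1 | h1
              · exact hUH _ (hW'U hi) h1.1
              · exact h1.2 hi
          · intro i j
            have hi := (eW.symm i).2
            fin_cases j
            · exact ⟨_, rfl, x, rfl, (hW'adj _ hi).1⟩
            · exact ⟨_, rfl, y, rfl, (hW'adj _ hi).2⟩
            · obtain ⟨w, hw, h1, h2, h3⟩ := hthird _ (hW'U hi)
              exact ⟨_, rfl, w, Or.inl ⟨hw, h1, h2⟩, h3⟩
        · -- contract x, u₀, y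
          have hu₀W : u₀ ∈ W := Finset.mem_filter.2 ⟨hu₀, hx.2, hy.2⟩
          have hUH : ∀ w, w ∈ U → w ∉ H := fun w h1 h2 => Finset.disjoint_left.1 hdis h2 h1
          have hxU : x ∉ U := fun h => hUH x h hx.1
          have hcard' : (H.erase y).card = n - 1 := by
            rw [Finset.card_erase_of_mem hy.1, hH]
          have hadjU : ∀ u ∈ U, u ∉ W → ∀ w ∈ H, w ≠ y →
              ((merge G x {u₀, y}).Adj u w ↔ G.Adj u w ∨ (w = x ∧ G.Adj u y)) := by
            intro u hu huW w hw hwy
            have hux : u ≠ x := fun h => hxU (h ▸ hu)
            constructor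
            · rintro ⟨h1, h2⟩
              rcases h2 with h | ⟨h, _⟩ | ⟨h, c, hc, hcu⟩
              · exact Or.inl h
              · exact absurd h hux
              · rcases hc with rfl | hc
                · exact absurd hcu (hind c hu₀ u hu)
                · rw [Set.mem_singleton_iff.1 hc] at hcu
                  exact Or.inr ⟨h, hcu.symm⟩
            · rintro (h | ⟨h1, h2⟩)
              · exact ⟨h.ne, Or.inl h⟩
              · refine ⟨?_, Or.inr (Or.inr ⟨h1, y, by simp, h2.symm⟩)⟩
                rw [h1]
                exact hux
          have r := IH (n - 1) (by omega) (merge G x {u₀, y}) (H.erase y) (U \ W) hcard' (by omega)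
            (Finset.disjoint_of_subset_left (Finset.erase_subset _ _)
              (Finset.disjoint_of_subset_right Finset.sdiff_subset hdis))
            (by
              intro u hu
              rw [Finset.mem_sdiff] at hu
              have hnot : ¬ (G.Adj u x ∧ G.Adj u y) := fun h =>
                hu.2 (Finset.mem_filter.2 ⟨hu.1, h⟩)
              rw [← hdeg u hu.1]
              unfold dg
              by_cases huy : G.Adj u y
              · have hux : ¬ G.Adj u x := fun h => hnot ⟨h, huy⟩
                have e1 : (H.erase y).filter (fun w => (merge G x {u₀, y}).Adj u w) =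
                    insert x ((H.filter (fun w => G.Adj u w)).erase y) := by
                  ext w
                  simp only [Finset.mem_filter, Finset.mem_erase, Finset.mem_insert]
                  constructor
                  · rintro ⟨⟨h1, h2⟩, h3⟩
                    rcases (hadjU u hu.1 hu.2 w h2 h1).1 h3 with h4 | h4
                    · exact Or.inr ⟨h1, h2, h4⟩
                    · exact Or.inl h4.1
                  · rintro (h1 | ⟨h1, h2, h3⟩)
                    · rw [h1]
                      exact ⟨⟨hxy, hx.1⟩, (hadjU u hu.1 hu.2 x hx.1 hxy).2 (Or.inr ⟨rfl, huy⟩)⟩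
                    · exact ⟨⟨h1, h2⟩, (hadjU u hu.1 hu.2 w h2 h1).2 (Or.inl h3)⟩
                rw [e1, Finset.card_insert_of_notMem (by
                  simp only [Finset.mem_erase, Finset.mem_filter]
                  rintro ⟨_, _, h⟩
                  exact hux h), Finset.card_erase_add_one (Finset.mem_filter.2 ⟨hy.1, huy⟩)]
              · congr 1
                ext w
                simp only [Finset.mem_filter, Finset.mem_erase]
                constructor
                · rintro ⟨⟨h1, h2⟩, h3⟩
                  rcases (hadjU u hu.1 hu.2 w h2 h1).1 h3 with h4 | h4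
                  · exact ⟨h2, h4⟩
                  · exact absurd h4.2 huy
                · rintro ⟨h1, h2⟩
                  have hwy : w ≠ y := fun h => huy (h ▸ h2)
                  exact ⟨⟨hwy, h1⟩, (hadjU u hu.1 hu.2 w h1 hwy).2 (Or.inl h2)⟩)
            (by
              intro u hu u' hu' hadj
              rw [Finset.mem_sdiff] at hu hu'
              rcases hadj.2 with h | ⟨h, _⟩ | ⟨h, _⟩
              · exact hind u hu.1 u' hu'.1 h
              · exact hxU (h ▸ hu.1)
              · exact hxU (h ▸ hu'.1))
            (by
              intro h
              apply hK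
              refine h.of_merge x ?_ ?_ ?_ ?_ ?_
              · intro w hw
                rw [Finset.mem_coe, Finset.mem_union, Finset.mem_erase, Finset.mem_sdiff] at hw
                rw [Finset.mem_coe, Finset.mem_union]
                rcases hw with hw | hw
                · exact Or.inl hw.2
                · exact Or.inr hw.1
              · intro w hw
                rw [Finset.mem_coe, Finset.mem_union]
                rcases hw with rfl | hw
                · exact Or.inr hu₀
                · rw [Set.mem_singleton_iff.1 hw]
                  exact Or.inl hy.1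
              · rw [Finset.mem_coe, Finset.mem_union, Finset.mem_erase]
                exact Or.inl ⟨hxy, hx.1⟩
              · rw [Set.disjoint_left]
                intro w hw hw'
                rw [Finset.mem_coe, Finset.mem_union, Finset.mem_erase, Finset.mem_sdiff] at hw'
                rcases hw with rfl | hw
                · rcases hw' with h1 | h1
                  · exact hUH w hu₀ h1.2
                  · exact h1.2 hu₀W
                · rw [Set.mem_singleton_iff.1 hw] at hw'
                  rcases hw' with h1 | h1
                  · exact h1.1 rfl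
                  · exact hUH y h1.1 hy.1
              · exact conn_insert G {u₀, y} u₀ x (by simp) hx.2
                  (conn_pair G y u₀ hy.2.symm))
          have hcardU : (U \ W).card + W.card = U.card := by
            rw [Finset.card_sdiff_of_subset hWU]
            have := Finset.card_le_card hWU
            omega
          omega

end Pool.Agent.Hhelper53.Planar
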