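import Pool.Agent.Hhelper53.Planar.Lower

set_option autoImplicit false

namespace Pool.Agent.Hhelper53.Planar

open SimpleGraph

variable {V : Type}

lemma four_al (G : SimpleGraph V) (hc : G.Colorable 4) (L : Finset V) : L.card ≤ 4 * al G L := by
  classical
  obtain ⟨col⟩ := hc
  have h1 : L.card = ∑ c : Fin 4, (L.filter (fun v => col v = c)).card :=
    Finset.card_eq_sum_card_fiberwise (fun v _ => Finset.mem_coe.2 (Finset.mem_univ _))
  rw [h1]
  calc ∑ c : Fin 4, (L.filter (fun v => col v = c)).card ≤ ∑ _c : Fin 4, al G L := by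
        refine Finset.sum_le_sum fun c _ => ?_
        refine le_al G L _ (Finset.filter_subset _ _) ?_
        intro a ha b hb hab
        exact col.valid hab (((Finset.mem_filter.1 ha).2).trans ((Finset.mem_filter.1 hb).2).symm)
    _ = 4 * al G L := by simp

/-- The lower bound: in a four-colourable graph without minors `K_5`, `K_{3,3}` there is a large
independent set of vertices of degree less than `D`. -/
theorem lower_final [Fintype V] (G : SimpleGraph V) (hc : G.Colorable 4)
    (h5 : ¬ HasModel (⊤ : SimpleGraph (Fin 5)) G Set.univ)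
    (h33 : ¬ HasModel K33 G Set.univ) (D : ℕ) (hD : 8 ≤ D) :
    ∃ I : Finset V, Ind G I ∧ (∀ v ∈ I, dg G Finset.univ v < D) ∧
      (D - 8) * Fintype.card V ≤ (4 * D - 27) * I.card + 2 * (D - 8) := by
  classical
  let H : Finset V := Finset.univ.filter (fun v => D ≤ dg G Finset.univ v)
  let L : Finset V := Finset.univ.filter (fun v => ¬ D ≤ dg G Finset.univ v)
  have hdis : Disjoint H L := Finset.disjoint_filter_filter_not _ _ _
  have hun : H ∪ L = Finset.univ := Finset.filter_union_filter_not_eq _ _
  have hcard : H.card + L.card = Fintype.card V := by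
    rw [← Finset.card_union_of_disjoint hdis, hun, Finset.card_univ]
  obtain ⟨I, hIL, hIind, hIc⟩ := exists_al G L
  have h4 := four_al G hc L
  refine ⟨I, hIind, ?_, ?_⟩
  · intro v hv
    have := (Finset.mem_filter.1 (hIL hv)).2
    omega
  · rw [hIc, ← hcard]
    obtain ⟨E, rfl⟩ : ∃ E, D = E + 8 := ⟨D - 8, by omega⟩
    have e1 : E + 8 - 8 = E := by omega
    have e2 : 4 * (E + 8) - 27 = 4 * E + 5 := by omega
    rw [e1, e2]
    by_cases hH : 3 ≤ H.card
    · obtain ⟨𝒞, h𝒞⟩ := exists_comps G _ L rfl
      have hmain := main_ineq _ G H L 𝒞 hdis h𝒞 rfl hH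
        (by rw [hun, Finset.coe_univ]; exact h5) (by rw [hun, Finset.coe_univ]; exact h33)
      have hdeg : (E + 8) * H.card ≤ dd G H H + dd G H L := by
        rw [← dd_union_right G H L H hdis, hun]
        unfold dd
        calc (E + 8) * H.card = ∑ _x ∈ H, (E + 8) := by
              rw [Finset.sum_const, smul_eq_mul, mul_comm]
          _ ≤ ∑ x ∈ H, dg G Finset.univ x :=
              Finset.sum_le_sum fun x hx => (Finset.mem_filter.1 hx).2
      nlinarith [Nat.mul_le_mul_left E h4]
    · have hH' : H.card ≤ 2 := by omega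
      nlinarith [Nat.mul_le_mul_left E h4, Nat.mul_le_mul_left E hH']

end Pool.Agent.Hhelper53.Planar
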