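import Pool.Agent.Hhelper53.Planar.Minor

set_option autoImplicit false

namespace Pool.Agent.Hhelper53.Planar

open SimpleGraph

open Classical in
/-- Number of neighbours of `x` in `S`. -/
noncomputable def dg {V : Type} (G : SimpleGraph V) (S : Finset V) (x : V) : ℕ :=
  (S.filter (fun y => G.Adj x y)).card

/-- Number of ordered adjacent pairs in `A × B`. -/
noncomputable def dd {V : Type} (G : SimpleGraph V) (A B : Finset V) : ℕ :=
  ∑ x ∈ A, dg G B x

variable {V : Type}

lemma dd_comm (G : SimpleGraph V) (A B : Finset V) : dd G A B = dd G B A := by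
  classical
  unfold dd dg
  simp only [Finset.card_filter]
  rw [Finset.sum_comm]
  refine Finset.sum_congr rfl fun x _ => Finset.sum_congr rfl fun y _ => ?_
  simp only [G.adj_comm]

lemma dg_union [DecidableEq V] (G : SimpleGraph V) (A B : Finset V) (h : Disjoint A B) (x : V) :
    dg G (A ∪ B) x = dg G A x + dg G B x := by
  classical
  unfold dg
  rw [Finset.filter_union, Finset.card_union_of_disjoint]
  exact Finset.disjoint_filter_filter h

lemma dd_union_left [DecidableEq V] (G : SimpleGraph V) (A B C : Finset V) (h : Disjoint A B) :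
    dd G (A ∪ B) C = dd G A C + dd G B C := by
  unfold dd
  rw [Finset.sum_union h]

lemma dd_union_right [DecidableEq V] (G : SimpleGraph V) (A B C : Finset V) (h : Disjoint A B) :
    dd G C (A ∪ B) = dd G C A + dd G C B := by
  rw [dd_comm, dd_union_left G A B C h, dd_comm G A C, dd_comm G B C]

lemma dd_biUnion_left [DecidableEq V] {ι : Type} (G : SimpleGraph V) (I : Finset ι)
    (F : ι → Finset V) (C : Finset V) (h : ∀ i ∈ I, ∀ j ∈ I, i ≠ j → Disjoint (F i) (F j)) :
    dd G (I.biUnion F) C = ∑ i ∈ I, dd G (F i) C := by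
  unfold dd
  rw [Finset.sum_biUnion]
  intro i hi j hj hij
  exact h i hi j hj hij

lemma dg_le_card_erase [DecidableEq V] (G : SimpleGraph V) (S : Finset V) (x : V) :
    dg G S x ≤ (S.erase x).card := by
  classical
  unfold dg
  apply Finset.card_le_card
  intro y hy
  rw [Finset.mem_filter] at hy
  exact Finset.mem_erase.2 ⟨fun h => G.loopless.irrefl x (h ▸ hy.2), hy.1⟩

lemma dd_self_le [DecidableEq V] (G : SimpleGraph V) (S : Finset V) :
    dd G S S ≤ S.card * (S.card - 1) := by
  unfold dd
  calc ∑ x ∈ S, dg G S x ≤ ∑ x ∈ S, (S.card - 1) := by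
        refine Finset.sum_le_sum fun x hx => ?_
        exact (dg_le_card_erase G S x).trans (le_of_eq (Finset.card_erase_of_mem hx))
    _ = S.card * (S.card - 1) := by rw [Finset.sum_const, smul_eq_mul]

lemma dg_mono (G : SimpleGraph V) (S T : Finset V) (h : S ⊆ T) (x : V) : dg G S x ≤ dg G T x := by
  classical
  unfold dg
  exact Finset.card_le_card (Finset.filter_subset_filter _ h)

lemma dg_pos_iff (G : SimpleGraph V) (S : Finset V) (x : V) :
    0 < dg G S x ↔ ∃ y ∈ S, G.Adj x y := by
  classical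
  unfold dg
  rw [Finset.card_pos]
  constructor
  · rintro ⟨y, hy⟩
    rw [Finset.mem_filter] at hy
    exact ⟨y, hy.1, hy.2⟩
  · rintro ⟨y, hy, hxy⟩
    exact ⟨y, Finset.mem_filter.2 ⟨hy, hxy⟩⟩

lemma dd_pos_iff (G : SimpleGraph V) (A B : Finset V) :
    0 < dd G A B ↔ ∃ x ∈ A, ∃ y ∈ B, G.Adj x y := by
  unfold dd
  rw [Finset.sum_pos_iff]
  simp only [dg_pos_iff]

lemma dd_eq_zero (G : SimpleGraph V) (A B : Finset V) (h : ∀ x ∈ A, ∀ y ∈ B, ¬ G.Adj x y) :
    dd G A B = 0 := by
  by_contra h1
  obtain ⟨x, hx, y, hy, hxy⟩ := (dd_pos_iff G A B).1 (Nat.pos_of_ne_zero h1)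
  exact h x hx y hy hxy

/-- Contraction of the edge `uv` onto `u`. -/
def contr (G : SimpleGraph V) (u v : V) : SimpleGraph V where
  Adj x y := x ≠ y ∧ x ≠ v ∧ y ≠ v ∧ (G.Adj x y ∨ (x = u ∧ G.Adj v y) ∨ (y = u ∧ G.Adj v x))
  symm := ⟨by
    rintro x y ⟨h1, h2, h3, h4⟩
    refine ⟨h1.symm, h3, h2, ?_⟩
    rcases h4 with h | h | h
    · exact Or.inl h.symm
    · exact Or.inr (Or.inr h)
    · exact Or.inr (Or.inl h)⟩
  loopless := ⟨fun x h => h.1 rfl⟩

lemma HasModel.of_contr {A : Type} {X : SimpleGraph A} {G : SimpleGraph V} {S : Set V} {u v : V}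
    (huv : G.Adj u v) (hu : u ∈ S) (hv : v ∈ S) (h : HasModel X (contr G u v) (S \ {v})) :
    HasModel X G S := by
  refine HasModel.lift (C := {v}) u h Set.sdiff_subset (Set.singleton_subset_iff.2 hv)
    ⟨hu, huv.ne⟩ ?_ (conn_pair G v u huv.symm) ?_
  · rw [Set.disjoint_singleton_left]
    exact fun h1 => h1.2 rfl
  · rintro a _ b _ ⟨_, _, _, h4⟩
    rcases h4 with h | ⟨h1, h2⟩ | ⟨h1, h2⟩
    · exact Or.inl h
    · exact Or.inr (Or.inl ⟨h1, v, rfl, h2⟩)
    · exact Or.inr (Or.inr ⟨h1, v, rfl, h2⟩)

open Classical in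
/-- Common neighbours. -/
noncomputable def cn (G : SimpleGraph V) (S : Finset V) (u v : V) : Finset V :=
  S.filter (fun w => G.Adj u w ∧ G.Adj v w)

/-- Edge count under contraction. -/
lemma dd_contr [DecidableEq V] (G : SimpleGraph V) (S : Finset V) (u v : V) (hu : u ∈ S)
    (hv : v ∈ S) (huv : G.Adj u v) :
    dd G S S ≤ dd (contr G u v) (S.erase v) (S.erase v) + 2 + 2 * (cn G S u v).card := by
  classical
  have hne : u ≠ v := huv.ne
  have huS : u ∈ S.erase v := Finset.mem_erase.2 ⟨hne, hu⟩
  unfold dd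
  rw [← Finset.add_sum_erase S _ hv, ← Finset.add_sum_erase (S.erase v) _ huS,
    ← Finset.add_sum_erase (S.erase v) (fun x => dg (contr G u v) (S.erase v) x) huS]
  have h1 : dg G S u + dg G S v ≤ dg (contr G u v) (S.erase v) u + 2 + (cn G S u v).card := by
    unfold dg cn
    have e1 : S.filter (fun w => G.Adj u w ∧ G.Adj v w) =
        S.filter (fun y => G.Adj u y) ∩ S.filter (fun y => G.Adj v y) := by
      ext w
      simp only [Finset.mem_filter, Finset.mem_inter]
      tauto
    rw [e1, ← Finset.card_union_add_card_inter]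
    have e2 : S.filter (fun y => G.Adj u y) ∪ S.filter (fun y => G.Adj v y) ⊆
        insert u (insert v ((S.erase v).filter (fun y => (contr G u v).Adj u y))) := by
      intro w hw
      simp only [Finset.mem_union, Finset.mem_filter] at hw
      simp only [Finset.mem_insert, Finset.mem_filter, Finset.mem_erase]
      by_cases hwu : w = u
      · exact Or.inl hwu
      by_cases hwv : w = v
      · exact Or.inr (Or.inl hwv)
      refine Or.inr (Or.inr ?_)
      rcases hw with ⟨hwS, hw⟩ | ⟨hwS, hw⟩
      · exact ⟨⟨hwv, hwS⟩, fun h => hwu h.symm, hne, hwv, Or.inl hw⟩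
      · exact ⟨⟨hwv, hwS⟩, fun h => hwu h.symm, hne, hwv, Or.inr (Or.inl ⟨rfl, hw⟩)⟩
    have e3 := Finset.card_le_card e2
    have e4 := Finset.card_insert_le u (insert v ((S.erase v).filter
      (fun y => (contr G u v).Adj u y)))
    have e5 := Finset.card_insert_le v ((S.erase v).filter (fun y => (contr G u v).Adj u y))
    omega
  have h2 : ∑ x ∈ (S.erase v).erase u, dg G S x ≤
      ∑ x ∈ (S.erase v).erase u, dg (contr G u v) (S.erase v) x + (cn G S u v).card := by
    have e0 : (cn G S u v).card ≥ ∑ x ∈ (S.erase v).erase u,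
        (if G.Adj u x ∧ G.Adj v x then 1 else 0) := by
      rw [← Finset.card_filter]
      apply Finset.card_le_card
      intro w hw
      unfold cn
      simp only [Finset.mem_filter, Finset.mem_erase] at hw ⊢
      exact ⟨hw.1.2.2, hw.2⟩
    refine le_trans ?_ (Nat.add_le_add_left e0 _)
    rw [← Finset.sum_add_distrib]
    refine Finset.sum_le_sum fun x hx => ?_
    simp only [Finset.mem_erase] at hx
    obtain ⟨hxu, hxv, hxS⟩ := hx
    unfold dg
    by_cases hvx : G.Adj v x
    · have e6 : S.filter (fun y => G.Adj x y) ⊆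
          insert v ((S.erase v).filter (fun y => (contr G u v).Adj x y)) := by
        intro w hw
        simp only [Finset.mem_filter] at hw
        simp only [Finset.mem_insert, Finset.mem_filter, Finset.mem_erase]
        by_cases hwv : w = v
        · exact Or.inl hwv
        · exact Or.inr ⟨⟨hwv, hw.1⟩, hw.2.ne, hxv, hwv, Or.inl hw.2⟩
      by_cases hux : G.Adj u x
      · rw [if_pos ⟨hux, hvx⟩]
        exact (Finset.card_le_card e6).trans (Finset.card_insert_le _ _)
      · rw [if_neg (fun h => hux h.1), add_zero]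
        -- replace v by u
        have e7 : (S.filter (fun y => G.Adj x y)).erase v ⊆
            ((S.erase v).filter (fun y => (contr G u v).Adj x y)).erase u := by
          intro w hw
          simp only [Finset.mem_erase, Finset.mem_filter] at hw ⊢
          refine ⟨?_, ⟨hw.1, hw.2.1⟩, hw.2.2.ne, hxv, hw.1, Or.inl hw.2.2⟩
          rintro rfl
          exact hux hw.2.2.symm
        have e8 := Finset.card_le_card e7
        have hu' : u ∈ (S.erase v).filter (fun y => (contr G u v).Adj x y) := by
          simp only [Finset.mem_filter, Finset.mem_erase]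
          exact ⟨⟨hne, hu⟩, hxu, hxv, hne, Or.inr (Or.inr ⟨rfl, hvx⟩)⟩
        have hv' : v ∈ S.filter (fun y => G.Adj x y) := by
          simp only [Finset.mem_filter]
          exact ⟨hv, hvx.symm⟩
        rw [Finset.card_erase_of_mem hu', Finset.card_erase_of_mem hv'] at e8
        have e9 := Finset.card_pos.2 ⟨u, hu'⟩
        have e10 := Finset.card_pos.2 ⟨v, hv'⟩
        omega
    · rw [if_neg (fun h => hvx h.2), add_zero]
      apply Finset.card_le_card
      intro w hw
      simp only [Finset.mem_filter, Finset.mem_erase] at hw ⊢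
      have hwv : w ≠ v := by
        rintro rfl
        exact hvx hw.2.symm
      exact ⟨⟨hwv, hw.1⟩, hw.2.ne, hxv, hwv, Or.inl hw.2⟩
  omega

/-- Edge count under deletion of an edge. -/
lemma dd_delete [DecidableEq V] (G : SimpleGraph V) (S : Finset V) (a b : V) (ha : a ∈ S)
    (hb : b ∈ S) (hab : G.Adj a b) :
    dd (G.deleteEdges {s(a, b)}) S S + 2 = dd G S S := by
  classical
  have hne : a ≠ b := hab.ne
  have hbS : b ∈ S.erase a := Finset.mem_erase.2 ⟨hne.symm, hb⟩
  unfold dd
  rw [← Finset.add_sum_erase S (fun x => dg G S x) ha,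
    ← Finset.add_sum_erase (S.erase a) (fun x => dg G S x) hbS,
    ← Finset.add_sum_erase S (fun x => dg (G.deleteEdges {s(a, b)}) S x) ha,
    ← Finset.add_sum_erase (S.erase a) (fun x => dg (G.deleteEdges {s(a, b)}) S x) hbS]
  have h1 : dg (G.deleteEdges {s(a, b)}) S a + 1 = dg G S a := by
    have e1 : dg (G.deleteEdges {s(a, b)}) S a =
        ((S.filter (fun y => G.Adj a y)).erase b).card := by
      unfold dg
      congr 1
      ext w
      simp only [Finset.mem_filter, Finset.mem_erase, deleteEdges_adj, Set.mem_singleton_iff]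
      constructor
      · rintro ⟨hw, h1, h2⟩
        exact ⟨fun h => h2 (by rw [h]), hw, h1⟩
      · rintro ⟨h0, hw, h1⟩
        refine ⟨hw, h1, fun h => h0 ?_⟩
        rcases Sym2.eq_iff.1 h with ⟨_, h3⟩ | ⟨h3, h4⟩
        · exact h3
        · exact absurd h3 hne
    rw [e1, Finset.card_erase_add_one (Finset.mem_filter.2 ⟨hb, hab⟩)]
    unfold dg
    congr
  have h2 : dg (G.deleteEdges {s(a, b)}) S b + 1 = dg G S b := by
    have e1 : dg (G.deleteEdges {s(a, b)}) S b =
        ((S.filter (fun y => G.Adj b y)).erase a).card := by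
      unfold dg
      congr 1
      ext w
      simp only [Finset.mem_filter, Finset.mem_erase, deleteEdges_adj, Set.mem_singleton_iff]
      constructor
      · rintro ⟨hw, h1, h2⟩
        exact ⟨fun h => h2 (by rw [h, Sym2.eq_swap]), hw, h1⟩
      · rintro ⟨h0, hw, h1⟩
        refine ⟨hw, h1, fun h => h0 ?_⟩
        rcases Sym2.eq_iff.1 h with ⟨h3, _⟩ | ⟨_, h4⟩
        · exact absurd h3.symm hne
        · exact h4
    rw [e1, Finset.card_erase_add_one (Finset.mem_filter.2 ⟨ha, hab.symm⟩)]
    unfold dg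
    congr
  have h3 : ∑ x ∈ (S.erase a).erase b, dg (G.deleteEdges {s(a, b)}) S x =
      ∑ x ∈ (S.erase a).erase b, dg G S x := by
    refine Finset.sum_congr rfl fun x hx => ?_
    simp only [Finset.mem_erase] at hx
    unfold dg
    congr 1
    ext w
    simp only [Finset.mem_filter, deleteEdges_adj, Set.mem_singleton_iff]
    constructor
    · rintro ⟨hw, h1, _⟩
      exact ⟨hw, h1⟩
    · rintro ⟨hw, h1⟩
      refine ⟨hw, h1, fun h => ?_⟩
      rcases Sym2.eq_iff.1 h with ⟨h3, _⟩ | ⟨h3, _⟩
      · exact hx.2.1 h3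
      · exact hx.1 h3
  omega

end Pool.Agent.Hhelper53.Planar
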