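import Pool.Agent.Hhelper53.Planar.Count

set_option autoImplicit false

namespace Pool.Agent.Hhelper53.Planar

open SimpleGraph

variable {V : Type}

lemma HasModel.cons {k : ℕ} {G : SimpleGraph V} {T S : Set V}
    (h : HasModel (⊤ : SimpleGraph (Fin k)) G T) (C : Set V) (hC : Conn G C) (hCS : C ⊆ S)
    (hTS : T ⊆ S) (hdis : Disjoint C T) (hadj : ∀ u ∈ T, ∃ c ∈ C, G.Adj c u) :
    HasModel (⊤ : SimpleGraph (Fin (k + 1))) G S := by
  obtain ⟨B, h1, h2, h3, h4⟩ := h
  have hCB : ∀ a, Disjoint C (B a) := fun a => Set.disjoint_of_subset_right (h2 a) hdis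
  have hadj' : ∀ a, ∃ u ∈ C, ∃ v ∈ B a, G.Adj u v := by
    intro a
    obtain ⟨x, hx⟩ := (h1 a).1
    obtain ⟨c, hc, hcx⟩ := hadj x (h2 a hx)
    exact ⟨c, hc, x, hx, hcx⟩
  refine ⟨Fin.cons C B, ?_, ?_, ?_, ?_⟩
  · intro a
    refine Fin.cases ?_ (fun a => ?_) a
    · simpa using hC
    · simpa using h1 a
  · intro a
    refine Fin.cases ?_ (fun a => ?_) a
    · simpa using hCS
    · simpa using (h2 a).trans hTS
  · intro a b
    refine Fin.cases ?_ (fun a => ?_) a <;> refine Fin.cases ?_ (fun b => ?_) b
    · intro h
      exact absurd rfl h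
    · intro _
      simpa using hCB b
    · intro _
      simpa using (hCB a).symm
    · intro h
      simpa using h3 a b (fun h' => h (by rw [h']))
  · intro a b
    refine Fin.cases ?_ (fun a => ?_) a <;> refine Fin.cases ?_ (fun b => ?_) b
    · intro h
      exact absurd rfl h
    · intro _
      simpa using hadj' b
    · intro _
      obtain ⟨u, hu, v, hv, huv⟩ := hadj' a
      simp only [Fin.cons_zero, Fin.cons_succ]
      exact ⟨v, hv, u, hu, huv.symm⟩
    · intro h
      simpa using h4 a b (fun h' => h (by rw [h']))

lemma hasModel_clique [DecidableEq V] (G : SimpleGraph V) : ∀ (k : ℕ) (T : Finset V), T.card = k →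
    (∀ a ∈ T, ∀ b ∈ T, a ≠ b → G.Adj a b) →
    HasModel (⊤ : SimpleGraph (Fin k)) G (T : Set V) := by
  intro k
  induction k with
  | zero =>
    intro T _ _
    exact ⟨fun a => a.elim0, fun a => a.elim0, fun a => a.elim0, fun a => a.elim0,
      fun a => a.elim0⟩
  | succ k ih =>
    intro T hT hcl
    obtain ⟨v, hv⟩ : T.Nonempty := by
      rw [← Finset.card_pos]
      omega
    have h1 := ih (T.erase v) (by rw [Finset.card_erase_of_mem hv]; omega)
      (fun a ha b hb hab => hcl a (Finset.mem_of_mem_erase ha) b (Finset.mem_of_mem_erase hb) hab)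
    refine h1.cons {v} (conn_singleton G v) ?_ ?_ ?_ ?_
    · exact Set.singleton_subset_iff.2 hv
    · exact Finset.coe_subset.2 (Finset.erase_subset v T)
    · rw [Set.disjoint_singleton_left]
      simp
    · intro u hu
      have hu' := Finset.mem_erase.1 (Finset.mem_coe.1 hu)
      exact ⟨v, rfl, hcl v hv u hu'.2 (Ne.symm hu'.1)⟩

lemma dd_erase [DecidableEq V] (G : SimpleGraph V) (S : Finset V) (v : V) (hv : v ∈ S) :
    dd G S S = dd G (S.erase v) (S.erase v) + 2 * dg G S v := by
  classical
  have h0 : S = (S.erase v) ∪ {v} := by
    ext x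
    simp only [Finset.mem_union, Finset.mem_erase, Finset.mem_singleton]
    constructor
    · intro hx
      by_cases hxv : x = v
      · exact Or.inr hxv
      · exact Or.inl ⟨hxv, hx⟩
    · rintro (⟨_, hx⟩ | hx)
      · exact hx
      · exact hx ▸ hv
  have hdis : Disjoint (S.erase v) {v} := by
    rw [Finset.disjoint_singleton_right]
    simp
  have h1 : dd G S S = dd G ((S.erase v) ∪ {v}) ((S.erase v) ∪ {v}) := by rw [← h0]
  rw [h1, dd_union_left G _ _ _ hdis, dd_union_right G _ _ _ hdis, dd_union_right G _ _ _ hdis,
    dd_comm G (S.erase v) {v}]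
  have h2 : dd G {v} {v} = 0 := by
    apply dd_eq_zero
    intro x hx y hy
    rw [Finset.mem_singleton.1 hx, Finset.mem_singleton.1 hy]
    exact G.loopless.irrefl v
  have h3 : dd G {v} (S.erase v) = dg G S v := by
    unfold dd dg
    rw [Finset.sum_singleton]
    congr 1
    ext y
    simp only [Finset.mem_filter, Finset.mem_erase]
    constructor
    · rintro ⟨⟨_, h⟩, h'⟩
      exact ⟨h, h'⟩
    · rintro ⟨h, h'⟩
      exact ⟨⟨h'.ne', h⟩, h'⟩
  omega

/-- Five vertices, each with at most one non-neighbour, with a dominating vertex. -/
lemma hasModel_five [DecidableEq V] (G : SimpleGraph V) (N : Finset V) (hN : N.card = 5)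
    (hdeg : ∀ u ∈ N, 3 ≤ dg G N u) : HasModel (⊤ : SimpleGraph (Fin 4)) G (N : Set V) := by
  classical
  have hpart : ∀ x ∈ N, ∀ y ∈ N, ∀ z ∈ N, x ≠ y → x ≠ z → ¬ G.Adj x y → ¬ G.Adj x z → y = z := by
    intro x hx y hy z hz hxy hxz h1 h2
    by_contra hyz
    have h3 : N.filter (fun w => G.Adj x w) ⊆ ((N.erase x).erase y).erase z := by
      intro w hw
      rw [Finset.mem_filter] at hw
      simp only [Finset.mem_erase]
      refine ⟨?_, ?_, ?_, hw.1⟩
      · rintro rfl
        exact h2 hw.2
      · rintro rfl
        exact h1 hw.2
      · rintro rfl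
        exact G.loopless.irrefl _ hw.2
    have h4 := Finset.card_le_card h3
    have h5 := hdeg x hx
    unfold dg at h5
    rw [Finset.card_erase_of_mem (by simp [hz, Ne.symm hyz, Ne.symm hxz]),
      Finset.card_erase_of_mem (by simp [hy, Ne.symm hxy]), Finset.card_erase_of_mem hx, hN] at h4
    omega
  -- choose the pair to be contracted
  have hpair : ∃ a ∈ N, ∃ c ∈ N, G.Adj a c ∧
      ∀ x ∈ N, ∀ y ∈ N, x ≠ a → x ≠ c → y ≠ a → y ≠ c → x ≠ y → G.Adj x y := by
    by_cases hex : ∃ a ∈ N, ∃ b ∈ N, a ≠ b ∧ ¬ G.Adj a b
    · obtain ⟨a, ha, b, hb, hab, hnab⟩ := hex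
      by_cases hex2 : ∃ c ∈ N, ∃ d ∈ N, c ≠ d ∧ ¬ G.Adj c d ∧ c ≠ a ∧ c ≠ b ∧ d ≠ a ∧ d ≠ b
      · obtain ⟨c, hc, d, hd, hcd, hncd, hca, hcb, hda, hdb⟩ := hex2
        refine ⟨a, ha, c, hc, ?_, ?_⟩
        · by_contra h
          exact hcb (hpart a ha c hc b hb (Ne.symm hca) hab h hnab)
        · intro x hx y hy hxa hxc hya hyc hxy
          by_contra hn
          have hn' : ¬ G.Adj y x := fun h => hn h.symm
          have hnba : ¬ G.Adj b a := fun h => hnab h.symm
          have hndc : ¬ G.Adj d c := fun h => hncd h.symm
          have hxb : x ≠ b := by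
            rintro rfl
            exact hya (hpart x hx y hy a ha hxy hxa hn hnba)
          have hyb : y ≠ b := by
            rintro rfl
            exact hxa (hpart y hy x hx a ha (Ne.symm hxy) hya hn' hnba)
          have hxd : x ≠ d := by
            rintro rfl
            exact hyc (hpart x hx y hy c hc hxy hxc hn hndc)
          have hyd : y ≠ d := by
            rintro rfl
            exact hxc (hpart y hy x hx c hc (Ne.symm hxy) hyc hn' hndc)
          have hsub : ({x, y, a, b, c, d} : Finset V) ⊆ N := by
            intro w hw
            simp only [Finset.mem_insert, Finset.mem_singleton] at hw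
            rcases hw with rfl | rfl | rfl | rfl | rfl | rfl <;> assumption
          have hcard : ({x, y, a, b, c, d} : Finset V).card = 6 := by
            rw [Finset.card_insert_of_notMem, Finset.card_insert_of_notMem,
              Finset.card_insert_of_notMem, Finset.card_insert_of_notMem,
              Finset.card_insert_of_notMem, Finset.card_singleton]
            · simp [hcd]
            · simp [Ne.symm hcb, Ne.symm hdb]
            · simp [hab, Ne.symm hca, Ne.symm hda]
            · simp [hya, hyb, hyc, hyd]
            · simp [hxy, hxa, hxb, hxc, hxd]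
          have := Finset.card_le_card hsub
          omega
      · push Not at hex2
        obtain ⟨c, hc⟩ : ((N.erase a).erase b).Nonempty := by
          rw [← Finset.card_pos, Finset.card_erase_of_mem (by simp [hb, Ne.symm hab]),
            Finset.card_erase_of_mem ha]
          omega
        simp only [Finset.mem_erase] at hc
        refine ⟨a, ha, c, hc.2.2, ?_, ?_⟩
        · by_contra h
          exact hc.1 (hpart a ha c hc.2.2 b hb (Ne.symm hc.2.1) hab h hnab)
        · intro x hx y hy hxa hxc hya hyc hxy
          by_contra hn
          have hn' : ¬ G.Adj y x := fun h => hn h.symm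
          have hnba : ¬ G.Adj b a := fun h => hnab h.symm
          have hxb : x ≠ b := by
            rintro rfl
            exact hya (hpart x hx y hy a ha hxy hxa hn hnba)
          have hyb : y ≠ b := by
            rintro rfl
            exact hxa (hpart y hy x hx a ha (Ne.symm hxy) hya hn' hnba)
          exact hyb (hex2 x hx y hy hxy hn hxa hxb hya)
    · push Not at hex
      obtain ⟨a, ha⟩ : N.Nonempty := by
        rw [← Finset.card_pos]
        omega
      obtain ⟨c, hc⟩ : (N.erase a).Nonempty := by
        rw [← Finset.card_pos, Finset.card_erase_of_mem ha]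
        omega
      rw [Finset.mem_erase] at hc
      exact ⟨a, ha, c, hc.2, hex a ha c hc.2 (Ne.symm hc.1),
        fun x hx y hy _ _ _ _ hxy => hex x hx y hy hxy⟩
  obtain ⟨a, ha, c, hc, hac, hcl⟩ := hpair
  have hcard : ((N.erase a).erase c).card = 3 := by
    rw [Finset.card_erase_of_mem (by simp [hc, hac.ne']), Finset.card_erase_of_mem ha, hN]
  have h3 := hasModel_clique G 3 ((N.erase a).erase c) hcard (by
    intro x hx y hy hxy
    simp only [Finset.mem_erase] at hx hy
    exact hcl x hx.2.2 y hy.2.2 hx.2.1 hx.1 hy.2.1 hy.1 hxy)
  refine h3.cons {c, a} (conn_pair G a c hac) ?_ ?_ ?_ ?_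
  · intro x hx
    rcases hx with rfl | hx
    · exact hc
    · exact (Set.mem_singleton_iff.1 hx) ▸ ha
  · intro x hx
    simp only [Finset.coe_erase] at hx
    exact hx.1.1
  · rw [Set.disjoint_left]
    intro x hx hx'
    simp only [Finset.coe_erase] at hx'
    rcases hx with rfl | hx
    · exact hx'.2 rfl
    · exact hx'.1.2 hx
  · intro u hu
    have hu' : u ∈ (N.erase a).erase c := Finset.mem_coe.1 hu
    simp only [Finset.mem_erase] at hu'
    by_cases h : G.Adj a u
    · exact ⟨a, by simp, h⟩
    · refine ⟨c, by simp, ?_⟩
      by_contra h'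
      exact hac.ne (hpart u hu'.2.2 a ha c hc hu'.2.1 hu'.1 (fun h1 => h h1.symm)
        (fun h1 => h' h1.symm))

theorem edge_bound [DecidableEq V] : ∀ (n : ℕ) (G : SimpleGraph V) (S : Finset V), S.card = n →
    3 ≤ n → ¬ HasModel (⊤ : SimpleGraph (Fin 5)) G (S : Set V) → dd G S S + 12 ≤ 6 * n := by
  intro n
  induction n with
  | zero => intro G S _ h; omega
  | succ n IH =>
    intro G S hS hn hK
    by_cases hsmall : n + 1 ≤ 4
    · have h1 := dd_self_le G S
      rw [hS] at h1
      have h2 : n = 2 ∨ n = 3 := by omega
      rcases h2 with rfl | rfl <;> omega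
    · have hn5 : 4 ≤ n := by omega
      obtain ⟨m, hm⟩ : ∃ m, m = dd G S S := ⟨_, rfl⟩
      rw [← hm]
      clear hsmall hn
      induction m using Nat.strong_induction_on generalizing G S with
      | _ m IHm =>
        by_contra hcon
        have hlow : 6 * n ≤ m + 5 := by omega
        -- upper bound by minimality
        have hup : m + 10 ≤ 6 * (n + 1) := by
          by_contra hbig
          have hpos : 0 < dd G S S := by omega
          obtain ⟨a, ha, b, hb, hab⟩ := (dd_pos_iff G S S).1 hpos
          have h1 := dd_delete G S a b ha hb hab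
          have h2 := IHm (dd (G.deleteEdges {s(a, b)}) S S) (by omega)
            (G.deleteEdges {s(a, b)}) S hS (fun h => hK (h.mono_graph
              (fun x _ y _ hxy => (SimpleGraph.deleteEdges_le _) hxy))) rfl
          omega
        -- a vertex of degree at most 5
        obtain ⟨v, hv, hdv⟩ : ∃ v ∈ S, dg G S v ≤ 5 := by
          by_contra hall
          push Not at hall
          have h1 : S.card * 6 ≤ dd G S S := by
            unfold dd
            rw [← smul_eq_mul, ← Finset.sum_const]
            exact Finset.sum_le_sum fun x hx => hall x hx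
          rw [hS] at h1
          omega
        have hcardv : (S.erase v).card = n := by
          rw [Finset.card_erase_of_mem hv, hS]
          omega
        have hd4 : 4 ≤ dg G S v := by
          have h1 := IH G (S.erase v) hcardv (by omega) (fun h => hK (h.mono (by
            intro x hx
            exact Finset.mem_of_mem_erase hx)))
          have h2 := dd_erase G S v hv
          omega
        classical
        set N := S.filter (fun y => G.Adj v y) with hNdef
        have hNcard : N.card = dg G S v := by
          unfold dg
          rw [hNdef]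
        have hdeg : ∀ u ∈ N, 3 ≤ dg G N u := by
          intro u hu
          rw [hNdef, Finset.mem_filter] at hu
          have h1 := dd_contr G S v u hv hu.1 hu.2
          have h2 := IH (contr G v u) (S.erase u) (by
            rw [Finset.card_erase_of_mem hu.1, hS]
            omega) (by omega) (fun h => hK (by
              rw [Finset.coe_erase] at h
              exact HasModel.of_contr hu.2 hv hu.1 h))
          have h3 : (cn G S v u).card = dg G N u := by
            unfold cn dg
            congr 1
            ext w
            simp only [hNdef, Finset.mem_filter]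
            tauto
          omega
        have hK4 : HasModel (⊤ : SimpleGraph (Fin 4)) G (N : Set V) := by
          have h45 : N.card = 4 ∨ N.card = 5 := by omega
          rcases h45 with h4 | h5
          · refine hasModel_clique G 4 N h4 ?_
            intro a ha b hb hab
            by_contra hnab
            have h1 : N.filter (fun w => G.Adj a w) ⊆ (N.erase a).erase b := by
              intro w hw
              rw [Finset.mem_filter] at hw
              simp only [Finset.mem_erase]
              refine ⟨?_, hw.2.ne', hw.1⟩
              rintro rfl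
              exact hnab hw.2
            have h2 := Finset.card_le_card h1
            have h3 := hdeg a ha
            unfold dg at h3
            rw [Finset.card_erase_of_mem (by simp [hb, Ne.symm hab]),
              Finset.card_erase_of_mem ha, h4] at h2
            omega
          · exact hasModel_five G N h5 hdeg
        apply hK
        refine hK4.cons {v} (conn_singleton G v) ?_ ?_ ?_ ?_
        · exact Set.singleton_subset_iff.2 hv
        · intro x hx
          exact (Finset.mem_filter.1 (Finset.mem_coe.1 hx)).1
        · rw [Set.disjoint_singleton_left]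
          intro hx
          exact G.loopless.irrefl v (Finset.mem_filter.1 (Finset.mem_coe.1 hx)).2
        · intro u hu
          exact ⟨v, rfl, (Finset.mem_filter.1 (Finset.mem_coe.1 hu)).2⟩

end Pool.Agent.Hhelper53.Planar
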