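import Pool.Agent.Hhelper53.Planar.Stack

set_option autoImplicit false

namespace Pool.Agent.Hhelper53.Planar

open SimpleGraph

/-- Vertices of the extremal family. -/
inductive Vx : Type
  | H (i : ℕ) : Vx
  | A0 (i : ℕ) : Vx
  | A1 (i : ℕ) : Vx
  | A2 (i : ℕ) : Vx
  | A3 (i : ℕ) : Vx
  | B0 (i s : ℕ) : Vx
  | B1 (i s : ℕ) : Vx
  | B2 (i s : ℕ) : Vx
  | B3 (i s : ℕ) : Vx
  | Z (i : ℕ) : Vx
  deriving DecidableEq

open Vx

/-- Parents of a vertex. -/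
def par (f : ℕ → Bool) (b : ℕ → ℕ) : Vx → Finset Vx
  | H i => (Finset.Ico (i - 3) i).image H
  | A0 i => {H i, H (i - 1), H (i - 3)}
  | A1 i => {A0 i, H i, H (i - 1)}
  | A2 i => {A1 i, A0 i, if f i = true then H i else H (i - 1)}
  | A3 i => {A2 i, A1 i, A0 i}
  | B0 i 0 => {H i, H (i - 2), H (i - 3)}
  | B0 i (s + 1) => {B1 i s, H i, H (i - 2)}
  | B1 i s => {B0 i s, H i, H (i - 2)}
  | B2 i s => {B1 i s, B0 i s, if s < b i then H i else H (i - 2)}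
  | B3 i s => {B2 i s, B1 i s, B0 i s}
  | Z _ => ∅

/-- The parent of largest depth. -/
def crea : Vx → Vx
  | H i => H (i - 1)
  | A0 i => H i
  | A1 i => A0 i
  | A2 i => A1 i
  | A3 i => A2 i
  | B0 i 0 => H i
  | B0 i (s + 1) => B1 i s
  | B1 i s => B0 i s
  | B2 i s => B1 i s
  | B3 i s => B2 i s
  | Z i => Z i

/-- Depth. -/
def dep : Vx → ℕ
  | H i => i - 2
  | A0 i => i - 2 + 1
  | A1 i => i - 2 + 2
  | A2 i => i - 2 + 3
  | A3 i => i - 2 + 4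
  | B0 i s => i - 2 + 2 * s + 1
  | B1 i s => i - 2 + 2 * s + 2
  | B2 i s => i - 2 + 2 * s + 3
  | B3 i s => i - 2 + 2 * s + 4
  | Z _ => 0

/-- The infinite stacked graph. -/
def gr (f : ℕ → Bool) (b : ℕ → ℕ) : SimpleGraph Vx where
  Adj v w := v ≠ w ∧ (w ∈ par f b v ∨ v ∈ par f b w)
  symm := ⟨fun _ _ h => ⟨h.1.symm, h.2.symm⟩⟩
  loopless := ⟨fun _ h => h.1 rfl⟩

def KA (i : ℕ) : Finset Vx := {A0 i, A1 i, A2 i, A3 i}

def KB (i s : ℕ) : Finset Vx := {B0 i s, B1 i s, B2 i s, B3 i s}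

def layer (T : ℕ → ℕ) (i : ℕ) : Finset Vx := KA i ∪ (Finset.range (T i)).biUnion (KB i)

/-- The vertex set of the finite stacked graph. -/
def core (T : ℕ → ℕ) (h : ℕ) : Finset Vx :=
  (Finset.range h).image H ∪ (Finset.Ico 3 h).biUnion (layer T)

/-- Membership condition for `core`. -/
def inS (T : ℕ → ℕ) (h : ℕ) : Vx → Prop
  | H i => i < h
  | A0 i => 3 ≤ i ∧ i < h
  | A1 i => 3 ≤ i ∧ i < h
  | A2 i => 3 ≤ i ∧ i < h
  | A3 i => 3 ≤ i ∧ i < h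
  | B0 i s => (3 ≤ i ∧ i < h) ∧ s < T i
  | B1 i s => (3 ≤ i ∧ i < h) ∧ s < T i
  | B2 i s => (3 ≤ i ∧ i < h) ∧ s < T i
  | B3 i s => (3 ≤ i ∧ i < h) ∧ s < T i
  | Z _ => False

lemma mem_layer (T : ℕ → ℕ) (i : ℕ) (v : Vx) : v ∈ layer T i ↔ v ∈ KA i ∨ ∃ s < T i, v ∈ KB i s := by
  unfold layer
  simp only [Finset.mem_union, Finset.mem_biUnion, Finset.mem_range]

lemma mem_core (T : ℕ → ℕ) (h : ℕ) (v : Vx) : v ∈ core T h ↔ inS T h v := by
  unfold core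
  simp only [Finset.mem_union, Finset.mem_biUnion, mem_layer, Finset.mem_image, Finset.mem_range,
    Finset.mem_Ico, KA, KB, Finset.mem_insert, Finset.mem_singleton]
  cases v <;> simp [inS]

end Pool.Agent.Hhelper53.Planar
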