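import Pool.Agent.Hhelper53.Planar.FamilyStack

set_option autoImplicit false

namespace Pool.Agent.Hhelper53.Planar

open SimpleGraph

open Vx

/-- The four-colouring. -/
def cl (f : ℕ → Bool) (b : ℕ → ℕ) : Vx → ℕ
  | H i => i % 4
  | A0 i => (i + 2) % 4
  | A1 i => (i + 1) % 4
  | A2 i => if f i = true then (i + 3) % 4 else i % 4
  | A3 i => if f i = true then i % 4 else (i + 3) % 4
  | B0 i _ => (i + 3) % 4
  | B1 i _ => (i + 1) % 4
  | B2 i s => if s < b i then (i + 2) % 4 else i % 4
  | B3 i s => if s < b i then i % 4 else (i + 2) % 4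
  | Z _ => 0

variable (f : ℕ → Bool) (b T : ℕ → ℕ) (h : ℕ)

lemma cl_lt (v : Vx) : cl f b v < 4 := by
  cases v <;> simp only [cl] <;> (try split_ifs) <;> omega

lemma cl_par (v : Vx) (hv : inS T h v) (p : Vx) (hp : p ∈ par f b v) : cl f b v ≠ cl f b p := by
  cases v with
  | H i =>
    obtain ⟨j, hj, rfl⟩ := (mem_par_H f b i p).1 hp
    simp only [cl]
    omega
  | A0 i =>
    simp only [inS] at hv
    simp only [par, Finset.mem_insert, Finset.mem_singleton] at hp
    rcases hp with rfl | rfl | rfl <;> simp only [cl] <;> omega
  | A1 i =>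
    simp only [inS] at hv
    simp only [par, Finset.mem_insert, Finset.mem_singleton] at hp
    rcases hp with rfl | rfl | rfl <;> simp only [cl] <;> omega
  | A2 i =>
    simp only [inS] at hv
    simp only [par, Finset.mem_insert, Finset.mem_singleton] at hp
    by_cases hf : f i = true
    · simp only [hf, if_true] at hp
      rcases hp with rfl | rfl | rfl <;> simp only [cl, hf, if_true] <;> omega
    · simp only [hf] at hp
      rcases hp with rfl | rfl | rfl <;> simp [cl, hf] <;> omega
  | A3 i =>
    simp only [inS] at hv
    simp only [par, Finset.mem_insert, Finset.mem_singleton] at hp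
    by_cases hf : f i = true
    · rcases hp with rfl | rfl | rfl <;> simp only [cl, hf, if_true] <;> omega
    · rcases hp with rfl | rfl | rfl <;> simp [cl, hf] <;> omega
  | B0 i s =>
    simp only [inS] at hv
    rcases s with _ | s
    · simp only [par, Finset.mem_insert, Finset.mem_singleton] at hp
      rcases hp with rfl | rfl | rfl <;> simp only [cl] <;> omega
    · simp only [par, Finset.mem_insert, Finset.mem_singleton] at hp
      rcases hp with rfl | rfl | rfl <;> simp only [cl] <;> omega
  | B1 i s =>
    simp only [inS] at hv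
    simp only [par, Finset.mem_insert, Finset.mem_singleton] at hp
    rcases hp with rfl | rfl | rfl <;> simp only [cl] <;> omega
  | B2 i s =>
    simp only [inS] at hv
    simp only [par, Finset.mem_insert, Finset.mem_singleton] at hp
    by_cases hf : s < b i
    · simp only [hf, if_true] at hp
      rcases hp with rfl | rfl | rfl <;> simp only [cl, hf, if_true] <;> omega
    · simp only [hf, if_false] at hp
      rcases hp with rfl | rfl | rfl <;> simp only [cl, hf, if_false] <;> omega
  | B3 i s =>
    simp only [inS] at hv
    simp only [par, Finset.mem_insert, Finset.mem_singleton] at hp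
    by_cases hf : s < b i
    · rcases hp with rfl | rfl | rfl <;> simp only [cl, hf, if_true] <;> omega
    · rcases hp with rfl | rfl | rfl <;> simp only [cl, hf, if_false] <;> omega
  | Z i => simp [inS] at hv

/-- Isolated vertices. -/
def iso (r : ℕ) : Finset Vx := (Finset.range r).image Z

/-- All vertices. -/
def allv (T : ℕ → ℕ) (h r : ℕ) : Finset Vx := core T h ∪ iso r

lemma mem_iso (r : ℕ) (v : Vx) : v ∈ iso r ↔ ∃ i < r, Z i = v := by
  simp only [iso, Finset.mem_image, Finset.mem_range]

lemma iso_nadj (r : ℕ) (v : Vx) (hv : v ∈ iso r) (w : Vx) (hw : w ∈ allv T h r) :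
    ¬ (gr f b).Adj v w := by
  obtain ⟨i, _, rfl⟩ := (mem_iso r v).1 hv
  rintro ⟨_, h1 | h1⟩
  · simp [par] at h1
  · rcases Finset.mem_union.1 hw with h2 | h2
    · rw [mem_core] at h2
      rcases par_core f b T h w h2 (Z i) h1 with h3 | h3
      · exact h3.1
      · obtain ⟨j, _, rfl⟩ := dep_zero T h w h2 h3.1
        simp [par] at h1
    · obtain ⟨j, _, rfl⟩ := (mem_iso r w).1 h2
      simp [par] at h1

lemma cl_valid (r : ℕ) (v w : Vx) (hv : v ∈ allv T h r) (hw : w ∈ allv T h r)
    (hvw : (gr f b).Adj v w) : cl f b v ≠ cl f b w := by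
  rcases Finset.mem_union.1 hv with hv1 | hv1
  · rcases Finset.mem_union.1 hw with hw1 | hw1
    · rcases hvw.2 with h1 | h1
      · exact cl_par f b T h v ((mem_core T h v).1 hv1) w h1
      · exact (cl_par f b T h w ((mem_core T h w).1 hw1) v h1).symm
    · exact absurd hvw.symm (iso_nadj f b T h r w hw1 v hv)
  · exact absurd hvw (iso_nadj f b T h r v hv1 w hw)

/-- Elements of the layers have positive depth parents; used for cardinalities. -/
lemma card_KA (i : ℕ) : (KA i).card = 4 := by
  unfold KA
  rw [Finset.card_insert_of_notMem, Finset.card_insert_of_notMem, Finset.card_insert_of_notMem,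
    Finset.card_singleton] <;> simp

lemma card_KB (i s : ℕ) : (KB i s).card = 4 := by
  unfold KB
  rw [Finset.card_insert_of_notMem, Finset.card_insert_of_notMem, Finset.card_insert_of_notMem,
    Finset.card_singleton] <;> simp

lemma card_layer (i : ℕ) : (layer T i).card = 4 * (1 + T i) := by
  unfold layer
  rw [Finset.card_union_of_disjoint, card_KA, Finset.card_biUnion]
  · simp only [card_KB, Finset.sum_const, Finset.card_range, smul_eq_mul]
    ring
  · intro s _ s' _ hss
    rw [Function.onFun, Finset.disjoint_left]
    intro v hv hv'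
    simp only [KB, Finset.mem_insert, Finset.mem_singleton] at hv hv'
    rcases hv with rfl | rfl | rfl | rfl <;> simp at hv' <;> exact hss hv'
  · rw [Finset.disjoint_left]
    intro v hv hv'
    simp only [Finset.mem_biUnion, Finset.mem_range, KA, KB, Finset.mem_insert,
      Finset.mem_singleton] at hv hv'
    rcases hv with rfl | rfl | rfl | rfl <;> simp at hv'

lemma card_core : (core T h).card = h + 4 * ∑ i ∈ Finset.Ico 3 h, (1 + T i) := by
  unfold core
  rw [Finset.card_union_of_disjoint, Finset.card_image_of_injective, Finset.card_range,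
    Finset.card_biUnion]
  · simp only [card_layer]
    rw [← Finset.mul_sum]
  · intro i _ j _ hij
    rw [Function.onFun, Finset.disjoint_left]
    intro v hv hv'
    simp only [mem_layer, KA, KB, Finset.mem_insert, Finset.mem_singleton] at hv hv'
    rcases hv with (rfl | rfl | rfl | rfl) | ⟨s, _, rfl | rfl | rfl | rfl⟩ <;> simp at hv' <;>
      first | exact hij hv' | exact hij hv'.1 | exact hij hv'.2
  · intro a b hab
    simpa using hab
  · rw [Finset.disjoint_left]
    intro v hv hv'
    simp only [Finset.mem_biUnion, mem_layer, KA, KB, Finset.mem_insert, Finset.mem_singleton,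
      Finset.mem_image, Finset.mem_Ico] at hv hv'
    obtain ⟨i, _, rfl⟩ := hv
    simp at hv'

lemma card_allv (r : ℕ) : (allv T h r).card = h + 4 * ∑ i ∈ Finset.Ico 3 h, (1 + T i) + r := by
  unfold allv
  rw [Finset.card_union_of_disjoint, card_core]
  · unfold iso
    rw [Finset.card_image_of_injective, Finset.card_range]
    intro a b hab
    simpa using hab
  · rw [Finset.disjoint_left]
    intro v hv hv'
    obtain ⟨i, _, rfl⟩ := (mem_iso r v).1 hv'
    rw [mem_core] at hv
    exact hv

end Pool.Agent.Hhelper53.Planar
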