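import Pool.Agent.Hhelper53.Planar.FamilyCount

set_option autoImplicit false

namespace Pool.Agent.Hhelper53.Planar

open SimpleGraph

open Vx

variable (f : ℕ → Bool) (b T : ℕ → ℕ) (h : ℕ)

/-- Neighbours of `H v`. -/
def nb (v : ℕ) : Finset Vx :=
  ((Finset.Ico (v - 3) v).image H ∪ (Finset.Ioc v (v + 3)).image H) ∪
  {A0 v, A1 v, A0 (v + 1), A1 (v + 1), A0 (v + 3), B0 (v + 3) 0} ∪
  ({A2 v} : Finset Vx).filter (fun _ => f v = true) ∪
  ({A2 (v + 1)} : Finset Vx).filter (fun _ => ¬ f (v + 1) = true) ∪
  (Finset.range (T v)).image (B0 v) ∪ (Finset.range (T v)).image (B1 v) ∪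
  (Finset.range (b v)).image (B2 v) ∪
  (Finset.range (T (v + 2))).image (B0 (v + 2)) ∪ (Finset.range (T (v + 2))).image (B1 (v + 2)) ∪
  (Finset.Ico (b (v + 2)) (T (v + 2))).image (B2 (v + 2))

lemma card_six (v : ℕ) :
    ({A0 v, A1 v, A0 (v + 1), A1 (v + 1), A0 (v + 3), B0 (v + 3) 0} : Finset Vx).card = 6 := by
  rw [Finset.card_insert_of_notMem, Finset.card_insert_of_notMem, Finset.card_insert_of_notMem,
    Finset.card_insert_of_notMem, Finset.card_insert_of_notMem, Finset.card_singleton] <;> simp

lemma card_nb (v : ℕ) (hv : 3 ≤ v) : (nb f b T v).card = 12 + (if f v = true then 1 else 0) +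
    (if f (v + 1) = true then 0 else 1) + T v + T v + b v + T (v + 2) + T (v + 2) +
    (T (v + 2) - b (v + 2)) := by
  unfold nb
  rw [Finset.card_union_of_disjoint, Finset.card_union_of_disjoint, Finset.card_union_of_disjoint,
    Finset.card_union_of_disjoint, Finset.card_union_of_disjoint, Finset.card_union_of_disjoint,
    Finset.card_union_of_disjoint, Finset.card_union_of_disjoint, Finset.card_union_of_disjoint,
    Finset.card_union_of_disjoint, card_six]
  · simp only [Finset.card_image_of_injective _ (fun a b hab => by simpa using hab :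
      Function.Injective H), Finset.card_image_of_injective _ (fun a b hab => by simpa using hab :
      Function.Injective (B0 v)), Finset.card_image_of_injective _ (fun a b hab => by
      simpa using hab : Function.Injective (B1 v)),
      Finset.card_image_of_injective _ (fun a b hab => by simpa using hab :
      Function.Injective (B2 v)), Finset.card_image_of_injective _ (fun a b hab => by
      simpa using hab : Function.Injective (B0 (v + 2))),
      Finset.card_image_of_injective _ (fun a b hab => by simpa using hab :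
      Function.Injective (B1 (v + 2))), Finset.card_image_of_injective _ (fun a b hab => by
      simpa using hab : Function.Injective (B2 (v + 2))), Finset.card_range, Nat.card_Ico,
      Nat.card_Ioc]
    by_cases h1 : f v = true <;> by_cases h2 : f (v + 1) = true <;> simp [h1, h2] <;> omega
  all_goals
    rw [Finset.disjoint_right]
    intro x hx' hx
    simp only [Finset.mem_union, Finset.mem_filter, Finset.mem_singleton, Finset.mem_image,
      Finset.mem_insert] at hx
  · obtain ⟨s, hs, rfl⟩ := Finset.mem_image.1 hx'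
    simp at hx hs
    omega
  · simp only [Finset.mem_insert, Finset.mem_singleton] at hx'
    rcases hx' with rfl | rfl | rfl | rfl | rfl | rfl <;> simp at hx
  · simp only [Finset.mem_filter, Finset.mem_singleton] at hx'
    obtain ⟨rfl, _⟩ := hx'
    simp at hx
  · simp only [Finset.mem_filter, Finset.mem_singleton] at hx'
    obtain ⟨rfl, _⟩ := hx'
    simp at hx
  all_goals
    obtain ⟨s, hs, rfl⟩ := Finset.mem_image.1 hx'
    simp at hx

/-- The set `nb` consists of neighbours of `H v` in the core. -/
lemma nb_sub (v : ℕ) (hv : 3 ≤ v) (hvh : v + 3 < h) (hT : 1 ≤ T (v + 3)) (hb : b v ≤ T v)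
    (x : Vx) (hx : x ∈ nb f b T v) : inS T h x ∧ (gr f b).Adj (H v) x := by
  unfold nb at hx
  simp only [Finset.mem_union, Finset.mem_filter, Finset.mem_singleton, Finset.mem_image,
      Finset.mem_insert, Finset.mem_range, Finset.mem_Ico, Finset.mem_Ioc] at hx
  rcases hx with ((((((((((⟨j, hj, rfl⟩ | ⟨j, hj, rfl⟩) | h3) | h4) | h5) | ⟨s, hs, rfl⟩) |
    ⟨s, hs, rfl⟩) | ⟨s, hs, rfl⟩) | ⟨s, hs, rfl⟩) | ⟨s, hs, rfl⟩) | ⟨s, hs, rfl⟩)
  · refine ⟨by simp only [inS]; omega, ?_, Or.inl ?_⟩
    · simp only [ne_eq, Vx.H.injEq]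
      omega
    · rw [mem_par_H]
      exact ⟨j, hj, rfl⟩
  · refine ⟨by simp only [inS]; omega, ?_, Or.inr ?_⟩
    · simp only [ne_eq, Vx.H.injEq]
      omega
    · rw [mem_par_H]
      exact ⟨v, by omega, rfl⟩
  · rcases h3 with rfl | rfl | rfl | rfl | rfl | rfl
    · exact ⟨by simp only [inS]; omega, by simp, Or.inr (by simp [par])⟩
    · exact ⟨by simp only [inS]; omega, by simp, Or.inr (by simp [par])⟩
    · exact ⟨by simp only [inS]; omega, by simp, Or.inr (by simp [par])⟩
    · exact ⟨by simp only [inS]; omega, by simp, Or.inr (by simp [par])⟩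
    · exact ⟨by simp only [inS]; omega, by simp, Or.inr (by simp [par])⟩
    · exact ⟨by simp only [inS]; omega, by simp, Or.inr (by simp [par])⟩
  · obtain ⟨rfl, hf⟩ := h4
    exact ⟨by simp only [inS]; omega, by simp, Or.inr (by simp [par, hf])⟩
  · obtain ⟨rfl, hf⟩ := h5
    exact ⟨by simp only [inS]; omega, by simp, Or.inr (by simp [par, hf])⟩
  · refine ⟨by simp only [inS]; omega, by simp, Or.inr ?_⟩
    rcases s with _ | s <;> simp [par]
  · exact ⟨by simp only [inS]; omega, by simp, Or.inr (by simp [par])⟩
  · exact ⟨by simp only [inS]; omega, by simp, Or.inr (by simp [par, hs])⟩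
  · refine ⟨by simp only [inS]; omega, by simp, Or.inr ?_⟩
    rcases s with _ | s <;> simp [par]
  · exact ⟨by simp only [inS]; omega, by simp, Or.inr (by simp [par])⟩
  · have hs' : ¬ s < b (v + 2) := by omega
    exact ⟨by simp only [inS]; omega, by simp, Or.inr (by simp [par, hs'])⟩

end Pool.Agent.Hhelper53.Planar
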