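import Pool.Agent.Hhelper53.Planar.Family

set_option autoImplicit false

namespace Pool.Agent.Hhelper53.Planar

open SimpleGraph

open Vx

/-- Constructing a stack from less data. -/
lemma IsStack.ofData {V : Type} {G : SimpleGraph V} {S : Finset V} {d : V → ℕ} {P : V → Finset V}
    {crea : V → V}
    (adj : ∀ v ∈ S, ∀ w ∈ S, G.Adj v w →
      (1 ≤ d v ∧ w ∈ P v) ∨ (1 ≤ d w ∧ v ∈ P w) ∨ (d v = 0 ∧ d w = 0))
    (base : ∀ T ⊆ S, (∀ v ∈ T, d v = 0) → T.card ≤ 3)
    (root : ∀ v ∈ S, ∀ w ∈ S, d v = 1 → d w = 1 → v = w)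
    (dc : ∀ v ∈ S, 1 ≤ d v → P v ⊆ S)
    (card3 : ∀ v ∈ S, 1 ≤ d v → (P v).card = 3)
    (adjP : ∀ v ∈ S, 1 ≤ d v → ∀ p ∈ P v, G.Adj v p)
    (one : ∀ v ∈ S, d v = 1 → ∀ p ∈ P v, d p = 0)
    (cr : ∀ v ∈ S, 2 ≤ d v → crea v ∈ P v ∧ d v = d (crea v) + 1 ∧
      ∀ p ∈ P v, p ≠ crea v → p ∈ P (crea v))
    (inj : ∀ v ∈ S, ∀ w ∈ S, 2 ≤ d v → 2 ≤ d w → crea v = crea w → P v = P w → v = w)
    (base0 : ∀ p ∈ S, ∀ q ∈ S, d p = 0 → d q = 0 → p ≠ q → G.Adj p q) :
    IsStack G S d P crea := by
  refine ⟨adj, base, root, dc, card3, ?_, adjP, one, cr, inj⟩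
  have key : ∀ (n : ℕ) (v : V), d v = n → v ∈ S → 1 ≤ n →
      ∀ p ∈ P v, ∀ q ∈ P v, p ≠ q → G.Adj p q := by
    intro n
    induction n using Nat.strong_induction_on with
    | _ n IH =>
      intro v hv hvS hn p hp q hq hpq
      by_cases h1 : n = 1
      · have h2 := dc v hvS (by omega)
        exact base0 p (h2 hp) q (h2 hq) (one v hvS (hv.trans h1) p hp)
          (one v hvS (hv.trans h1) q hq) hpq
      · obtain ⟨c1, c2, c3⟩ := cr v hvS (by omega)
        have hcS : crea v ∈ S := dc v hvS (by omega) c1
        by_cases hpc : p = crea v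
        · rw [hpc]
          exact adjP _ hcS (by omega) q (c3 q hq (fun h' => hpq (hpc.trans h'.symm)))
        · by_cases hqc : q = crea v
          · rw [hqc]
            exact (adjP _ hcS (by omega) p (c3 p hp hpc)).symm
          · exact IH (d (crea v)) (by omega) (crea v) rfl hcS (by omega) p (c3 p hp hpc) q
              (c3 q hq hqc) hpq
  exact fun v hvS h1 => key (d v) v rfl hvS h1

lemma mem_par_H (f : ℕ → Bool) (b : ℕ → ℕ) (i : ℕ) (p : Vx) :
    p ∈ par f b (H i) ↔ ∃ j, (i - 3 ≤ j ∧ j < i) ∧ H j = p := by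
  simp only [par, Finset.mem_image, Finset.mem_Ico]

lemma card_three {α : Type} [DecidableEq α] (x y z : α) (h1 : x ≠ y) (h2 : x ≠ z) (h3 : y ≠ z) :
    ({x, y, z} : Finset α).card = 3 := by
  rw [Finset.card_eq_three]
  exact ⟨x, y, z, h1, h2, h3, rfl⟩

variable (f : ℕ → Bool) (b T : ℕ → ℕ) (h : ℕ)

/-- Depth of parents and membership, for vertices of the core. -/
lemma par_core (v : Vx) (hv : inS T h v) (p : Vx) (hp : p ∈ par f b v) :
    inS T h p ∧ p ≠ v ∧ (1 ≤ dep v) ∨ (dep v = 0 ∧ dep p = 0 ∧ p ≠ v) := by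
  cases v with
  | H i =>
    obtain ⟨j, hj, rfl⟩ := (mem_par_H f b i p).1 hp
    simp only [inS, dep, ne_eq, Vx.H.injEq] at hv ⊢
    omega
  | A0 i =>
    simp only [par, Finset.mem_insert, Finset.mem_singleton] at hp
    rcases hp with rfl | rfl | rfl <;> simp [inS, dep] at hv ⊢ <;> omega
  | A1 i =>
    simp only [par, Finset.mem_insert, Finset.mem_singleton] at hp
    rcases hp with rfl | rfl | rfl <;> simp [inS, dep] at hv ⊢ <;> omega
  | A2 i =>
    simp only [par, Finset.mem_insert, Finset.mem_singleton] at hp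
    split_ifs at hp <;>
    rcases hp with rfl | rfl | rfl <;> simp [inS, dep] at hv ⊢ <;> omega
  | A3 i =>
    simp only [par, Finset.mem_insert, Finset.mem_singleton] at hp
    rcases hp with rfl | rfl | rfl <;> simp [inS, dep] at hv ⊢ <;> omega
  | B0 i s =>
    rcases s with _ | s
    · simp only [par, Finset.mem_insert, Finset.mem_singleton] at hp
      rcases hp with rfl | rfl | rfl <;> simp [inS, dep] at hv ⊢ <;> omega
    · simp only [par, Finset.mem_insert, Finset.mem_singleton] at hp
      rcases hp with rfl | rfl | rfl <;> simp [inS, dep] at hv ⊢ <;> omega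
  | B1 i s =>
    simp only [par, Finset.mem_insert, Finset.mem_singleton] at hp
    rcases hp with rfl | rfl | rfl <;> simp [inS, dep] at hv ⊢ <;> omega
  | B2 i s =>
    simp only [par, Finset.mem_insert, Finset.mem_singleton] at hp
    split_ifs at hp <;>
    rcases hp with rfl | rfl | rfl <;> simp [inS, dep] at hv ⊢ <;> omega
  | B3 i s =>
    simp only [par, Finset.mem_insert, Finset.mem_singleton] at hp
    rcases hp with rfl | rfl | rfl <;> simp [inS, dep] at hv ⊢ <;> omega
  | Z i => simp [inS] at hv

lemma dep_zero (v : Vx) (hv : inS T h v) (h0 : dep v = 0) : ∃ i, i < 3 ∧ v = H i := by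
  cases v <;> simp [inS, dep] at hv h0 ⊢ <;> omega

lemma dep_one (v : Vx) (hv : inS T h v) (h0 : dep v = 1) : v = H 3 := by
  cases v <;> simp [inS, dep] at hv h0 ⊢ <;> omega

lemma par_card (v : Vx) (hv : inS T h v) (h0 : 1 ≤ dep v) : (par f b v).card = 3 := by
  cases v with
  | H i =>
    simp only [inS, dep] at hv h0
    simp only [par]
    rw [Finset.card_image_of_injective _ (fun a b hab => by simpa using hab), Nat.card_Ico]
    omega
  | A0 i =>
    simp only [inS] at hv
    apply card_three <;> simp <;> omega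
  | A1 i =>
    simp only [inS] at hv
    apply card_three <;> simp <;> omega
  | A2 i =>
    simp only [inS] at hv
    apply card_three <;> (try split_ifs) <;> simp
  | A3 i => apply card_three <;> simp
  | B0 i s =>
    simp only [inS] at hv
    rcases s with _ | s
    · apply card_three <;> simp <;> omega
    · apply card_three <;> simp <;> omega
  | B1 i s =>
    simp only [inS] at hv
    apply card_three <;> simp <;> omega
  | B2 i s =>
    simp only [inS] at hv
    apply card_three <;> (try split_ifs) <;> simp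
  | B3 i s => apply card_three <;> simp
  | Z i => simp [inS] at hv

lemma crea_spec (v : Vx) (hv : inS T h v) (h0 : 2 ≤ dep v) : crea v ∈ par f b v ∧
    dep v = dep (crea v) + 1 ∧ ∀ p ∈ par f b v, p ≠ crea v → p ∈ par f b (crea v) := by
  cases v with
  | H i =>
    simp only [inS, dep] at hv h0
    refine ⟨?_, ?_, ?_⟩
    · rw [mem_par_H]
      exact ⟨i - 1, by omega, rfl⟩
    · simp only [crea, dep]
      omega
    · intro p hp hne
      obtain ⟨j, hj, rfl⟩ := (mem_par_H f b i p).1 hp
      simp only [crea, ne_eq, Vx.H.injEq] at hne ⊢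
      rw [mem_par_H]
      exact ⟨j, by omega, rfl⟩
  | A0 i =>
    simp only [inS] at hv
    refine ⟨by simp [par, crea], by simp [crea, dep], ?_⟩
    intro p hp hne
    simp only [par, Finset.mem_insert, Finset.mem_singleton] at hp
    simp only [crea] at hne ⊢
    rw [mem_par_H]
    rcases hp with rfl | rfl | rfl
    · exact absurd rfl hne
    · exact ⟨i - 1, by omega, rfl⟩
    · exact ⟨i - 3, by omega, rfl⟩
  | A1 i =>
    simp only [inS] at hv
    refine ⟨by simp [par, crea], by simp [crea, dep], ?_⟩
    intro p hp hne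
    simp only [par, Finset.mem_insert, Finset.mem_singleton] at hp
    simp only [crea] at hne ⊢
    rcases hp with rfl | rfl | rfl
    · exact absurd rfl hne
    · simp [par]
    · simp [par]
  | A2 i =>
    simp only [inS] at hv
    refine ⟨by simp [par, crea], by simp [crea, dep], ?_⟩
    intro p hp hne
    simp only [par, Finset.mem_insert, Finset.mem_singleton] at hp
    simp only [crea] at hne ⊢
    rcases hp with rfl | rfl | rfl
    · exact absurd rfl hne
    · simp [par]
    · split_ifs <;> simp [par]
  | A3 i =>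
    simp only [inS] at hv
    refine ⟨by simp [par, crea], by simp [crea, dep], ?_⟩
    intro p hp hne
    simp only [par, Finset.mem_insert, Finset.mem_singleton] at hp
    simp only [crea] at hne ⊢
    rcases hp with rfl | rfl | rfl
    · exact absurd rfl hne
    · simp [par]
    · simp [par]
  | B0 i s =>
    simp only [inS] at hv
    rcases s with _ | s
    · refine ⟨by simp [par, crea], by simp [crea, dep], ?_⟩
      intro p hp hne
      simp only [par, Finset.mem_insert, Finset.mem_singleton] at hp
      simp only [crea] at hne ⊢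
      rw [mem_par_H]
      rcases hp with rfl | rfl | rfl
      · exact absurd rfl hne
      · exact ⟨i - 2, by omega, rfl⟩
      · exact ⟨i - 3, by omega, rfl⟩
    · refine ⟨by simp [par, crea], by simp only [crea, dep]; omega, ?_⟩
      intro p hp hne
      simp only [par, Finset.mem_insert, Finset.mem_singleton] at hp
      simp only [crea] at hne ⊢
      rcases hp with rfl | rfl | rfl
      · exact absurd rfl hne
      · simp [par]
      · simp [par]
  | B1 i s =>
    simp only [inS] at hv
    refine ⟨by simp [par, crea], by simp [crea, dep], ?_⟩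
    intro p hp hne
    simp only [par, Finset.mem_insert, Finset.mem_singleton] at hp
    simp only [crea] at hne ⊢
    rcases hp with rfl | rfl | rfl
    · exact absurd rfl hne
    · rcases s with _ | s <;> simp [par]
    · rcases s with _ | s <;> simp [par]
  | B2 i s =>
    simp only [inS] at hv
    refine ⟨by simp [par, crea], by simp [crea, dep], ?_⟩
    intro p hp hne
    simp only [par, Finset.mem_insert, Finset.mem_singleton] at hp
    simp only [crea] at hne ⊢
    rcases hp with rfl | rfl | rfl
    · exact absurd rfl hne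
    · simp [par]
    · split_ifs <;> simp [par]
  | B3 i s =>
    simp only [inS] at hv
    refine ⟨by simp [par, crea], by simp [crea, dep], ?_⟩
    intro p hp hne
    simp only [par, Finset.mem_insert, Finset.mem_singleton] at hp
    simp only [crea] at hne ⊢
    rcases hp with rfl | rfl | rfl
    · exact absurd rfl hne
    · simp [par]
    · simp [par]
  | Z i => simp [inS] at hv

/-- Recovering a vertex from its creator and its parents. -/
def rcv : Vx → Finset Vx → Vx
  | H i, P => if H (i - 3) ∉ P then H (i + 1) else if H (i - 1) ∈ P then A0 i else B0 i 0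
  | A0 i, _ => A1 i
  | A1 i, _ => A2 i
  | A2 i, _ => A3 i
  | B0 i s, _ => B1 i s
  | B1 i s, P => if B0 i s ∈ P then B2 i s else B0 i (s + 1)
  | B2 i s, _ => B3 i s
  | v, _ => v

lemma rcv_spec (v : Vx) (hv : inS T h v) (h0 : 2 ≤ dep v) :
    rcv (crea v) (par f b v) = v := by
  cases v with
  | H i =>
    simp only [inS, dep] at hv h0
    have h1 : H (i - 1 - 3) ∉ par f b (H i) := by
      rw [mem_par_H]
      rintro ⟨j, hj, hj'⟩
      simp only [Vx.H.injEq] at hj'
      omega
    simp only [crea, rcv, h1, not_false_eq_true, if_true, Vx.H.injEq]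
    omega
  | A0 i => simp [crea, rcv, par]
  | A1 i => simp [crea, rcv]
  | A2 i => simp [crea, rcv]
  | A3 i => simp [crea, rcv]
  | B0 i s =>
    simp only [inS] at hv
    rcases s with _ | s
    · have h1 : H (i - 1) ∉ par f b (B0 i 0) := by
        simp only [par, Finset.mem_insert, Finset.mem_singleton, Vx.H.injEq]
        omega
      have h2 : H (i - 3) ∈ par f b (B0 i 0) := by simp [par]
      simp only [crea, rcv, h1, h2, not_true_eq_false, if_false]
    · simp [crea, rcv, par]
  | B1 i s => simp [crea, rcv]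
  | B2 i s => simp [crea, rcv, par]
  | B3 i s => simp [crea, rcv]
  | Z i => simp [inS] at hv

theorem core_stack : IsStack (gr f b) (core T h) dep (par f b) crea := by
  have hpar := par_core f b T h
  apply IsStack.ofData
  · rintro v hv w hw ⟨hne, h1 | h1⟩
    · rcases hpar v ((mem_core T h v).1 hv) w h1 with h2 | h2
      · exact Or.inl ⟨h2.2.2, h1⟩
      · exact Or.inr (Or.inr ⟨h2.1, h2.2.1⟩)
    · rcases hpar w ((mem_core T h w).1 hw) v h1 with h2 | h2
      · exact Or.inr (Or.inl ⟨h2.2.2, h1⟩)
      · exact Or.inr (Or.inr ⟨h2.2.1, h2.1⟩)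
  · intro T' hT' h0
    have hsub : T' ⊆ (Finset.range 3).image H := by
      intro v hv
      obtain ⟨i, hi, rfl⟩ := dep_zero T h v ((mem_core T h v).1 (hT' hv)) (h0 v hv)
      exact Finset.mem_image_of_mem _ (Finset.mem_range.2 hi)
    exact (Finset.card_le_card hsub).trans (Finset.card_image_le.trans (by simp))
  · intro v hv w hw h1 h2
    rw [dep_one T h v ((mem_core T h v).1 hv) h1, dep_one T h w ((mem_core T h w).1 hw) h2]
  · intro v hv h1 p hp
    rw [mem_core]
    rcases hpar v ((mem_core T h v).1 hv) p hp with h2 | h2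
    · exact h2.1
    · omega
  · intro v hv h1
    exact par_card f b T h v ((mem_core T h v).1 hv) h1
  · intro v hv h1 p hp
    rcases hpar v ((mem_core T h v).1 hv) p hp with h2 | h2
    · exact ⟨h2.2.1.symm, Or.inl hp⟩
    · omega
  · intro v hv h1 p hp
    rw [dep_one T h v ((mem_core T h v).1 hv) h1] at hp
    obtain ⟨j, hj, rfl⟩ := (mem_par_H f b 3 p).1 hp
    simp only [dep]
    omega
  · intro v hv h1
    exact crea_spec f b T h v ((mem_core T h v).1 hv) h1
  · intro v hv w hw h1 h2 hc hP
    rw [← rcv_spec f b T h v ((mem_core T h v).1 hv) h1,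
      ← rcv_spec f b T h w ((mem_core T h w).1 hw) h2, hc, hP]
  · intro p hp q hq h1 h2 hpq
    obtain ⟨i, hi, rfl⟩ := dep_zero T h p ((mem_core T h p).1 hp) h1
    obtain ⟨j, hj, rfl⟩ := dep_zero T h q ((mem_core T h q).1 hq) h2
    have hij : i ≠ j := fun h' => hpq (by rw [h'])
    refine ⟨hpq, ?_⟩
    rcases Nat.lt_or_ge i j with h3 | h3
    · right
      rw [mem_par_H]
      exact ⟨i, by omega, rfl⟩
    · left
      rw [mem_par_H]
      exact ⟨j, by omega, rfl⟩

end Pool.Agent.Hhelper53.Planar
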