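import Pool.Agent.Hhelper53.Planar.EdgeBound

set_option autoImplicit false

namespace Pool.Agent.Hhelper53.Planar

open SimpleGraph

variable {V : Type}

/-- Independent finite sets. -/
def Ind (G : SimpleGraph V) (I : Finset V) : Prop := ∀ a ∈ I, ∀ b ∈ I, ¬ G.Adj a b

open Classical in
/-- Independence number of the subgraph induced on `S`. -/
noncomputable def al (G : SimpleGraph V) (S : Finset V) : ℕ :=
  (S.powerset.filter (fun I => Ind G I)).sup Finset.card

lemma le_al (G : SimpleGraph V) (S I : Finset V) (hI : I ⊆ S)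
    (hind : ∀ a ∈ I, ∀ b ∈ I, ¬ G.Adj a b) : I.card ≤ al G S := by
  classical
  unfold al
  exact Finset.le_sup (f := Finset.card)
    (Finset.mem_filter.2 ⟨Finset.mem_powerset.2 hI, hind⟩)

lemma exists_al (G : SimpleGraph V) (S : Finset V) :
    ∃ I ⊆ S, (∀ a ∈ I, ∀ b ∈ I, ¬ G.Adj a b) ∧ I.card = al G S := by
  classical
  have hne : (S.powerset.filter (fun I => Ind G I)).Nonempty :=
    ⟨∅, Finset.mem_filter.2 ⟨by simp, fun a ha => by simp at ha⟩⟩
  obtain ⟨I, hI, hIc⟩ := Finset.exists_mem_eq_sup _ hne Finset.card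
  rw [Finset.mem_filter, Finset.mem_powerset] at hI
  exact ⟨I, hI.1, hI.2, by unfold al; exact hIc.symm⟩

lemma al_mono (G : SimpleGraph V) (S T : Finset V) (h : S ⊆ T) : al G S ≤ al G T := by
  obtain ⟨I, hI, hind, hc⟩ := exists_al G S
  rw [← hc]
  exact le_al G T I (hI.trans h) hind

open Classical in
lemma al_union (G : SimpleGraph V) (A B : Finset V) (hAB : Disjoint A B)
    (hno : ∀ a ∈ A, ∀ b ∈ B, ¬ G.Adj a b) : al G A + al G B ≤ al G (A ∪ B) := by
  obtain ⟨I, hI, hindI, hcI⟩ := exists_al G A
  obtain ⟨J, hJ, hindJ, hcJ⟩ := exists_al G B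
  rw [← hcI, ← hcJ, ← Finset.card_union_of_disjoint
    (Finset.disjoint_of_subset_left hI (Finset.disjoint_of_subset_right hJ hAB))]
  refine le_al G _ _ (Finset.union_subset_union hI hJ) ?_
  intro a ha b hb
  rcases Finset.mem_union.1 ha with h1 | h1 <;> rcases Finset.mem_union.1 hb with h2 | h2
  · exact hindI a h1 b h2
  · exact hno a (hI h1) b (hJ h2)
  · exact fun h => hno b (hI h2) a (hJ h1) h.symm
  · exact hindJ a h1 b h2

open Classical in
lemma al_erase_ge (G : SimpleGraph V) (S : Finset V) (v : V) (hv : v ∈ S) :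
    al G (S \ insert v (S.filter (fun y => G.Adj v y))) + 1 ≤ al G S := by
  obtain ⟨I, hI, hind, hc⟩ := exists_al G (S \ insert v (S.filter (fun y => G.Adj v y)))
  have hvI : v ∉ I := fun h => by
    have := hI h
    simp at this
  rw [← hc, ← Finset.card_insert_of_notMem hvI]
  refine le_al G _ _ ?_ ?_
  · intro x hx
    rcases Finset.mem_insert.1 hx with rfl | hx
    · exact hv
    · exact (Finset.mem_sdiff.1 (hI hx)).1
  · have hvx : ∀ x ∈ I, ¬ G.Adj v x := by
      intro x hx hadj
      have := hI hx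
      rw [Finset.mem_sdiff] at this
      exact this.2 (Finset.mem_insert_of_mem (Finset.mem_filter.2 ⟨this.1, hadj⟩))
    intro a ha b hb
    rcases Finset.mem_insert.1 ha with h1 | h1 <;> rcases Finset.mem_insert.1 hb with h2 | h2
    · rw [h1, h2]
      exact G.loopless.irrefl _
    · rw [h1]
      exact hvx b h2
    · rw [h2]
      exact fun h => hvx a h1 h.symm
    · exact hind a h1 b h2

open Classical in
/-- `𝒞` is the family of connected components of `G` on `S`. -/
def Comps (G : SimpleGraph V) (S : Finset V) (𝒞 : Finset (Finset V)) : Prop :=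
  (∀ C ∈ 𝒞, Conn G (C : Set V)) ∧
  (∀ C ∈ 𝒞, ∀ C' ∈ 𝒞, C ≠ C' → Disjoint C C' ∧ ∀ a ∈ C, ∀ b ∈ C', ¬ G.Adj a b) ∧
  𝒞.biUnion id = S

open Classical in
lemma exists_comps (G : SimpleGraph V) : ∀ (n : ℕ) (S : Finset V), S.card = n →
    ∃ 𝒞, Comps G S 𝒞 := by
  intro n
  induction n using Nat.strong_induction_on with
  | _ n IH =>
    intro S hS
    by_cases hne : S.Nonempty
    · by_cases hc : Conn G (S : Set V)
      · refine ⟨{S}, ?_, ?_, ?_⟩
        · intro C hC
          rw [Finset.mem_singleton.1 hC]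
          exact hc
        · intro C hC C' hC' h
          rw [Finset.mem_singleton.1 hC, Finset.mem_singleton.1 hC'] at h
          exact absurd rfl h
        · simp
      · have h1 : ∃ P : Set V, P ⊆ (S : Set V) ∧ P.Nonempty ∧ ((S : Set V) \ P).Nonempty ∧
            ∀ u ∈ P, ∀ v ∈ (S : Set V) \ P, ¬ G.Adj u v := by
          by_contra hno
          push Not at hno
          exact hc ⟨Finset.coe_nonempty.2 hne, fun P h1 h2 h3 => by
            obtain ⟨u, hu, v, hv, huv⟩ := hno P h1 h2 h3
            exact ⟨u, hu, v, hv, huv⟩⟩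
        obtain ⟨P, hPS, ⟨p, hp⟩, ⟨q, hq⟩, hno⟩ := h1
        set A := S.filter (fun x => x ∈ P) with hA
        have hAS : A ⊆ S := Finset.filter_subset _ _
        have hmA : ∀ x, x ∈ A ↔ x ∈ P := fun x => by
          rw [hA, Finset.mem_filter]
          exact ⟨fun h => h.2, fun h => ⟨hPS h, h⟩⟩
        have hA1 : A.card < n := by
          rw [← hS]
          apply Finset.card_lt_card
          refine ⟨hAS, fun h => ?_⟩
          exact hq.2 ((hmA q).1 (h hq.1))
        have hB1 : (S \ A).card < n := by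
          rw [← hS]
          apply Finset.card_lt_card
          refine ⟨Finset.sdiff_subset, fun h => ?_⟩
          exact (Finset.mem_sdiff.1 (h (hPS hp))).2 ((hmA p).2 hp)
        obtain ⟨𝒜, a1, a2, a3⟩ := IH _ hA1 A rfl
        obtain ⟨ℬ, b1, b2, b3⟩ := IH _ hB1 (S \ A) rfl
        have hcross : ∀ a ∈ A, ∀ b ∈ S \ A, ¬ G.Adj a b := by
          intro a ha b hb
          rw [Finset.mem_sdiff] at hb
          exact hno a ((hmA a).1 ha) b ⟨hb.1, fun h => hb.2 ((hmA b).2 h)⟩
        have hsubA : ∀ C ∈ 𝒜, C ⊆ A := by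
          intro C hC x hx
          rw [← a3]
          exact Finset.mem_biUnion.2 ⟨C, hC, hx⟩
        have hsubB : ∀ C ∈ ℬ, C ⊆ S \ A := by
          intro C hC x hx
          rw [← b3]
          exact Finset.mem_biUnion.2 ⟨C, hC, hx⟩
        refine ⟨𝒜 ∪ ℬ, ?_, ?_, ?_⟩
        · intro C hC
          rcases Finset.mem_union.1 hC with h | h
          · exact a1 C h
          · exact b1 C h
        · intro C hC C' hC' hne'
          rcases Finset.mem_union.1 hC with h | h <;> rcases Finset.mem_union.1 hC' with h' | h'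
          · exact a2 C h C' h' hne'
          · exact ⟨Finset.disjoint_of_subset_left (hsubA C h) (Finset.disjoint_of_subset_right
              (hsubB C' h') Finset.disjoint_sdiff),
              fun a ha b hb => hcross a (hsubA C h ha) b (hsubB C' h' hb)⟩
          · exact ⟨Finset.disjoint_of_subset_left (hsubB C h) (Finset.disjoint_of_subset_right
              (hsubA C' h') Finset.disjoint_sdiff.symm),
              fun a ha b hb hab => hcross b (hsubA C' h' hb) a (hsubB C h ha) hab.symm⟩
          · exact b2 C h C' h' hne'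
        · rw [Finset.union_biUnion, a3, b3, Finset.union_sdiff_of_subset hAS]
    · rw [Finset.not_nonempty_iff_eq_empty] at hne
      refine ⟨∅, ?_, ?_, ?_⟩
      · simp
      · simp
      · simp [hne]

open Classical in
lemma Comps.subset {G : SimpleGraph V} {S : Finset V} {𝒞 : Finset (Finset V)} (h : Comps G S 𝒞)
    {C : Finset V} (hC : C ∈ 𝒞) : C ⊆ S := by
  intro x hx
  rw [← h.2.2]
  exact Finset.mem_biUnion.2 ⟨C, hC, hx⟩

open Classical in
lemma Comps.no_edge {G : SimpleGraph V} {S : Finset V} {𝒞 : Finset (Finset V)} (h : Comps G S 𝒞)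
    {C : Finset V} (hC : C ∈ 𝒞) : ∀ a ∈ C, ∀ b ∈ S \ C, ¬ G.Adj a b := by
  intro a ha b hb
  rw [Finset.mem_sdiff, ← h.2.2, Finset.mem_biUnion] at hb
  obtain ⟨⟨C', hC', hbC'⟩, hbC⟩ := hb
  have hne : C ≠ C' := fun h1 => hbC (h1 ▸ hbC')
  exact (h.2.1 C hC C' hC' hne).2 a ha b hbC'

open Classical in
lemma Comps.card {G : SimpleGraph V} {S : Finset V} {𝒞 : Finset (Finset V)} (h : Comps G S 𝒞) :
    ∑ C ∈ 𝒞, C.card = S.card := by
  rw [← h.2.2, Finset.card_biUnion]
  · rfl
  · intro C hC C' hC' hne
    exact (h.2.1 C hC C' hC' hne).1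

open Classical in
lemma Comps.dd_left {G : SimpleGraph V} {S : Finset V} {𝒞 : Finset (Finset V)}
    (h : Comps G S 𝒞) (T : Finset V) : dd G S T = ∑ C ∈ 𝒞, dd G C T := by
  conv_lhs => rw [← h.2.2]
  rw [dd_biUnion_left]
  · rfl
  · intro C hC C' hC' hne
    exact (h.2.1 C hC C' hC' hne).1

open Classical in
lemma dd_split (G : SimpleGraph V) (C S T : Finset V) (hCS : C ⊆ S) :
    dd G T S = dd G T C + dd G T (S \ C) := by
  rw [← dd_union_right G _ _ _ Finset.disjoint_sdiff, Finset.union_sdiff_of_subset hCS]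

open Classical in
lemma Comps.dd_self {G : SimpleGraph V} {S : Finset V} {𝒞 : Finset (Finset V)}
    (h : Comps G S 𝒞) : dd G S S = ∑ C ∈ 𝒞, dd G C C := by
  rw [h.dd_left]
  refine Finset.sum_congr rfl fun C hC => ?_
  rw [dd_split G C S C (h.subset hC), dd_eq_zero G C (S \ C) (h.no_edge hC), add_zero]

open Classical in
lemma Comps.al {G : SimpleGraph V} {S : Finset V} {𝒞 : Finset (Finset V)} (h : Comps G S 𝒞) :
    ∑ C ∈ 𝒞, al G C ≤ al G S := by
  obtain ⟨h1, h2, h3⟩ := h
  rw [← h3]
  clear h3 h1
  induction 𝒞 using Finset.induction_on with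
  | empty => simp
  | insert C 𝒟 hC ih =>
    rw [Finset.sum_insert hC, Finset.biUnion_insert]
    have ih' := ih (fun A hA B hB hAB => h2 A (Finset.mem_insert_of_mem hA) B
      (Finset.mem_insert_of_mem hB) hAB)
    have hkey : ∀ D ∈ 𝒟, Disjoint C D ∧ ∀ a ∈ C, ∀ b ∈ D, ¬ G.Adj a b := fun D hD =>
      h2 C (Finset.mem_insert_self _ _) D (Finset.mem_insert_of_mem hD)
        (fun h => hC (h ▸ hD))
    refine le_trans (Nat.add_le_add_left ih' _) ?_
    refine al_union G C (𝒟.biUnion id) ?_ ?_
    · rw [Finset.disjoint_biUnion_right]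
      exact fun D hD => (hkey D hD).1
    · intro a ha b hb
      obtain ⟨D, hD, hbD⟩ := Finset.mem_biUnion.1 hb
      exact (hkey D hD).2 a ha b hbD

open Classical in
lemma comps_sum {G : SimpleGraph V} {S : Finset V} {𝒞 : Finset (Finset V)} (h : Comps G S 𝒞)
    (hC : ∀ C ∈ 𝒞, 6 * C.card ≤ dd G C C + 10 * Planar.al G C + 2) :
    6 * S.card ≤ dd G S S + 10 * Planar.al G S + 2 * 𝒞.card := by
  rw [← h.card, h.dd_self, Finset.mul_sum]
  have h1 := Finset.sum_le_sum hC
  rw [Finset.sum_add_distrib, Finset.sum_add_distrib, ← Finset.mul_sum, ← Finset.mul_sum,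
    Finset.sum_const, smul_eq_mul] at h1
  have h2 := h.al
  rw [← Finset.mul_sum]
  omega

open Classical in
/-- Number of components left by removing a vertex. -/
lemma comps_erase_card {G : SimpleGraph V} {P : Finset V} {u : V} (hu : u ∈ P)
    (hP : Conn G (P : Set V)) {𝒞 : Finset (Finset V)} (h : Comps G (P.erase u) 𝒞) :
    𝒞.card ≤ dg G P u := by
  classical
  have hex : ∀ C ∈ 𝒞, ∃ w ∈ C, G.Adj u w := by
    intro C hC
    have hsub := h.subset hC
    obtain ⟨a, ha, b, hb, hab⟩ := hP.2 (C : Set V)
      (fun x hx => Finset.mem_coe.2 (Finset.mem_of_mem_erase (hsub hx)))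
      (h.1 C hC).1 ⟨u, Finset.mem_coe.2 hu, fun hx => by
        have := hsub (Finset.mem_coe.1 hx)
        simp at this⟩
    have hbu : b = u := by
      by_contra hbu
      refine h.no_edge hC a (Finset.mem_coe.1 ha) b (Finset.mem_sdiff.2 ⟨?_, ?_⟩) hab
      · exact Finset.mem_erase.2 ⟨hbu, Finset.mem_coe.1 hb.1⟩
      · exact fun hx => hb.2 (Finset.mem_coe.2 hx)
    subst hbu
    exact ⟨a, Finset.mem_coe.1 ha, hab.symm⟩
  have : Nonempty V := ⟨u⟩
  choose! f hf1 hf2 using hex
  unfold dg
  refine Finset.card_le_card_of_injOn f ?_ ?_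
  · intro C hC
    have hC' := Finset.mem_coe.1 hC
    exact Finset.mem_coe.2 (Finset.mem_filter.2
      ⟨Finset.mem_of_mem_erase (h.subset hC' (hf1 C hC')), hf2 C hC'⟩)
  · intro C hC C' hC' heq
    by_contra hne
    exact Finset.disjoint_left.1 (h.2.1 C (Finset.mem_coe.1 hC) C' (Finset.mem_coe.1 hC') hne).1
      (hf1 C (Finset.mem_coe.1 hC)) (heq ▸ hf1 C' (Finset.mem_coe.1 hC'))

lemma dd_one_unique (G : SimpleGraph V) (P Q : Finset V) (h : dd G P Q = 1)
    {a b c d : V} (ha : a ∈ P) (hb : b ∈ Q) (hc : c ∈ P) (hd : d ∈ Q) (hab : G.Adj a b)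
    (hcd : G.Adj c d) : a = c := by
  classical
  by_contra hne
  have h1 : dg G Q a + dg G Q c ≤ dd G P Q := by
    unfold dd
    rw [← Finset.sum_pair (f := fun x => dg G Q x) hne]
    exact Finset.sum_le_sum_of_subset (by
      intro x hx
      simp only [Finset.mem_insert, Finset.mem_singleton] at hx
      rcases hx with rfl | rfl <;> assumption)
  have h2 := (dg_pos_iff G Q a).2 ⟨b, hb, hab⟩
  have h3 := (dg_pos_iff G Q c).2 ⟨d, hd, hcd⟩
  omega

open Classical in
lemma conn_of_bridge (G : SimpleGraph V) (S P : Finset V) (hPS : P ⊆ S) (hne : P.Nonempty)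
    (hS : Conn G (S : Set V)) (h1 : dd G P (S \ P) = 1) : Conn G (P : Set V) := by
  refine ⟨Finset.coe_nonempty.2 hne, ?_⟩
  intro X hX hXne hYne
  by_contra hno
  push Not at hno
  obtain ⟨a, ha, b, hb, hab⟩ := hS.2 X (hX.trans (Finset.coe_subset.2 hPS)) hXne (by
    obtain ⟨y, hy⟩ := hYne
    exact ⟨y, hPS hy.1, hy.2⟩)
  have hbQ : b ∈ S \ P := by
    rw [Finset.mem_sdiff]
    refine ⟨hb.1, fun hbP => ?_⟩
    exact hno a ha b ⟨hbP, hb.2⟩ hab
  obtain ⟨c, hc, d, hd, hcd⟩ := hS.2 ((P : Set V) \ X)
    (fun x hx => hPS hx.1) hYne (by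
      obtain ⟨y, hy⟩ := hXne
      exact ⟨y, hPS (hX hy), fun h => h.2 hy⟩)
  have hdQ : d ∈ S \ P := by
    rw [Finset.mem_sdiff]
    refine ⟨hd.1, fun hdP => ?_⟩
    have hdX : d ∈ X := by
      by_contra h
      exact hd.2 ⟨hdP, h⟩
    exact hno d hdX c hc hcd.symm
  have := dd_one_unique G P (S \ P) h1 (hX ha) hbQ hc.1 hdQ hab hcd
  exact hc.2 (this ▸ ha)

theorem turan_conn : ∀ (n : ℕ) (G : SimpleGraph V) (S : Finset V), S.card = n →
    Conn G (S : Set V) → 6 * S.card ≤ dd G S S + 10 * al G S + 2 := by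
  classical
  intro n
  induction n using Nat.strong_induction_on with
  | _ n IH =>
    intro G S hS hconn
    have IHc : ∀ (T : Finset V), T.card < n → ∀ 𝒞, Comps G T 𝒞 →
        6 * T.card ≤ dd G T T + 10 * al G T + 2 * 𝒞.card := by
      intro T hT 𝒞 h𝒞
      refine comps_sum h𝒞 (fun C hC => ?_)
      exact IH C.card (lt_of_le_of_lt (Finset.card_le_card (h𝒞.subset hC)) hT) G C rfl
        (h𝒞.1 C hC)
    by_cases hbr : ∃ P ⊆ S, P.Nonempty ∧ (S \ P).Nonempty ∧ dd G P (S \ P) = 1
    · obtain ⟨P, hPS, hPne, hQne, h1⟩ := hbr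
      set Q := S \ P with hQ
      have hQS : Q ⊆ S := Finset.sdiff_subset
      have hSQ : S \ Q = P := by rw [hQ, Finset.sdiff_sdiff_eq_self hPS]
      have hdisPQ : Disjoint P Q := Finset.disjoint_sdiff
      have hunion : P ∪ Q = S := Finset.union_sdiff_of_subset hPS
      have hPc := conn_of_bridge G S P hPS hPne hconn h1
      have hQc := conn_of_bridge G S Q hQS hQne hconn (by rw [hSQ, dd_comm]; exact h1)
      have hcard : P.card + Q.card = S.card := by
        rw [← Finset.card_union_of_disjoint hdisPQ, hunion]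
      have hP1 := Finset.card_pos.2 hPne
      have hQ1 := Finset.card_pos.2 hQne
      have hdd : dd G S S = dd G P P + dd G Q Q + 2 := by
        conv_lhs => rw [← hunion]
        rw [dd_union_left G _ _ _ hdisPQ, dd_union_right G _ _ _ hdisPQ,
          dd_union_right G _ _ _ hdisPQ, dd_comm G Q P, h1]
        omega
      obtain ⟨u, hu, v, hv, huv⟩ := (dd_pos_iff G P Q).1 (by omega)
      by_cases hal : al G P + al G Q ≤ al G S
      · have i1 := IH P.card (by omega) G P rfl hPc
        have i2 := IH Q.card (by omega) G Q rfl hQc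
        omega
      · push Not at hal
        -- crossing edges are only `u v`
        have hu' : ∀ a ∈ P, ∀ b ∈ Q, G.Adj a b → a = u := fun a ha b hb hab =>
          dd_one_unique G P Q h1 ha hb hu hv hab huv
        have hv' : ∀ a ∈ P, ∀ b ∈ Q, G.Adj a b → b = v := fun a ha b hb hab =>
          dd_one_unique G Q P (by rw [dd_comm]; exact h1) hb ha hv hu hab.symm huv.symm
        have hindU : ∀ I ⊆ P, ∀ J ⊆ Q, (∀ a ∈ I, ∀ b ∈ I, ¬ G.Adj a b) →
            (∀ a ∈ J, ∀ b ∈ J, ¬ G.Adj a b) → (u ∉ I ∨ v ∉ J) → I.card + J.card ≤ al G S := by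
          intro I hI J hJ hindI hindJ hor
          rw [← Finset.card_union_of_disjoint
            (Finset.disjoint_of_subset_left hI (Finset.disjoint_of_subset_right hJ hdisPQ))]
          refine le_al G _ _ (hunion ▸ Finset.union_subset_union hI hJ) ?_
          have hcr : ∀ a ∈ I, ∀ b ∈ J, ¬ G.Adj a b := by
            intro a ha b hb hab
            rcases hor with h | h
            · exact h ((hu' a (hI ha) b (hJ hb) hab) ▸ ha)
            · exact h ((hv' a (hI ha) b (hJ hb) hab) ▸ hb)
          intro a ha b hb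
          rcases Finset.mem_union.1 ha with h1 | h1 <;> rcases Finset.mem_union.1 hb with h2 | h2
          · exact hindI a h1 b h2
          · exact hcr a h1 b h2
          · exact fun h => hcr b h2 a h1 h.symm
          · exact hindJ a h1 b h2
        obtain ⟨IP, hIP, hindP, hcP⟩ := exists_al G P
        obtain ⟨IQ, hIQ, hindQ, hcQ⟩ := exists_al G Q
        have hsum : al G P + al G Q ≤ al G S + 1 := by
          have := hindU (IP.erase u) ((Finset.erase_subset _ _).trans hIP) IQ hIQ
            (fun a ha b hb => hindP a (Finset.mem_of_mem_erase ha) b (Finset.mem_of_mem_erase hb))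
            hindQ (Or.inl (Finset.notMem_erase _ _))
          have h2 := Finset.pred_card_le_card_erase (s := IP) (a := u)
          omega
        have hPu : al G (P.erase u) + 1 ≤ al G P := by
          by_contra hcon
          obtain ⟨I, hI, hind, hc⟩ := exists_al G (P.erase u)
          have := hindU I (hI.trans (Finset.erase_subset _ _)) IQ hIQ hind hindQ
            (Or.inl (fun h => Finset.notMem_erase _ _ (hI h)))
          omega
        have hQv : al G (Q.erase v) + 1 ≤ al G Q := by
          by_contra hcon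
          obtain ⟨I, hI, hind, hc⟩ := exists_al G (Q.erase v)
          have := hindU IP hIP I (hI.trans (Finset.erase_subset _ _)) hindP hind
            (Or.inr (fun h => Finset.notMem_erase _ _ (hI h)))
          omega
        have hkey : ∀ (T : Finset V) (t : V), t ∈ T → T.card < n → Conn G (T : Set V) →
            al G (T.erase t) + 1 ≤ al G T → 6 * T.card + 4 ≤ dd G T T + 10 * al G T := by
          intro T t ht hTn hT hlt
          obtain ⟨𝒞, h𝒞⟩ := exists_comps G _ (T.erase t) rfl
          have hc1 : (T.erase t).card = T.card - 1 := Finset.card_erase_of_mem ht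
          have hTpos := Finset.card_pos.2 ⟨t, ht⟩
          have e1 := IHc (T.erase t) (by omega) 𝒞 h𝒞
          have e2 := comps_erase_card ht hT h𝒞
          have e3 := dd_erase G T t ht
          omega
        have k1 := hkey P u hu (by omega) hPc hPu
        have k2 := hkey Q v hv (by omega) hQc hQv
        omega
    · push Not at hbr
      obtain ⟨v, hv, hmin⟩ := Finset.exists_min_image S (fun x => dg G S x)
        (Finset.coe_nonempty.1 hconn.1)
      set N := S.filter (fun y => G.Adj v y) with hN
      set T := insert v N with hT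
      have hvN : v ∉ N := by
        rw [hN, Finset.mem_filter]
        exact fun h => G.loopless.irrefl _ h.2
      have hTS : T ⊆ S := by
        intro x hx
        rcases Finset.mem_insert.1 hx with rfl | hx
        · exact hv
        · exact (Finset.mem_filter.1 hx).1
      have hNc : N.card = dg G S v := by
        unfold dg
        rw [hN]
      have hTc : T.card = dg G S v + 1 := by
        rw [hT, Finset.card_insert_of_notMem hvN, hNc]
      set S' := S \ T with hS'
      have hcard : S'.card + T.card = S.card := by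
        rw [hS', Finset.card_sdiff_of_subset hTS]
        have := Finset.card_le_card hTS
        omega
      obtain ⟨𝒞, h𝒞⟩ := exists_comps G _ S' rfl
      have e1 := IHc S' (by omega) 𝒞 h𝒞
      have e2 : al G S' + 1 ≤ al G S := al_erase_ge G S v hv
      have hdis : Disjoint T S' := Finset.disjoint_sdiff
      have hun : T ∪ S' = S := Finset.union_sdiff_of_subset hTS
      have e3 : dd G S S = dd G S' S' + dd G T T + 2 * dd G T S' := by
        conv_lhs => rw [← hun]
        rw [dd_union_left G _ _ _ hdis, dd_union_right G _ _ _ hdis,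
          dd_union_right G _ _ _ hdis, dd_comm G S' T]
        omega
      have e4 : T.card * dg G S v ≤ dd G T T + dd G T S' := by
        rw [← dd_union_right G _ _ _ hdis, hun]
        unfold dd
        rw [← smul_eq_mul, ← Finset.sum_const]
        exact Finset.sum_le_sum fun x hx => hmin x (hTS hx)
      have e5 : 2 * 𝒞.card ≤ dd G T S' := by
        rw [dd_comm, h𝒞.dd_left, mul_comm, ← smul_eq_mul, ← Finset.sum_const]
        refine Finset.sum_le_sum fun C hC => ?_
        have hCS' := h𝒞.subset hC
        have hCS : C ⊆ S := hCS'.trans Finset.sdiff_subset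
        have hCne : C.Nonempty := Finset.coe_nonempty.1 (h𝒞.1 C hC).1
        have hTC : T ⊆ S \ C := by
          intro x hx
          rw [Finset.mem_sdiff]
          exact ⟨hTS hx, fun h => Finset.disjoint_left.1 hdis hx (hCS' h)⟩
        have hne2 : (S \ C).Nonempty := ⟨v, hTC (Finset.mem_insert_self _ _)⟩
        have f1 := hbr C hCS hCne hne2
        have f2 : 0 < dd G C (S \ C) := by
          obtain ⟨a, ha, b, hb, hab⟩ := hconn.2 (C : Set V) (Finset.coe_subset.2 hCS)
            (Finset.coe_nonempty.2 hCne) (by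
              rw [← Finset.coe_sdiff]
              exact Finset.coe_nonempty.2 hne2)
          exact (dd_pos_iff G _ _).2 ⟨a, ha, b, Finset.mem_sdiff.2 ⟨hb.1, hb.2⟩, hab⟩
        have f3 : dd G C (S \ C) = dd G C T := by
          rw [dd_split G T (S \ C) C hTC]
          have : dd G C ((S \ C) \ T) = 0 := by
            apply dd_eq_zero
            intro a ha b hb
            rw [Finset.mem_sdiff, Finset.mem_sdiff] at hb
            refine h𝒞.no_edge hC a ha b ?_
            rw [Finset.mem_sdiff, hS', Finset.mem_sdiff]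
            exact ⟨⟨hb.1.1, hb.2⟩, hb.1.2⟩
          rw [this, add_zero]
        omega
      rw [hTc] at e4
      have e6 : 6 * dg G S v ≤ (dg G S v + 1) * dg G S v + 6 := by
        generalize dg G S v = d
        by_cases hd : d ≤ 2
        · interval_cases d <;> norm_num
        · push Not at hd
          nlinarith
      omega

end Pool.Agent.Hhelper53.Planar
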