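import Pool.Agent.Hhelper53.Planar.Bip
import Pool.Agent.Hhelper53.Planar.Turan

set_option autoImplicit false

namespace Pool.Agent.Hhelper53.Planar

open SimpleGraph

variable {V : Type}

lemma dg_mono_graph (G G' : SimpleGraph V) (S : Finset V) (x : V)
    (h : ∀ y ∈ S, G.Adj x y → G'.Adj x y) : dg G S x ≤ dg G' S x := by
  classical
  unfold dg
  apply Finset.card_le_card
  intro y hy
  rw [Finset.mem_filter] at hy ⊢
  exact ⟨hy.1, h y hy.1 hy.2⟩

lemma dd_mono_graph (G G' : SimpleGraph V) (A B : Finset V)
    (h : ∀ x ∈ A, ∀ y ∈ B, G.Adj x y → G'.Adj x y) : dd G A B ≤ dd G' A B := by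
  unfold dd
  exact Finset.sum_le_sum fun x hx => dg_mono_graph G G' B x (h x hx)

lemma al_anti_graph (G G' : SimpleGraph V) (S : Finset V)
    (h : ∀ x ∈ S, ∀ y ∈ S, G.Adj x y → G'.Adj x y) : al G' S ≤ al G S := by
  obtain ⟨I, hI, hind, hc⟩ := exists_al G' S
  rw [← hc]
  exact le_al G S I hI (fun a ha b hb hab => hind a ha b hb (h a (hI ha) b (hI hb) hab))

lemma Conn.mono_graph {G G' : SimpleGraph V} {S : Set V} (hS : Conn G S)
    (h : ∀ x ∈ S, ∀ y ∈ S, G.Adj x y → G'.Adj x y) : Conn G' S := by
  refine ⟨hS.1, fun P hP h1 h2 => ?_⟩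
  obtain ⟨u, hu, v, hv, huv⟩ := hS.2 P hP h1 h2
  exact ⟨u, hu, v, hv, h u (hP hu) v hv.1 huv⟩

open Classical in
lemma Comps.erase {G : SimpleGraph V} {S : Finset V} {𝒞 : Finset (Finset V)} (h : Comps G S 𝒞)
    {C : Finset V} (hC : C ∈ 𝒞) : Comps G (S \ C) (𝒞.erase C) := by
  refine ⟨fun D hD => h.1 D (Finset.mem_of_mem_erase hD),
    fun D hD D' hD' => h.2.1 D (Finset.mem_of_mem_erase hD) D' (Finset.mem_of_mem_erase hD'), ?_⟩
  ext x
  rw [Finset.mem_biUnion, Finset.mem_sdiff, ← h.2.2, Finset.mem_biUnion]
  constructor
  · rintro ⟨D, hD, hx⟩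
    rw [Finset.mem_erase] at hD
    refine ⟨⟨D, hD.2, hx⟩, fun hxC => ?_⟩
    exact Finset.disjoint_left.1 (h.2.1 D hD.2 C hC hD.1).1 hx hxC
  · rintro ⟨⟨D, hD, hx⟩, hxC⟩
    exact ⟨D, Finset.mem_erase.2 ⟨fun h1 => hxC (h1 ▸ hx), hD⟩, hx⟩

open Classical in
lemma dd_insert_self (G : SimpleGraph V) (C : Finset V) (x : V) (hx : x ∉ C) :
    dd G (insert x C) (insert x C) = dd G C C + 2 * dg G C x := by
  rw [dd_erase G (insert x C) x (Finset.mem_insert_self _ _), Finset.erase_insert hx]
  congr 2
  unfold dg
  congr 1
  ext y
  simp only [Finset.mem_filter, Finset.mem_insert]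
  constructor
  · rintro ⟨h1 | h1, h2⟩
    · exact absurd h2 (h1 ▸ G.loopless.irrefl x)
    · exact ⟨h1, h2⟩
  · rintro ⟨h1, h2⟩
    exact ⟨Or.inr h1, h2⟩

open Classical in
/-- Contribution of a component with at most two outside neighbours. -/
lemma small_comp (G : SimpleGraph V) (C H : Finset V) (hdis : Disjoint H C)
    (hC : Conn G (C : Set V))
    (hK : ¬ HasModel (⊤ : SimpleGraph (Fin 5)) G ((H ∪ C : Finset V) : Set V)) (x y : V)
    (hx : x ∈ H) (hy : y ∈ H) (hxy : x ≠ y) (hnb : ∀ z ∈ H, z ≠ x → z ≠ y → ∀ c ∈ C, ¬ G.Adj z c) :
    (¬ G.Adj x y → dd G H C ≤ 5 * al G C + 1) ∧ (G.Adj x y → dd G H C ≤ 5 * al G C) := by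
  have hxC : x ∉ C := fun h => Finset.disjoint_left.1 hdis hx h
  have hyC : y ∉ C := fun h => Finset.disjoint_left.1 hdis hy h
  have hyxC : y ∉ insert x C := by
    rw [Finset.mem_insert]
    rintro (h | h)
    · exact hxy h.symm
    · exact hyC h
  have hdd : dd G H C = dg G C x + dg G C y := by
    have h1 : dd G H C = dd G {x, y} C + dd G (H \ {x, y}) C := by
      have hsub : ({x, y} : Finset V) ⊆ H := by
        intro w hw
        simp only [Finset.mem_insert, Finset.mem_singleton] at hw
        rcases hw with rfl | rfl <;> assumption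
      rw [dd_comm, dd_split G {x, y} H C hsub, dd_comm, dd_comm G C]
    have h2 : dd G (H \ {x, y}) C = 0 := by
      apply dd_eq_zero
      intro z hz c hc
      simp only [Finset.mem_sdiff, Finset.mem_insert, Finset.mem_singleton, not_or] at hz
      exact hnb z hz.1 hz.2.1 hz.2.2 c hc
    rw [h1, h2, add_zero]
    unfold dd
    rw [Finset.sum_pair hxy]
  have hcard : (insert y (insert x C)).card = C.card + 2 := by
    rw [Finset.card_insert_of_notMem hyxC, Finset.card_insert_of_notMem hxC]
  have hCpos : 0 < C.card := Finset.card_pos.2 (Finset.coe_nonempty.1 hC.1)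
  have e1 := edge_bound (C.card + 2) G (insert y (insert x C)) hcard (by omega)
    (fun h => hK (h.mono (by
      intro w hw
      rw [Finset.mem_coe, Finset.mem_insert, Finset.mem_insert] at hw
      rw [Finset.mem_coe, Finset.mem_union]
      rcases hw with rfl | rfl | hw
      · exact Or.inl hy
      · exact Or.inl hx
      · exact Or.inr hw)))
  rw [dd_insert_self G _ y hyxC, dd_insert_self G C x hxC] at e1
  have e2 := turan_conn C.card G C rfl hC
  have e3 : dg G C y ≤ dg G (insert x C) y := dg_mono G _ _ (Finset.subset_insert _ _) y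
  have e4 : G.Adj x y → dg G (insert x C) y = dg G C y + 1 := by
    intro hadj
    unfold dg
    rw [Finset.filter_insert, if_pos hadj.symm, Finset.card_insert_of_notMem]
    rw [Finset.mem_filter]
    exact fun h => hxC h.1
  constructor
  · intro _
    omega
  · intro hadj
    have := e4 hadj
    omega

open Classical in
theorem main_ineq : ∀ (k : ℕ) (G : SimpleGraph V) (H L : Finset V) (𝒞 : Finset (Finset V)),
    Disjoint H L → Comps G L 𝒞 → 𝒞.card = k → 3 ≤ H.card →
    ¬ HasModel (⊤ : SimpleGraph (Fin 5)) G ((H ∪ L : Finset V) : Set V) →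
    ¬ HasModel K33 G ((H ∪ L : Finset V) : Set V) →
    dd G H H + dd G H L + 16 ≤ 8 * H.card + 5 * al G L := by
  intro k
  induction k with
  | zero =>
    intro G H L 𝒞 hdis hC hk hH h5 h33
    have h𝒞 : 𝒞 = ∅ := Finset.card_eq_zero.1 hk
    have hL : L = ∅ := by
      rw [← hC.2.2, h𝒞]
      simp
    subst hL
    have e1 := edge_bound H.card G H rfl hH (fun h => h5 (h.mono (by simp)))
    have e2 : dd G H ∅ = 0 := dd_eq_zero G H ∅ (by simp)
    omega
  | succ k IH =>
    intro G H L 𝒞 hdis hC hk hH h5 h33
    by_cases hsmall : ∃ C ∈ 𝒞, (H.filter (fun z => ∃ c ∈ C, G.Adj z c)).card ≤ 2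
    · obtain ⟨C, hC𝒞, hCs⟩ := hsmall
      have hCL := hC.subset hC𝒞
      have hCconn := hC.1 C hC𝒞
      have hcomps' := hC.erase hC𝒞
      have hk' : (𝒞.erase C).card = k := by
        rw [Finset.card_erase_of_mem hC𝒞, hk]
        rfl
      have hdis' : Disjoint H (L \ C) := Finset.disjoint_of_subset_right Finset.sdiff_subset hdis
      have hdisC : Disjoint H C := Finset.disjoint_of_subset_right hCL hdis
      have hal : al G (L \ C) + al G C ≤ al G L := by
        have := al_union G C (L \ C) Finset.disjoint_sdiff (hC.no_edge hC𝒞)
        rw [Finset.union_sdiff_of_subset hCL] at this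
        omega
      have hdd : dd G H L = dd G H C + dd G H (L \ C) := dd_split G C L H hCL
      have hsubS : ((H ∪ (L \ C) : Finset V) : Set V) ⊆ ((H ∪ L : Finset V) : Set V) := by
        intro w hw
        rw [Finset.mem_coe, Finset.mem_union, Finset.mem_sdiff] at hw
        rw [Finset.mem_coe, Finset.mem_union]
        rcases hw with h | h
        · exact Or.inl h
        · exact Or.inr h.1
      have hsubC : ((H ∪ C : Finset V) : Set V) ⊆ ((H ∪ L : Finset V) : Set V) := by
        intro w hw
        rw [Finset.mem_coe, Finset.mem_union] at hw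
        rw [Finset.mem_coe, Finset.mem_union]
        rcases hw with h | h
        · exact Or.inl h
        · exact Or.inr (hCL h)
      -- two vertices containing all neighbours
      obtain ⟨x, y, hx, hy, hxy, hnb, hor⟩ : ∃ x y, x ∈ H ∧ y ∈ H ∧ x ≠ y ∧
          (∀ z ∈ H, z ≠ x → z ≠ y → ∀ c ∈ C, ¬ G.Adj z c) ∧
          ((∃ c ∈ C, G.Adj x c) ∧ (∃ c ∈ C, G.Adj y c) ∨ ∀ c ∈ C, ¬ G.Adj y c) := by
        have hmem : ∀ z, z ∈ H.filter (fun z => ∃ c ∈ C, G.Adj z c) ↔
            z ∈ H ∧ ∃ c ∈ C, G.Adj z c := fun z => Finset.mem_filter
        by_cases h2 : (H.filter (fun z => ∃ c ∈ C, G.Adj z c)).card = 2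
        · obtain ⟨x, y, hxy, hset⟩ := Finset.card_eq_two.1 h2
          have hx : x ∈ H.filter (fun z => ∃ c ∈ C, G.Adj z c) := by rw [hset]; simp
          have hy : y ∈ H.filter (fun z => ∃ c ∈ C, G.Adj z c) := by rw [hset]; simp
          rw [hmem] at hx hy
          refine ⟨x, y, hx.1, hy.1, hxy, ?_, Or.inl ⟨hx.2, hy.2⟩⟩
          intro z hz hzx hzy c hc hzc
          have : z ∈ H.filter (fun z => ∃ c ∈ C, G.Adj z c) := (hmem z).2 ⟨hz, c, hc, hzc⟩
          rw [hset] at this
          simp only [Finset.mem_insert, Finset.mem_singleton] at this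
          rcases this with h | h
          · exact hzx h
          · exact hzy h
        · have h1 : (H.filter (fun z => ∃ c ∈ C, G.Adj z c)).card ≤ 1 := by omega
          rw [Finset.card_le_one] at h1
          by_cases hne : (H.filter (fun z => ∃ c ∈ C, G.Adj z c)).Nonempty
          · obtain ⟨x, hx⟩ := hne
            have hx' := (hmem x).1 hx
            obtain ⟨y, hy⟩ : (H.erase x).Nonempty := by
              rw [← Finset.card_pos, Finset.card_erase_of_mem hx'.1]
              omega
            rw [Finset.mem_erase] at hy
            refine ⟨x, y, hx'.1, hy.2, Ne.symm hy.1, ?_, Or.inr ?_⟩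
            · intro z hz hzx _ c hc hzc
              exact hzx (h1 z ((hmem z).2 ⟨hz, c, hc, hzc⟩) x hx)
            · intro c hc hyc
              exact hy.1 (h1 y ((hmem y).2 ⟨hy.2, c, hc, hyc⟩) x hx)
          · have hno : ∀ z ∈ H, ∀ c ∈ C, ¬ G.Adj z c := by
              intro z hz c hc hzc
              exact hne ⟨z, (hmem z).2 ⟨hz, c, hc, hzc⟩⟩
            obtain ⟨x, hx, y, hy, hxy⟩ := Finset.one_lt_card.1 (by omega : 1 < H.card)
            exact ⟨x, y, hx, hy, hxy, fun z hz _ _ => hno z hz, Or.inr (hno y hy)⟩
      have hsc := small_comp G C H hdisC hCconn (fun h => h5 (h.mono hsubC)) x y hx hy hxy hnb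
      by_cases hadj : G.Adj x y
      · have e1 := IH G H (L \ C) (𝒞.erase C) hdis' hcomps' hk' hH (fun h => h5 (h.mono hsubS))
          (fun h => h33 (h.mono hsubS))
        have e2 := hsc.2 hadj
        omega
      · rcases hor with ⟨⟨c1, hc1, hxc1⟩, ⟨c2, hc2, hyc2⟩⟩ | hyno
        · -- add the edge `xy`
          let G2 : SimpleGraph V :=
            { Adj := fun a b => G.Adj a b ∨ (a = x ∧ b = y) ∨ (a = y ∧ b = x)
              symm := ⟨by
                rintro a b (h | h | h)
                · exact Or.inl h.symm
                · exact Or.inr (Or.inr ⟨h.2, h.1⟩)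
                · exact Or.inr (Or.inl ⟨h.2, h.1⟩)⟩
              loopless := ⟨by
                rintro a (h | h | h)
                · exact G.loopless.irrefl a h
                · exact hxy (h.1.symm.trans h.2)
                · exact hxy (h.2.symm.trans h.1)⟩ }
          have hG2 : ∀ a b, G2.Adj a b ↔ G.Adj a b ∨ (a = x ∧ b = y) ∨ (a = y ∧ b = x) :=
            fun a b => Iff.rfl
          have hxL : x ∉ L := fun h => Finset.disjoint_left.1 hdis hx h
          have hyL : y ∉ L := fun h => Finset.disjoint_left.1 hdis hy h
          have hG2L : ∀ a, a ∈ L → ∀ b, (G2.Adj a b ↔ G.Adj a b) := by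
            intro a ha b
            rw [hG2]
            constructor
            · rintro (h | h | h)
              · exact h
              · exact absurd (h.1 ▸ ha) hxL
              · exact absurd (h.1 ▸ ha) hyL
            · exact Or.inl
          have hlift : ∀ {A : Type} (X : SimpleGraph A),
              HasModel X G2 ((H ∪ (L \ C) : Finset V) : Set V) →
              HasModel X G ((H ∪ L : Finset V) : Set V) := by
            intro A X h
            refine h.lift (C := (C : Set V)) x hsubS ?_ ?_ ?_ ?_ ?_
            · intro w hw
              exact hsubC (by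
                rw [Finset.mem_coe, Finset.mem_union]
                exact Or.inr (Finset.mem_coe.1 hw))
            · rw [Finset.mem_coe, Finset.mem_union]
              exact Or.inl hx
            · rw [Set.disjoint_left]
              intro w hw hw'
              rw [Finset.mem_coe, Finset.mem_union, Finset.mem_sdiff] at hw'
              rcases hw' with h1 | h1
              · exact Finset.disjoint_left.1 hdisC h1 (Finset.mem_coe.1 hw)
              · exact h1.2 (Finset.mem_coe.1 hw)
            · exact conn_insert G _ c1 x (Finset.mem_coe.2 hc1) hxc1.symm hCconn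
            · intro a _ b _ hab
              rcases (hG2 a b).1 hab with h1 | h1 | h1
              · exact Or.inl h1
              · refine Or.inr (Or.inl ⟨h1.1, c2, Finset.mem_coe.2 hc2, ?_⟩)
                rw [h1.2]
                exact hyc2.symm
              · refine Or.inr (Or.inr ⟨h1.2, c2, Finset.mem_coe.2 hc2, ?_⟩)
                rw [h1.1]
                exact hyc2.symm
          have hcomps2 : Comps G2 (L \ C) (𝒞.erase C) := by
            refine ⟨fun D hD => (hcomps'.1 D hD).mono_graph (fun a _ b _ hab => Or.inl hab),
              fun D hD D' hD' hne => ⟨(hcomps'.2.1 D hD D' hD' hne).1, ?_⟩, hcomps'.2.2⟩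
            intro a ha b hb hab
            have haL : a ∈ L := (Finset.mem_sdiff.1 (hcomps'.subset hD ha)).1
            exact (hcomps'.2.1 D hD D' hD' hne).2 a ha b hb ((hG2L a haL b).1 hab)
          have e1 := IH G2 H (L \ C) (𝒞.erase C) hdis' hcomps2 hk' hH
            (fun h => h5 (hlift _ h)) (fun h => h33 (hlift _ h))
          have e2 := hsc.1 hadj
          have e3 : al G2 (L \ C) ≤ al G (L \ C) :=
            al_anti_graph G G2 _ (fun a _ b _ hab => Or.inl hab)
          have e4 : dd G H (L \ C) ≤ dd G2 H (L \ C) :=
            dd_mono_graph G G2 _ _ (fun a _ b _ hab => Or.inl hab)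
          have e5 : dd G H H + 2 ≤ dd G2 H H := by
            have hd := dd_delete G2 H x y hx hy (Or.inr (Or.inl ⟨rfl, rfl⟩))
            have hd2 : dd G H H ≤ dd (G2.deleteEdges {s(x, y)}) H H := by
              apply dd_mono_graph
              intro a _ b _ hab
              rw [deleteEdges_adj, Set.mem_singleton_iff]
              refine ⟨Or.inl hab, fun h => ?_⟩
              rcases Sym2.eq_iff.1 h with ⟨h1, h2⟩ | ⟨h1, h2⟩
              · exact hadj (h1 ▸ h2 ▸ hab)
              · exact hadj (h1 ▸ h2 ▸ hab.symm)
            omega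
          omega
        · -- `y` is not adjacent to `C`
          have e1 := IH G H (L \ C) (𝒞.erase C) hdis' hcomps' hk' hH (fun h => h5 (h.mono hsubS))
            (fun h => h33 (h.mono hsubS))
          have e2 : dd G H C ≤ 5 * al G C := by
            have hxC : x ∉ C := fun h => Finset.disjoint_left.1 hdisC hx h
            have hddx : dd G H C = dg G C x := by
              have h1 : dd G H C = dd G {x} C + dd G (H \ {x}) C := by
                rw [dd_comm, dd_split G {x} H C (Finset.singleton_subset_iff.2 hx), dd_comm,
                  dd_comm G C]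
              have h2 : dd G (H \ {x}) C = 0 := by
                apply dd_eq_zero
                intro z hz c hc
                simp only [Finset.mem_sdiff, Finset.mem_singleton] at hz
                by_cases hzy : z = y
                · exact hzy ▸ hyno c hc
                · exact hnb z hz.1 hz.2 hzy c hc
              rw [h1, h2, add_zero]
              unfold dd
              rw [Finset.sum_singleton]
            have hCne : C.Nonempty := Finset.coe_nonempty.1 hCconn.1
            have hal1 : 1 ≤ al G C := by
              obtain ⟨c, hc⟩ := hCne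
              have := le_al G C {c} (Finset.singleton_subset_iff.2 hc) (by
                intro a ha b hb
                rw [Finset.mem_singleton.1 ha, Finset.mem_singleton.1 hb]
                exact G.loopless.irrefl c)
              simpa using this
            by_cases hC1 : C.card ≤ 1
            · have h1 : dg G C x ≤ C.card := by
                unfold dg
                exact Finset.card_filter_le _ _
              omega
            · have hcard : (insert x C).card = C.card + 1 := Finset.card_insert_of_notMem hxC
              have e3 := edge_bound (C.card + 1) G (insert x C) hcard (by omega)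
                (fun h => h5 (h.mono (by
                  intro w hw
                  rw [Finset.mem_coe, Finset.mem_insert] at hw
                  rw [Finset.mem_coe, Finset.mem_union]
                  rcases hw with rfl | hw
                  · exact Or.inl hx
                  · exact Or.inr (hCL hw))))
              rw [dd_insert_self G C x hxC] at e3
              have e4 := turan_conn C.card G C rfl hCconn
              omega
          omega
    · push Not at hsmall
      -- all components have at least three neighbours
      have hL1 : ∀ w, w ∈ L → ∃ C ∈ 𝒞, w ∈ C := by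
        intro w hw
        rw [← hC.2.2, Finset.mem_biUnion] at hw
        exact hw
      have hVne : Nonempty V := by
        obtain ⟨x, _⟩ := Finset.card_pos.1 (by omega : 0 < H.card)
        exact ⟨x⟩
      choose! cp hcp1 hcp2 using hL1
      have hrep : ∀ C ∈ 𝒞, ∃ w, w ∈ C := fun C hC' => (Finset.coe_nonempty.1 (hC.1 C hC').1)
      choose! r hr using hrep
      have hτ : ∀ C ∈ 𝒞, ∃ T ⊆ H.filter (fun z => ∃ c ∈ C, G.Adj z c), T.card = 3 := by
        intro C hC'
        exact Finset.exists_subset_card_eq (hsmall C hC')
      choose! τ hτ1 hτ2 using hτ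
      have hcpr : ∀ C ∈ 𝒞, cp (r C) = C := by
        intro C hC'
        have hrL : r C ∈ L := hC.subset hC' (hr C hC')
        by_contra hne
        exact Finset.disjoint_left.1 (hC.2.1 _ (hcp1 _ hrL) C hC' hne).1 (hcp2 _ hrL) (hr C hC')
      set U := 𝒞.image r with hU
      have hUL : U ⊆ L := by
        intro w hw
        obtain ⟨C, hC', rfl⟩ := Finset.mem_image.1 hw
        exact hC.subset hC' (hr C hC')
      have hUcard : U.card = 𝒞.card := by
        rw [hU]
        apply Finset.card_image_of_injOn
        intro C hC' D hD heq
        have h1 := hcpr C (Finset.mem_coe.1 hC')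
        have h2 := hcpr D (Finset.mem_coe.1 hD)
        have heq' : r C = r D := heq
        rw [heq', h2] at h1
        exact h1.symm
      have hdisU : Disjoint H U := Finset.disjoint_of_subset_right hUL hdis
      obtain ⟨K, hKadj⟩ : ∃ K : SimpleGraph V, ∀ a b, K.Adj a b ↔
          (a ∈ U ∧ b ∈ H ∧ b ∈ τ (cp a)) ∨ (b ∈ U ∧ a ∈ H ∧ a ∈ τ (cp b)) :=
        ⟨{ Adj := fun a b => (a ∈ U ∧ b ∈ H ∧ b ∈ τ (cp a)) ∨ (b ∈ U ∧ a ∈ H ∧ a ∈ τ (cp b))
           symm := ⟨by
            rintro a b (h | h)
            · exact Or.inr h
            · exact Or.inl h⟩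
           loopless := ⟨by
            rintro a (h | h)
            · exact Finset.disjoint_left.1 hdisU h.2.1 h.1
            · exact Finset.disjoint_left.1 hdisU h.2.1 h.1⟩ }, fun _ _ => Iff.rfl⟩
      have hUcp : ∀ u ∈ U, cp u ∈ 𝒞 ∧ u ∈ cp u := fun u hu => ⟨hcp1 u (hUL hu), hcp2 u (hUL hu)⟩
      have e1 := bip_bound H.card K H U rfl hH hdisU (by
        intro u hu
        have h1 : dg K H u = (τ (cp u)).card := by
          unfold dg
          congr 1
          ext w
          rw [Finset.mem_filter]
          constructor
          · rintro ⟨hw, h⟩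
            rcases (hKadj u w).1 h with h | h
            · exact h.2.2
            · exact absurd h.1 (fun h' => Finset.disjoint_left.1 hdisU hw h')
          · intro hw
            have hwH : w ∈ H := (Finset.mem_filter.1 (hτ1 _ (hUcp u hu).1 hw)).1
            exact ⟨hwH, (hKadj u w).2 (Or.inl ⟨hu, hwH, hw⟩)⟩
        rw [h1]
        exact hτ2 _ (hUcp u hu).1) (by
        intro u hu u' hu' h0
        rcases (hKadj u u').1 h0 with h | h
        · exact Finset.disjoint_left.1 hdisU h.2.1 hu'
        · exact Finset.disjoint_left.1 hdisU h.2.1 hu) (by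
        intro h
        apply h33
        refine h.trans (fun w => if w ∈ H then {w} else (cp w : Set V)) ?_ ?_ ?_ ?_
        · intro w hw
          by_cases hwH : w ∈ H
          · simp only [hwH, if_true]
            exact conn_singleton G w
          · simp only [hwH, if_false]
            have hwU : w ∈ U := by
              rw [Finset.mem_coe, Finset.mem_union] at hw
              exact hw.resolve_left hwH
            exact hC.1 _ (hUcp w hwU).1
        · intro w hw x hx
          rw [Finset.mem_coe, Finset.mem_union]
          by_cases hwH : w ∈ H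
          · simp only [hwH, if_true] at hx
            rw [Set.mem_singleton_iff.1 hx]
            exact Or.inl hwH
          · simp only [hwH, if_false] at hx
            have hwU : w ∈ U := by
              rw [Finset.mem_coe, Finset.mem_union] at hw
              exact hw.resolve_left hwH
            exact Or.inr (hC.subset (hUcp w hwU).1 (Finset.mem_coe.1 hx))
        · intro a ha b hb hab
          have haU : a ∉ H → a ∈ U := fun h' => by
            rw [Finset.mem_coe, Finset.mem_union] at ha
            exact ha.resolve_left h'
          have hbU : b ∉ H → b ∈ U := fun h' => by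
            rw [Finset.mem_coe, Finset.mem_union] at hb
            exact hb.resolve_left h'
          rw [Set.disjoint_left]
          intro x hx hx'
          by_cases haH : a ∈ H <;> by_cases hbH : b ∈ H
          · simp only [haH, hbH, if_true] at hx hx'
            exact hab ((Set.mem_singleton_iff.1 hx).symm.trans (Set.mem_singleton_iff.1 hx'))
          · simp only [haH, hbH, if_true, if_false] at hx hx'
            rw [Set.mem_singleton_iff.1 hx] at hx'
            exact Finset.disjoint_left.1 hdis haH
              (hC.subset (hUcp b (hbU hbH)).1 (Finset.mem_coe.1 hx'))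
          · simp only [haH, hbH, if_true, if_false] at hx hx'
            rw [Set.mem_singleton_iff.1 hx'] at hx
            exact Finset.disjoint_left.1 hdis hbH
              (hC.subset (hUcp a (haU haH)).1 (Finset.mem_coe.1 hx))
          · simp only [haH, hbH, if_false] at hx hx'
            have hne : cp a ≠ cp b := by
              intro heq
              obtain ⟨C, hC', rfl⟩ := Finset.mem_image.1 (haU haH)
              obtain ⟨D, hD, rfl⟩ := Finset.mem_image.1 (hbU hbH)
              rw [hcpr C hC', hcpr D hD] at heq
              exact hab (by rw [heq])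
            exact Finset.disjoint_left.1
              (hC.2.1 _ (hUcp a (haU haH)).1 _ (hUcp b (hbU hbH)).1 hne).1
              (Finset.mem_coe.1 hx) (Finset.mem_coe.1 hx')
        · have key : ∀ a b, a ∈ U → b ∈ H → b ∈ τ (cp a) →
              ∃ u ∈ (if a ∈ H then {a} else (cp a : Set V) : Set V),
                ∃ v ∈ (if b ∈ H then {b} else (cp b : Set V) : Set V), G.Adj u v := by
            intro a b haU hbH hbτ
            have haH : a ∉ H := fun h' => Finset.disjoint_left.1 hdisU h' haU
            obtain ⟨_, c, hc, hbc⟩ := Finset.mem_filter.1 (hτ1 _ (hUcp a haU).1 hbτ)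
            refine ⟨c, ?_, b, ?_, hbc.symm⟩
            · simp only [haH, if_false]
              exact Finset.mem_coe.2 hc
            · simp only [hbH, if_true]
              exact Set.mem_singleton _
          intro a _ b _ h0
          rcases (hKadj a b).1 h0 with h | h
          · exact key a b h.1 h.2.1 h.2.2
          · obtain ⟨u, hu, v, hv, huv⟩ := key b a h.1 h.2.1 h.2.2
            exact ⟨v, hv, u, hu, huv.symm⟩)
      have e2 : 6 * L.card ≤ dd G L L + 10 * al G L + 2 * 𝒞.card :=
        comps_sum hC (fun C hC' => turan_conn C.card G C rfl (hC.1 C hC'))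
      have hunc : (H ∪ L).card = H.card + L.card := Finset.card_union_of_disjoint hdis
      have e3 := edge_bound (H ∪ L).card G (H ∪ L) rfl (by omega) h5
      have e4 := edge_bound H.card G H rfl hH (fun h => h5 (h.mono (by
        intro w hw
        rw [Finset.mem_coe, Finset.mem_union]
        exact Or.inl hw)))
      rw [dd_union_left G _ _ _ hdis, dd_union_right G _ _ _ hdis, dd_union_right G _ _ _ hdis,
        dd_comm G L H, hunc] at e3
      rw [hUcard] at e1
      omega

end Pool.Agent.Hhelper53.Planar
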