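import Mathlib

set_option autoImplicit false

namespace Pool.Agent.Hhelper53.Planar

open SimpleGraph

/-- Cut connectivity of a set of vertices. -/
def Conn {V : Type} (G : SimpleGraph V) (S : Set V) : Prop :=
  S.Nonempty ∧ ∀ P : Set V, P ⊆ S → P.Nonempty → (S \ P).Nonempty →
    ∃ u ∈ P, ∃ v ∈ S \ P, G.Adj u v

lemma conn_of_connected {V : Type} (G : SimpleGraph V) (S : Set V)
    (h : (G.induce S).Connected) : Conn G S := by
  refine ⟨?_, ?_⟩
  · obtain ⟨x⟩ := h.nonempty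
    exact ⟨x.1, x.2⟩
  · intro P hP ⟨p, hp⟩ ⟨q, hq⟩
    obtain ⟨w⟩ := h.preconnected ⟨p, hP hp⟩ ⟨q, hq.1⟩
    obtain ⟨d, hd, h1, h2⟩ := w.exists_boundary_dart {x : S | (x : V) ∈ P} hp hq.2
    exact ⟨d.fst, h1, d.snd, ⟨d.snd.2, h2⟩, d.adj⟩

lemma connected_of_conn {V : Type} (G : SimpleGraph V) (S : Set V)
    (h : Conn G S) : (G.induce S).Connected := by
  obtain ⟨⟨s, hs⟩, hcut⟩ := h
  have : Nonempty S := ⟨⟨s, hs⟩⟩
  refine ⟨fun x y => ?_⟩
  by_contra hxy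
  obtain ⟨u, hu, v, hv, huv⟩ := hcut {z | ∃ hz : z ∈ S, (G.induce S).Reachable x ⟨z, hz⟩}
    (fun z hz => hz.1) ⟨x, x.2, Reachable.refl _⟩ ⟨y, y.2, fun hy => hxy hy.2⟩
  obtain ⟨hu1, hu2⟩ := hu
  refine hv.2 ⟨hv.1, hu2.trans ?_⟩
  exact SimpleGraph.Adj.reachable (show (G.induce S).Adj ⟨u, hu1⟩ ⟨v, hv.1⟩ from huv)

lemma conn_iff {V : Type} (G : SimpleGraph V) (S : Set V) :
    (G.induce S).Connected ↔ Conn G S :=
  ⟨conn_of_connected G S, connected_of_conn G S⟩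

lemma conn_singleton {V : Type} (G : SimpleGraph V) (v : V) : Conn G {v} := by
  refine ⟨⟨v, rfl⟩, ?_⟩
  intro P hP ⟨p, hp⟩ ⟨q, hq⟩
  have h1 : p = v := hP hp
  have h2 : q = v := hq.1
  exact absurd (h2.trans h1.symm ▸ hp) hq.2

lemma conn_insert {V : Type} (G : SimpleGraph V) (S : Set V) (u v : V) (hu : u ∈ S)
    (huv : G.Adj u v) (h : Conn G S) : Conn G (insert v S) := by
  by_cases hvS : v ∈ S
  · rwa [Set.insert_eq_of_mem hvS]
  refine ⟨⟨v, Set.mem_insert _ _⟩, ?_⟩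
  intro P hP ⟨p, hp⟩ ⟨q, hq⟩
  by_cases hv : v ∈ P
  · by_cases hu' : u ∈ P
    · -- q in S \ P
      have hqS : q ∈ S := by
        rcases hq.1 with h1 | h1
        · exact absurd (h1 ▸ hv) hq.2
        · exact h1
      obtain ⟨a, ha, b, hb, hab⟩ := h.2 (P ∩ S) Set.inter_subset_right ⟨u, hu', hu⟩
        ⟨q, hqS, fun h1 => hq.2 h1.1⟩
      exact ⟨a, ha.1, b, ⟨Set.mem_insert_of_mem _ hb.1, fun h1 => hb.2 ⟨h1, hb.1⟩⟩, hab⟩
    · exact ⟨v, hv, u, ⟨Set.mem_insert_of_mem _ hu, hu'⟩, huv.symm⟩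
  · have hPS : P ⊆ S := fun x hx => by
      rcases hP hx with h1 | h1
      · exact absurd (h1 ▸ hx) hv
      · exact h1
    by_cases hu' : u ∈ P
    · exact ⟨u, hu', v, ⟨Set.mem_insert _ _, hv⟩, huv⟩
    · obtain ⟨a, ha, b, hb, hab⟩ := h.2 P hPS ⟨p, hp⟩ ⟨u, hu, hu'⟩
      exact ⟨a, ha, b, ⟨Set.mem_insert_of_mem _ hb.1, hb.2⟩, hab⟩

lemma conn_pair {V : Type} (G : SimpleGraph V) (u v : V) (huv : G.Adj u v) : Conn G {v, u} :=
  conn_insert G {u} u v rfl huv (conn_singleton G u)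

lemma conn_erase_simplicial {V : Type} (G : SimpleGraph V) (S : Set V) (c : V) (hc : c ∈ S)
    (hne : (S \ {c}).Nonempty)
    (hcl : ∀ p ∈ S, ∀ q ∈ S, G.Adj c p → G.Adj c q → p ≠ q → G.Adj p q) (h : Conn G S) :
    Conn G (S \ {c}) := by
  refine ⟨hne, ?_⟩
  intro P hP hPne hQne
  by_contra hno
  push Not at hno
  obtain ⟨a, ha, b, hb, hab⟩ := h.2 P (fun x hx => (hP hx).1) hPne
    ⟨c, hc, fun h1 => (hP h1).2 rfl⟩
  have hbc : b = c := by
    by_contra hbc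
    exact hno a ha b ⟨⟨hb.1, hbc⟩, hb.2⟩ hab
  subst hbc
  obtain ⟨a', ha', b', hb', hab'⟩ := h.2 ((S \ {b}) \ P) (fun x hx => hx.1.1) hQne
    ⟨b, hc, fun h1 => h1.1.2 rfl⟩
  have hb'' : b' = b ∨ b' ∈ P := by
    by_contra hcon
    push Not at hcon
    exact hb'.2 ⟨⟨hb'.1, hcon.1⟩, hcon.2⟩
  rcases hb'' with h1 | h1
  · subst h1
    have hne' : a ≠ a' := fun h2 => ha'.2 (h2 ▸ ha)
    exact hno a ha a' ha' (hcl a (hP ha).1 a' ha'.1.1 hab.symm hab'.symm hne')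
  · exact hno b' h1 a' ha' hab'.symm

/-- Union of connected sets along a connected set of a quotient-like graph. -/
lemma conn_biUnion {V W : Type} (G : SimpleGraph V) (K : SimpleGraph W) (R : W → Set V)
    (T : Set W) (hT : Conn K T) (hR : ∀ w ∈ T, Conn G (R w))
    (hadj : ∀ a ∈ T, ∀ b ∈ T, K.Adj a b → ∃ u ∈ R a, ∃ v ∈ R b, G.Adj u v) :
    Conn G (⋃ w ∈ T, R w) := by
  refine ⟨?_, ?_⟩
  · obtain ⟨w, hw⟩ := hT.1
    obtain ⟨x, hx⟩ := (hR w hw).1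
    exact ⟨x, Set.mem_biUnion hw hx⟩
  · intro P hP ⟨p, hp⟩ ⟨q, hq⟩
    by_cases hsplit : ∃ w ∈ T, (P ∩ R w).Nonempty ∧ (R w \ P).Nonempty
    · obtain ⟨w, hw, ⟨a, ha⟩, ⟨b, hb⟩⟩ := hsplit
      obtain ⟨u, hu, v, hv, huv⟩ := (hR w hw).2 (P ∩ R w) Set.inter_subset_right ⟨a, ha⟩
        ⟨b, hb.1, fun h1 => hb.2 h1.1⟩
      exact ⟨u, hu.1, v, ⟨Set.mem_biUnion hw hv.1, fun h1 => hv.2 ⟨h1, hv.1⟩⟩, huv⟩
    · push Not at hsplit
      have hall : ∀ w ∈ T, (P ∩ R w).Nonempty → R w ⊆ P := by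
        intro w hw h1 x hx
        by_contra hxP
        have := hsplit w hw h1
        exact (this ▸ (⟨hx, hxP⟩ : x ∈ R w \ P) : x ∈ (∅ : Set V))
      obtain ⟨wp, hwp, hpw⟩ := Set.mem_iUnion₂.1 (hP hp)
      obtain ⟨wq, hwq, hqw⟩ := Set.mem_iUnion₂.1 hq.1
      obtain ⟨a, ha, b, hb, hab⟩ := hT.2 {w | w ∈ T ∧ R w ⊆ P} (fun w hw => hw.1)
        ⟨wp, hwp, hall wp hwp ⟨p, hp, hpw⟩⟩ ⟨wq, hwq, fun h1 => hq.2 (h1.2 hqw)⟩
      obtain ⟨u, hu, v, hv, huv⟩ := hadj a ha.1 b hb.1 hab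
      refine ⟨u, ha.2 hu, v, ⟨Set.mem_biUnion hb.1 hv, fun h1 => hb.2 ⟨hb.1, ?_⟩⟩, huv⟩
      exact hall b hb.1 ⟨v, h1, hv⟩

/-- `B` is a model of `X` in `G` inside the vertex set `S`. -/
def Model {A V : Type} (X : SimpleGraph A) (G : SimpleGraph V) (S : Set V) (B : A → Set V) :
    Prop :=
  (∀ a, Conn G (B a)) ∧ (∀ a, B a ⊆ S) ∧ (∀ a b, a ≠ b → Disjoint (B a) (B b)) ∧
    ∀ a b, X.Adj a b → ∃ u ∈ B a, ∃ v ∈ B b, G.Adj u v

/-- `X` has a model in `G` inside `S`. -/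
def HasModel {A V : Type} (X : SimpleGraph A) (G : SimpleGraph V) (S : Set V) : Prop :=
  ∃ B : A → Set V, Model X G S B

/-- Transitivity of the minor relation. -/
lemma HasModel.trans {A V W : Type} {X : SimpleGraph A} {G : SimpleGraph V} {K : SimpleGraph W}
    {T : Set W} {S : Set V} (h : HasModel X K T) (R : W → Set V)
    (hR : ∀ w ∈ T, Conn G (R w)) (hRS : ∀ w ∈ T, R w ⊆ S)
    (hdis : ∀ a ∈ T, ∀ b ∈ T, a ≠ b → Disjoint (R a) (R b))
    (hadj : ∀ a ∈ T, ∀ b ∈ T, K.Adj a b → ∃ u ∈ R a, ∃ v ∈ R b, G.Adj u v) :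
    HasModel X G S := by
  obtain ⟨B, hB1, hB2, hB3, hB4⟩ := h
  refine ⟨fun a => ⋃ w ∈ B a, R w, ?_, ?_, ?_, ?_⟩
  · intro a
    exact conn_biUnion G K R (B a) (hB1 a) (fun w hw => hR w (hB2 a hw))
      (fun x hx y hy hxy => hadj x (hB2 a hx) y (hB2 a hy) hxy)
  · intro a x hx
    obtain ⟨w, hw, hxw⟩ := Set.mem_iUnion₂.1 hx
    exact hRS w (hB2 a hw) hxw
  · intro a b hab
    rw [Set.disjoint_left]
    intro x hx hx'
    obtain ⟨w, hw, hxw⟩ := Set.mem_iUnion₂.1 hx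
    obtain ⟨w', hw', hxw'⟩ := Set.mem_iUnion₂.1 hx'
    have hne : w ≠ w' := fun h1 => Set.disjoint_left.1 (hB3 a b hab) hw (h1 ▸ hw')
    exact Set.disjoint_left.1 (hdis w (hB2 a hw) w' (hB2 b hw') hne) hxw hxw'
  · intro a b hab
    obtain ⟨w, hw, w', hw', hww⟩ := hB4 a b hab
    obtain ⟨u, hu, v, hv, huv⟩ := hadj w (hB2 a hw) w' (hB2 b hw') hww
    exact ⟨u, Set.mem_biUnion hw hu, v, Set.mem_biUnion hw' hv, huv⟩

lemma HasModel.mono {A V : Type} {X : SimpleGraph A} {G : SimpleGraph V} {S T : Set V}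
    (h : HasModel X G S) (hST : S ⊆ T) : HasModel X G T := by
  obtain ⟨B, h1, h2, h3, h4⟩ := h
  exact ⟨B, h1, fun a => (h2 a).trans hST, h3, h4⟩

/-- Monotonicity in the graph. -/
lemma HasModel.mono_graph {A V : Type} {X : SimpleGraph A} {G G' : SimpleGraph V} {S : Set V}
    (h : HasModel X G S) (hG : ∀ a ∈ S, ∀ b ∈ S, G.Adj a b → G'.Adj a b) : HasModel X G' S := by
  refine h.trans (fun v => {v}) (fun w _ => conn_singleton G' w) ?_ ?_ ?_
  · intro w hw x hx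
    exact (Set.mem_singleton_iff.1 hx) ▸ hw
  · intro a _ b _ hab
    exact Set.disjoint_singleton.2 hab
  · intro a ha b hb hab
    exact ⟨a, rfl, b, rfl, hG a ha b hb hab⟩

/-- Contracting a connected set `C ∪ {x}` onto `x`. -/
lemma HasModel.lift {A V : Type} {X : SimpleGraph A} {G G' : SimpleGraph V} {T S C : Set V}
    (x : V) (h : HasModel X G' T) (hTS : T ⊆ S) (hCS : C ⊆ S) (hxT : x ∈ T)
    (hCT : Disjoint C T) (hconn : Conn G (insert x C))
    (hadj : ∀ a ∈ T, ∀ b ∈ T, G'.Adj a b → G.Adj a b ∨ (a = x ∧ ∃ c ∈ C, G.Adj c b) ∨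
      (b = x ∧ ∃ c ∈ C, G.Adj c a)) : HasModel X G S := by
  classical
  refine h.trans (fun v => if v = x then insert x C else {v}) ?_ ?_ ?_ ?_
  · intro w _
    by_cases hw : w = x
    · simp only [hw, if_true]
      exact hconn
    · simp only [hw, if_false]
      exact conn_singleton G w
  · intro w hw y hy
    by_cases hwx : w = x
    · simp only [hwx, if_true] at hy
      rcases hy with h1 | h1
      · exact h1 ▸ hTS hxT
      · exact hCS h1
    · simp only [hwx, if_false] at hy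
      exact (Set.mem_singleton_iff.1 hy) ▸ hTS hw
  · intro a ha b hb hab
    rw [Set.disjoint_left]
    intro y hya hyb
    by_cases hax : a = x
    · simp only [hax, if_true] at hya
      have hbx : b ≠ x := fun h1 => hab (hax.trans h1.symm)
      simp only [hbx, if_false] at hyb
      rcases hya with h1 | h1
      · exact hbx ((Set.mem_singleton_iff.1 hyb).symm.trans h1)
      · exact Set.disjoint_left.1 hCT h1 ((Set.mem_singleton_iff.1 hyb) ▸ hb)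
    · simp only [hax, if_false] at hya
      by_cases hbx : b = x
      · simp only [hbx, if_true] at hyb
        rcases hyb with h1 | h1
        · exact hax ((Set.mem_singleton_iff.1 hya).symm.trans h1)
        · exact Set.disjoint_left.1 hCT h1 ((Set.mem_singleton_iff.1 hya) ▸ ha)
      · simp only [hbx, if_false] at hyb
        exact hab ((Set.mem_singleton_iff.1 hya).symm.trans (Set.mem_singleton_iff.1 hyb))
  · have hmem : ∀ a : V, a ∈ (if a = x then insert x C else {a} : Set V) := by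
      intro a
      by_cases hax : a = x
      · simp [hax]
      · simp [hax]
    intro a ha b hb hab
    rcases hadj a ha b hb hab with h1 | ⟨h1, c, hc, h2⟩ | ⟨h1, c, hc, h2⟩
    · exact ⟨a, hmem a, b, hmem b, h1⟩
    · refine ⟨c, ?_, b, hmem b, h2⟩
      simp only [h1, if_true]
      exact Set.mem_insert_of_mem _ hc
    · refine ⟨a, hmem a, c, ?_, h2.symm⟩
      simp only [h1, if_true]
      exact Set.mem_insert_of_mem _ hc

end Pool.Agent.Hhelper53.Planar
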