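import Pool.Agent.Hhelper53.Planar.Bip

set_option autoImplicit false

namespace Pool.Agent.Hhelper53.Planar

open SimpleGraph

variable {V : Type}

/-- A neighbour inside a connected set with at least two elements. -/
lemma Conn.exists_adj {G : SimpleGraph V} {S : Set V} (h : Conn G S) {c : V} (hc : c ∈ S)
    (hne : S ≠ {c}) : ∃ u ∈ S, u ≠ c ∧ G.Adj c u := by
  obtain ⟨a, ha, b, hb, hab⟩ := h.2 {c} (Set.singleton_subset_iff.2 hc) ⟨c, rfl⟩ (by
    by_contra hcon
    rw [Set.not_nonempty_iff_eq_empty, Set.sdiff_eq_empty] at hcon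
    exact hne (Set.Subset.antisymm hcon (Set.singleton_subset_iff.2 hc)))
  rw [Set.mem_singleton_iff] at ha
  subst ha
  exact ⟨b, hb.1, hb.2, hab⟩

/-- Removing a simplicial vertex from a branch set with at least two elements. -/
lemma Model.erase_simplicial {A : Type} [DecidableEq A] {X : SimpleGraph A} {G : SimpleGraph V}
    {S : Set V} {B : A → Set V} (h : Model X G S B) (a : A) (c : V) (hc : c ∈ B a)
    (hne : B a ≠ {c})
    (hcl : ∀ p ∈ S, ∀ q ∈ S, G.Adj c p → G.Adj c q → p ≠ q → G.Adj p q) :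
    Model X G S (Function.update B a (B a \ {c})) := by
  obtain ⟨h1, h2, h3, h4⟩ := h
  obtain ⟨w, hwB, hwc, hcw⟩ := (h1 a).exists_adj hc hne
  have hsub : ∀ b, Function.update B a (B a \ {c}) b ⊆ B b := by
    intro b
    by_cases hb : b = a
    · subst hb
      rw [Function.update_self]
      exact Set.sdiff_subset
    · rw [Function.update_of_ne hb]
  refine ⟨?_, fun b => (hsub b).trans (h2 b), ?_, ?_⟩
  · intro b
    by_cases hb : b = a
    · subst hb
      rw [Function.update_self]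
      exact conn_erase_simplicial G (B b) c hc ⟨w, hwB, hwc⟩
        (fun p hp q hq => hcl p (h2 b hp) q (h2 b hq)) (h1 b)
    · rw [Function.update_of_ne hb]
      exact h1 b
  · intro b b' hbb
    exact Set.disjoint_of_subset (hsub b) (hsub b') (h3 b b' hbb)
  · -- adjacency
    have key : ∀ b, b ≠ a → X.Adj a b → ∃ u ∈ B a \ {c}, ∃ v ∈ B b, G.Adj u v := by
      intro b hba hab
      obtain ⟨u, hu, v, hv, huv⟩ := h4 a b hab
      by_cases huc : u = c
      · subst huc
        have hwv : w ≠ v := fun h => Set.disjoint_left.1 (h3 a b (Ne.symm hba)) hwB (h ▸ hv)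
        exact ⟨w, ⟨hwB, hwc⟩, v, hv, hcl w (h2 a hwB) v (h2 b hv) hcw huv hwv⟩
      · exact ⟨u, ⟨hu, huc⟩, v, hv, huv⟩
    intro b b' hbb
    by_cases hb : b = a
    · have hb' : b' ≠ a := fun h => hbb.ne (hb.trans h.symm)
      subst hb
      rw [Function.update_self, Function.update_of_ne hb']
      exact key b' hb' hbb
    · by_cases hb' : b' = a
      · subst hb'
        rw [Function.update_self, Function.update_of_ne hb]
        obtain ⟨u, hu, v, hv, huv⟩ := key b hb hbb.symm
        exact ⟨v, hv, u, hu, huv.symm⟩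
      · rw [Function.update_of_ne hb, Function.update_of_ne hb']
        exact h4 b b' hbb

lemma Model.of_disjoint {A : Type} {X : SimpleGraph A} {G : SimpleGraph V}
    {S T : Set V} {B : A → Set V} (h : Model X G S B) (hT : ∀ a, B a ⊆ T) : Model X G T B :=
  ⟨h.1, hT, h.2.2.1, h.2.2.2⟩

lemma HasModel.card_le {A : Type} [Fintype A] {X : SimpleGraph A} {G : SimpleGraph V}
    {S : Finset V} (h : HasModel X G (S : Set V)) : Fintype.card A ≤ S.card := by
  obtain ⟨B, h1, h2, h3, _⟩ := h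
  have hne : ∀ a, ∃ v, v ∈ B a := fun a => (h1 a).1
  choose f hf using hne
  rw [← Finset.card_univ]
  refine Finset.card_le_card_of_injOn f (fun a _ => h2 a (hf a)) ?_
  intro a _ b _ hab
  by_contra hne
  exact Set.disjoint_left.1 (h3 a b hne) (hf a) (hab ▸ hf b)

/-- Swapping the two sides of a model of `K_{3,3}`. -/
lemma Model.swap {G : SimpleGraph V} {S : Set V} {B : Fin 3 ⊕ Fin 3 → Set V}
    (h : Model K33 G S B) : Model K33 G S (B ∘ Sum.swap) := by
  refine ⟨fun a => h.1 _, fun a => h.2.1 _, fun a b hab => h.2.2.1 _ _ ?_, ?_⟩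
  · intro h'
    exact hab (Sum.swap_leftInverse.injective h')
  · rintro (a | a) (b | b) hab
    · simp at hab
    · exact h.2.2.2 (Sum.inr a) (Sum.inl b) (by simp)
    · exact h.2.2.2 (Sum.inl a) (Sum.inr b) (by simp)
    · simp at hab

open Classical in
/-- The elements of `K` used by the model. -/
noncomputable def used (K : Finset V) (B : Fin 3 ⊕ Fin 3 → Set V) : Finset V :=
  K.filter (fun c => ∃ a, c ∈ B a)

lemma mem_used (K : Finset V) (B : Fin 3 ⊕ Fin 3 → Set V) (c : V) :
    c ∈ used K B ↔ c ∈ K ∧ ∃ a, c ∈ B a := by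
  classical
  unfold used
  rw [Finset.mem_filter]

lemma used_swap (K : Finset V) (B : Fin 3 ⊕ Fin 3 → Set V) :
    used K (B ∘ Sum.swap) = used K B := by
  ext c
  rw [mem_used, mem_used]
  constructor
  · rintro ⟨h1, a, ha⟩
    exact ⟨h1, a.swap, ha⟩
  · rintro ⟨h1, a, ha⟩
    exact ⟨h1, a.swap, by simpa using ha⟩

/-- Local configuration: `k` with parent triangle `Q` and children `K`. -/
structure Local (G : SimpleGraph V) (S : Set V) (K Q : Finset V) (k : V) (R : V → Finset V) :
    Prop where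
  hkK : k ∉ K
  hQK : ∀ q ∈ Q, q ∉ K
  hkS : k ∈ S
  hQS : ∀ q ∈ Q, q ∈ S
  hKS : ∀ c ∈ K, c ∈ S
  hQ3 : Q.card = 3
  hkQ : k ∉ Q
  hk : ∀ w ∈ S, G.Adj k w → w ∈ Q ∨ w ∈ K
  hc : ∀ c ∈ K, ∀ w ∈ S, G.Adj c w → w = k ∨ w ∈ R c
  hR : ∀ c ∈ K, R c ⊆ Q ∧ (R c).card = 2
  hinj : ∀ c ∈ K, ∀ c' ∈ K, R c = R c' → c = c'
  hcl : ∀ p ∈ Q, ∀ q ∈ Q, p ≠ q → G.Adj p q
  hkcl : ∀ q ∈ Q, G.Adj k q

/-- In a model in which a child is a singleton branch set on the left, the three right branch
sets pick up the three neighbours. -/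
lemma Local.spread {G : SimpleGraph V} {S : Set V} {K Q : Finset V} {k : V} {R : V → Finset V}
    (L : Local G S K Q k R) {B : Fin 3 ⊕ Fin 3 → Set V} (h : Model K33 G S B) (i : Fin 3) (c : V)
    (hcK : c ∈ K) (hBc : B (Sum.inl i) = {c}) :
    (∃ j, k ∈ B (Sum.inr j)) ∧ (∀ p ∈ R c, ∃ j, p ∈ B (Sum.inr j)) ∧
    (∀ p ∈ R c, ∀ j, p ∈ B (Sum.inr j) → k ∉ B (Sum.inr j)) ∧
    (∀ p ∈ R c, ∀ q ∈ R c, p ≠ q → ∀ j, p ∈ B (Sum.inr j) → q ∉ B (Sum.inr j)) := by
  classical
  have hex : ∀ j, ∃ v, v ∈ B (Sum.inr j) ∧ (v = k ∨ v ∈ R c) := by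
    intro j
    obtain ⟨u, hu, v, hv, huv⟩ := h.2.2.2 (Sum.inl i) (Sum.inr j) (by simp)
    rw [hBc, Set.mem_singleton_iff] at hu
    subst hu
    exact ⟨v, hv, L.hc u hcK v (h.2.1 _ hv) huv⟩
  choose f hf1 hf2 using hex
  have hfinj : Function.Injective f := by
    intro j j' hjj
    by_contra hne
    exact Set.disjoint_left.1 (h.2.2.1 (Sum.inr j) (Sum.inr j') (by simpa using hne)) (hf1 j)
      (hjj ▸ hf1 j')
  have hkR : k ∉ R c := fun hk' => L.hkQ ((L.hR c hcK).1 hk')
  have hcard : (insert k (R c)).card = 3 := by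
    rw [Finset.card_insert_of_notMem hkR, (L.hR c hcK).2]
  have himg : Finset.univ.image f = insert k (R c) := by
    apply Finset.eq_of_subset_of_card_le
    · intro v hv
      obtain ⟨j, _, rfl⟩ := Finset.mem_image.1 hv
      rw [Finset.mem_insert]
      exact hf2 j
    · rw [hcard, Finset.card_image_of_injective _ hfinj]
      simp
  have hmem : ∀ v ∈ insert k (R c), ∃ j, v = f j := by
    intro v hv
    rw [← himg] at hv
    obtain ⟨j, _, hj⟩ := Finset.mem_image.1 hv
    exact ⟨j, hj.symm⟩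
  have huniq : ∀ v w, v ∈ insert k (R c) → w ∈ insert k (R c) → v ≠ w → ∀ j,
      v ∈ B (Sum.inr j) → w ∉ B (Sum.inr j) := by
    intro v w hv hw hvw j hvj hwj
    obtain ⟨a, rfl⟩ := hmem v hv
    obtain ⟨b, rfl⟩ := hmem w hw
    have ha : a = j := by
      by_contra hne
      exact Set.disjoint_left.1 (h.2.2.1 (Sum.inr a) (Sum.inr j) (by simpa using hne)) (hf1 a) hvj
    have hb : b = j := by
      by_contra hne
      exact Set.disjoint_left.1 (h.2.2.1 (Sum.inr b) (Sum.inr j) (by simpa using hne)) (hf1 b) hwj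
    exact hvw (by rw [ha, hb])
  refine ⟨?_, ?_, ?_, ?_⟩
  · obtain ⟨j, hj⟩ := hmem k (Finset.mem_insert_self _ _)
    exact ⟨j, hj ▸ hf1 j⟩
  · intro p hp
    obtain ⟨j, hj⟩ := hmem p (Finset.mem_insert_of_mem hp)
    exact ⟨j, hj ▸ hf1 j⟩
  · intro p hp j hpj
    exact huniq p k (Finset.mem_insert_of_mem hp) (Finset.mem_insert_self _ _)
      (fun h' => hkR (h' ▸ hp)) j hpj
  · intro p hp q hq hpq j hpj
    exact huniq p q (Finset.mem_insert_of_mem hp) (Finset.mem_insert_of_mem hq) hpq j hpj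

/-- One reduction step when a child is a singleton branch set on the left. -/
lemma Local.step {G : SimpleGraph V} {S : Set V} {K Q : Finset V} {k : V} {R : V → Finset V}
    (L : Local G S K Q k R) {B : Fin 3 ⊕ Fin 3 → Set V} (h : Model K33 G S B)
    (hsing : ∀ c ∈ K, ∀ a, c ∈ B a → B a = {c}) (i : Fin 3) (c : V) (hcK : c ∈ K)
    (hcB : c ∈ B (Sum.inl i)) :
    ∃ B', Model K33 G S B' ∧ (used K B').card < (used K B).card := by
  classical
  have hBc := hsing c hcK _ hcB
  obtain ⟨⟨j0, hj0⟩, hRB, hRk, hRR⟩ := L.spread h i c hcK hBc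
  obtain ⟨p, q, hpq, hRc⟩ := Finset.card_eq_two.1 (L.hR c hcK).2
  have hp : p ∈ R c := by rw [hRc]; simp
  have hq : q ∈ R c := by rw [hRc]; simp
  have hpQ := (L.hR c hcK).1 hp
  have hqQ := (L.hR c hcK).1 hq
  obtain ⟨j1, hj1⟩ := hRB p hp
  obtain ⟨j2, hj2⟩ := hRB q hq
  have hdisj : ∀ a b, a ≠ b → ∀ x, x ∈ B a → x ∉ B b := fun a b hab x hxa hxb =>
    Set.disjoint_left.1 (h.2.2.1 a b hab) hxa hxb
  have hj01 : j0 ≠ j1 := fun h' => hRk p hp j1 hj1 (h' ▸ hj0)
  have hj02 : j0 ≠ j2 := fun h' => hRk q hq j2 hj2 (h' ▸ hj0)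
  have hj12 : j1 ≠ j2 := fun h' => hRR p hp q hq hpq j1 hj1 (h' ▸ hj2)
  -- the third vertex of `Q`
  have hQc : (Q \ R c).card = 1 := by
    rw [Finset.card_sdiff_of_subset (L.hR c hcK).1, L.hQ3, (L.hR c hcK).2]
  obtain ⟨r, hr⟩ := Finset.card_eq_one.1 hQc
  have hrQ : r ∈ Q ∧ r ∉ R c := by
    have : r ∈ Q \ R c := by rw [hr]; simp
    exact Finset.mem_sdiff.1 this
  have hQpqr : ∀ w ∈ Q, w = p ∨ w = q ∨ w = r := by
    intro w hw
    by_cases hwR : w ∈ R c
    · rw [hRc] at hwR
      simp only [Finset.mem_insert, Finset.mem_singleton] at hwR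
      rcases hwR with h1 | h1
      · exact Or.inl h1
      · exact Or.inr (Or.inl h1)
    · have : w ∈ Q \ R c := Finset.mem_sdiff.2 ⟨hw, hwR⟩
      rw [hr, Finset.mem_singleton] at this
      exact Or.inr (Or.inr this)
  -- other children on the left contain `r`
  have hother : ∀ u ∈ K, u ≠ c → r ∈ R u := by
    intro u hu huc
    by_contra hru
    apply huc
    apply L.hinj u hu c hcK
    apply Finset.eq_of_subset_of_card_le
    · intro w hw
      rcases hQpqr w ((L.hR u hu).1 hw) with rfl | rfl | rfl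
      · exact hp
      · exact hq
      · exact absurd hw hru
    · rw [(L.hR u hu).2, (L.hR c hcK).2]
  by_cases hb0 : B (Sum.inr j0) = {k}
  · exfalso
    -- every other left branch set contains `r` or is a child
    have hcase : ∀ i', i' ≠ i → r ∈ B (Sum.inl i') ∨ ∃ u ∈ K, u ∈ B (Sum.inl i') := by
      intro i' _
      obtain ⟨u, hu, v, hv, huv⟩ := h.2.2.2 (Sum.inl i') (Sum.inr j0) (by simp)
      rw [hb0, Set.mem_singleton_iff] at hv
      subst hv
      rcases L.hk u (h.2.1 _ hu) huv.symm with h1 | h1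
      · rcases hQpqr u h1 with h2 | h2 | h2
        · exact absurd (h2 ▸ hu) (hdisj (Sum.inr j1) (Sum.inl i') (by simp) p hj1)
        · exact absurd (h2 ▸ hu) (hdisj (Sum.inr j2) (Sum.inl i') (by simp) q hj2)
        · exact Or.inl (h2 ▸ hu)
      · exact Or.inr ⟨u, h1, hu⟩
    have hrR : ∀ i', i' ≠ i → ∀ u ∈ K, u ∈ B (Sum.inl i') →
        ∃ j, r ∈ B (Sum.inr j) ∧ k ∉ B (Sum.inr j) := by
      intro i' hi' u hu hui
      have huc : u ≠ c := fun h' => hdisj (Sum.inl i') (Sum.inl i) (by simpa using hi') u hui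
        (h' ▸ hcB)
      obtain ⟨_, s1, s2, _⟩ := L.spread h i' u hu (hsing u hu _ hui)
      obtain ⟨j, hj⟩ := s1 r (hother u hu huc)
      exact ⟨j, hj, s2 r (hother u hu huc) j hj⟩
    have hdec : ∀ i : Fin 3, ∃ i1 i2 : Fin 3, i1 ≠ i ∧ i2 ≠ i ∧ i1 ≠ i2 := by decide
    obtain ⟨i1, i2, hi1, hi2, hi12⟩ := hdec i
    have hall : ∃ u1 ∈ K, u1 ∈ B (Sum.inl i1) ∧ ∃ u2 ∈ K, u2 ∈ B (Sum.inl i2) := by
      rcases hcase i1 hi1 with h1 | ⟨u1, hu1, hu1'⟩
      · rcases hcase i2 hi2 with h2 | ⟨u2, hu2, hu2'⟩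
        · exact absurd h2 (hdisj _ _ (by simpa using hi12) r h1)
        · obtain ⟨j, hj, _⟩ := hrR i2 hi2 u2 hu2 hu2'
          exact absurd hj (hdisj (Sum.inl i1) (Sum.inr j) (by simp) r h1)
      · rcases hcase i2 hi2 with h2 | ⟨u2, hu2, hu2'⟩
        · obtain ⟨j, hj, _⟩ := hrR i1 hi1 u1 hu1 hu1'
          exact absurd hj (hdisj (Sum.inl i2) (Sum.inr j) (by simp) r h2)
        · exact ⟨u1, hu1, hu1', u2, hu2, hu2'⟩
    obtain ⟨u1, hu1, hu1', u2, hu2, hu2'⟩ := hall
    have hu1c : u1 ≠ c := fun h' => hdisj (Sum.inl i1) (Sum.inl i) (by simpa using hi1) u1 hu1'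
      (h' ▸ hcB)
    have hu2c : u2 ≠ c := fun h' => hdisj (Sum.inl i2) (Sum.inl i) (by simpa using hi2) u2 hu2'
      (h' ▸ hcB)
    have hu12 : u1 ≠ u2 := fun h' => hdisj (Sum.inl i1) (Sum.inl i2) (by simpa using hi12) u1 hu1'
      (h' ▸ hu2')
    obtain ⟨_, s1, s2, s3⟩ := L.spread h i1 u1 hu1 (hsing u1 hu1 _ hu1')
    obtain ⟨_, t1, t2, t3⟩ := L.spread h i2 u2 hu2 (hsing u2 hu2 _ hu2')
    have hr1 := hother u1 hu1 hu1c
    have hr2 := hother u2 hu2 hu2c
    obtain ⟨j3, hj3⟩ := s1 r hr1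
    have hj03 : j0 ≠ j3 := fun h' => s2 r hr1 j3 hj3 (h' ▸ hj0)
    -- `r` is separated from `p` and `q`
    have hsep : ∀ u ∈ K, r ∈ R u → p ∉ R u → q ∉ R u → False := by
      intro u hu _ hpu hqu
      have h1 : R u ⊆ {r} := by
        intro w hw
        rcases hQpqr w ((L.hR u hu).1 hw) with rfl | rfl | rfl
        · exact absurd hw hpu
        · exact absurd hw hqu
        · simp
      have h2 := Finset.card_le_card h1
      rw [(L.hR u hu).2, Finset.card_singleton] at h2
      omega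
    have hnot : ∀ x, x ≠ r → x ∈ Q → ¬ (x ∉ R u1 ∧ x ∉ R u2) := by
      rintro x hxr hxQ ⟨hx1, hx2⟩
      apply hu12
      apply L.hinj u1 hu1 u2 hu2
      have hsub : ∀ u ∈ K, x ∉ R u → R u = Q.erase x := by
        intro u hu hxu
        apply Finset.eq_of_subset_of_card_le
        · intro w hw
          exact Finset.mem_erase.2 ⟨fun h' => hxu (h' ▸ hw), (L.hR u hu).1 hw⟩
        · rw [Finset.card_erase_of_mem hxQ, L.hQ3, (L.hR u hu).2]
      rw [hsub u1 hu1 hx1, hsub u2 hu2 hx2]
    have hrp : r ≠ p := fun h' => hrQ.2 (h' ▸ hp)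
    have hrq : r ≠ q := fun h' => hrQ.2 (h' ▸ hq)
    have hj31 : j3 ≠ j1 := by
      intro h'
      subst h'
      by_cases hpu1 : p ∈ R u1
      · exact s3 r hr1 p hpu1 hrp j3 hj3 hj1
      · by_cases hpu2 : p ∈ R u2
        · exact t3 r hr2 p hpu2 hrp j3 hj3 hj1
        · exact hnot p (Ne.symm hrp) hpQ ⟨hpu1, hpu2⟩
    have hj32 : j3 ≠ j2 := by
      intro h'
      subst h'
      by_cases hpu1 : q ∈ R u1
      · exact s3 r hr1 q hpu1 hrq j3 hj3 hj2
      · by_cases hpu2 : q ∈ R u2
        · exact t3 r hr2 q hpu2 hrq j3 hj3 hj2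
        · exact hnot q (Ne.symm hrq) hqQ ⟨hpu1, hpu2⟩
    revert hj01 hj02 hj12 hj03 hj31 hj32
    clear * -
    revert j0 j1 j2 j3
    decide
  · -- `r` lies in the branch set of `k`
    obtain ⟨w, hwB, hwk, hkw⟩ := (h.1 (Sum.inr j0)).exists_adj hj0 hb0
    have hnoK : ∀ u ∈ K, u ∉ B (Sum.inr j0) := by
      intro u hu huB
      have h1 := hsing u hu _ huB
      have h2 : k ∈ ({u} : Set V) := h1 ▸ hj0
      rw [Set.mem_singleton_iff] at h2
      exact L.hkK (h2 ▸ hu)
    have hnop : p ∉ B (Sum.inr j0) := fun h' => hRk p hp j0 h' hj0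
    have hnoq : q ∉ B (Sum.inr j0) := fun h' => hRk q hq j0 h' hj0
    have honly : ∀ w, w ∈ B (Sum.inr j0) → G.Adj k w → w = r := by
      intro w hw hkw
      rcases L.hk w (h.2.1 _ hw) hkw with h1 | h1
      · rcases hQpqr w h1 with h2 | h2 | h2
        · exact absurd (h2 ▸ hw) hnop
        · exact absurd (h2 ▸ hw) hnoq
        · exact h2
      · exact absurd hw (hnoK w h1)
    have hrB : r ∈ B (Sum.inr j0) := honly w hwB hkw ▸ hwB
    have hrk : r ≠ k := fun h' => L.hkQ (h' ▸ hrQ.1)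
    have hjcase : ∀ j : Fin 3, j = j0 ∨ j = j1 ∨ j = j2 := by
      revert hj01 hj02 hj12
      clear * -
      revert j0 j1 j2
      decide
    let B' : Fin 3 ⊕ Fin 3 → Set V := fun a =>
      if a = Sum.inl i then {k} else if a = Sum.inr j0 then B (Sum.inr j0) \ {k} else B a
    have hB'i : B' (Sum.inl i) = {k} := by simp [B']
    have hB'j : B' (Sum.inr j0) = B (Sum.inr j0) \ {k} := by simp [B']
    have hB'o : ∀ a, a ≠ Sum.inl i → a ≠ Sum.inr j0 → B' a = B a := by
      intro a h1 h2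
      simp [B', h1, h2]
    have hkother : ∀ a, a ≠ Sum.inr j0 → k ∉ B a := fun a ha =>
      hdisj (Sum.inr j0) a (Ne.symm ha) k hj0
    have hB'sub : ∀ a, a ≠ Sum.inl i → B' a ⊆ B a := by
      intro a ha
      by_cases h2 : a = Sum.inr j0
      · rw [h2, hB'j]
        exact Set.sdiff_subset
      · rw [hB'o a ha h2]
    have hkB' : ∀ a, a ≠ Sum.inl i → k ∉ B' a := by
      intro a ha
      by_cases h2 : a = Sum.inr j0
      · rw [h2, hB'j]
        exact fun h' => h'.2 rfl
      · rw [hB'o a ha h2]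
        exact hkother a h2
    refine ⟨B', ⟨?_, ?_, ?_, ?_⟩, ?_⟩
    · intro a
      by_cases h1 : a = Sum.inl i
      · rw [h1, hB'i]
        exact conn_singleton G k
      · by_cases h2 : a = Sum.inr j0
        · rw [h2, hB'j]
          refine conn_erase_simplicial G _ k hj0 ⟨r, hrB, hrk⟩ ?_ (h.1 _)
          intro a ha b hb hka hkb hab
          exact absurd ((honly a ha hka).trans (honly b hb hkb).symm) hab
        · rw [hB'o a h1 h2]
          exact h.1 a
    · intro a
      by_cases h1 : a = Sum.inl i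
      · rw [h1, hB'i]
        exact Set.singleton_subset_iff.2 L.hkS
      · exact (hB'sub a h1).trans (h.2.1 a)
    · intro a b hab
      by_cases h1 : a = Sum.inl i
      · have h2 : b ≠ Sum.inl i := fun h' => hab (h1.trans h'.symm)
        rw [h1, hB'i, Set.disjoint_singleton_left]
        exact hkB' b h2
      · by_cases h2 : b = Sum.inl i
        · rw [h2, hB'i, Set.disjoint_singleton_right]
          exact hkB' a h1
        · exact Set.disjoint_of_subset (hB'sub a h1) (hB'sub b h2) (h.2.2.1 a b hab)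
    · -- adjacency
      have key : ∀ i' j', ∃ u ∈ B' (Sum.inl i'), ∃ v ∈ B' (Sum.inr j'), G.Adj u v := by
        intro i' j'
        have hj'i : (Sum.inr j' : Fin 3 ⊕ Fin 3) ≠ Sum.inl i := by simp
        by_cases h1 : i' = i
        · subst h1
          rw [hB'i]
          rcases hjcase j' with h2 | h2 | h2
          · subst h2
            rw [hB'j]
            exact ⟨k, rfl, r, ⟨hrB, hrk⟩, L.hkcl r hrQ.1⟩
          · subst h2
            rw [hB'o _ hj'i (by simpa using Ne.symm hj01)]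
            exact ⟨k, rfl, p, hj1, L.hkcl p hpQ⟩
          · subst h2
            rw [hB'o _ hj'i (by simpa using Ne.symm hj02)]
            exact ⟨k, rfl, q, hj2, L.hkcl q hqQ⟩
        · have hi'i : (Sum.inl i' : Fin 3 ⊕ Fin 3) ≠ Sum.inl i := by simpa using h1
          rw [hB'o (Sum.inl i') hi'i (by simp)]
          obtain ⟨u, hu, v, hv, huv⟩ := h.2.2.2 (Sum.inl i') (Sum.inr j') (by simp)
          by_cases h2 : j' = j0
          · subst h2
            rw [hB'j]
            by_cases hvk : v = k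
            · exfalso
              subst hvk
              rcases L.hk u (h.2.1 _ hu) huv.symm with h3 | h3
              · rcases hQpqr u h3 with h4 | h4 | h4
                · exact hdisj (Sum.inr j1) (Sum.inl i') (by simp) p hj1 (h4 ▸ hu)
                · exact hdisj (Sum.inr j2) (Sum.inl i') (by simp) q hj2 (h4 ▸ hu)
                · exact hdisj (Sum.inr j') (Sum.inl i') (by simp) r hrB (h4 ▸ hu)
              · have huc : u ≠ c := fun h' =>
                  hdisj (Sum.inl i') (Sum.inl i) hi'i u hu (h' ▸ hcB)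
                have hru := hother u h3 huc
                obtain ⟨_, _, s2, _⟩ := L.spread h i' u h3 (hsing u h3 _ hu)
                exact s2 r hru j' hrB hj0
            · exact ⟨u, hu, v, ⟨hv, hvk⟩, huv⟩
          · rw [hB'o _ hj'i (by simpa using h2)]
            exact ⟨u, hu, v, hv, huv⟩
      rintro (a | a) (b | b) hab
      · simp at hab
      · exact key a b
      · obtain ⟨u, hu, v, hv, huv⟩ := key b a
        exact ⟨v, hv, u, hu, huv.symm⟩
      · simp at hab
    · apply Finset.card_lt_card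
      refine ⟨?_, fun hsub => ?_⟩
      · intro x hx
        rw [mem_used] at hx ⊢
        obtain ⟨hxK, a, ha⟩ := hx
        refine ⟨hxK, ?_⟩
        by_cases h1 : a = Sum.inl i
        · rw [h1, hB'i, Set.mem_singleton_iff] at ha
          exact absurd (ha ▸ hxK) L.hkK
        · exact ⟨a, hB'sub a h1 ha⟩
      · have hcu : c ∈ used K B := (mem_used _ _ _).2 ⟨hcK, _, hcB⟩
        obtain ⟨_, a, ha⟩ := (mem_used _ _ _).1 (hsub hcu)
        by_cases h1 : a = Sum.inl i
        · rw [h1, hB'i, Set.mem_singleton_iff] at ha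
          exact L.hkK (ha ▸ hcK)
        · exact hdisj (Sum.inl i) a (Ne.symm h1) c hcB (hB'sub a h1 ha)

/-- Children of a vertex of degree three can be removed. -/
lemma Local.reduce {G : SimpleGraph V} {S : Set V} {K Q : Finset V} {k : V} {R : V → Finset V}
    (L : Local G S K Q k R) : ∀ (m : ℕ) (B : Fin 3 ⊕ Fin 3 → Set V), Model K33 G S B →
    (used K B).card = m → HasModel K33 G (S \ K) := by
  classical
  intro m
  induction m using Nat.strong_induction_on with
  | _ m IH =>
    intro B h hm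
    by_cases hzero : used K B = ∅
    · refine ⟨B, h.of_disjoint ?_⟩
      intro a x hx
      refine ⟨h.2.1 a hx, fun hxK => ?_⟩
      have : x ∈ used K B := (mem_used _ _ _).2 ⟨hxK, a, hx⟩
      rw [hzero] at this
      simp at this
    · by_cases hsing : ∀ c ∈ K, ∀ a, c ∈ B a → B a = {c}
      · obtain ⟨c, hc⟩ := Finset.nonempty_iff_ne_empty.2 hzero
        obtain ⟨hcK, a, hca⟩ := (mem_used _ _ _).1 hc
        rcases a with i | i
        · obtain ⟨B', hB', hlt⟩ := L.step h hsing i c hcK hca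
          exact IH _ (hm ▸ hlt) B' hB' rfl
        · obtain ⟨B', hB', hlt⟩ := L.step h.swap
            (fun c hc a ha => hsing c hc a.swap ha) i c hcK hca
          rw [used_swap] at hlt
          exact IH _ (hm ▸ hlt) B' hB' rfl
      · push Not at hsing
        obtain ⟨c, hcK, a, hca, hne⟩ := hsing
        have hcl : ∀ p ∈ S, ∀ q ∈ S, G.Adj c p → G.Adj c q → p ≠ q → G.Adj p q := by
          intro p hp q hq hcp hcq hpq
          rcases L.hc c hcK p hp hcp with h1 | h1 <;> rcases L.hc c hcK q hq hcq with h2 | h2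
          · exact absurd (h1.trans h2.symm) hpq
          · rw [h1]
            exact L.hkcl q ((L.hR c hcK).1 h2)
          · rw [h2]
            exact (L.hkcl p ((L.hR c hcK).1 h1)).symm
          · exact L.hcl p ((L.hR c hcK).1 h1) q ((L.hR c hcK).1 h2) hpq
        have h' := h.erase_simplicial a c hca hne hcl
        refine IH _ ?_ _ h' rfl
        rw [← hm]
        apply Finset.card_lt_card
        have hsub : ∀ b, Function.update B a (B a \ {c}) b ⊆ B b := by
          intro b
          by_cases hb : b = a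
          · subst hb
            rw [Function.update_self]
            exact Set.sdiff_subset
          · rw [Function.update_of_ne hb]
        refine ⟨?_, fun hs => ?_⟩
        · intro x hx
          rw [mem_used] at hx ⊢
          exact ⟨hx.1, hx.2.imp fun b hb => hsub b hb⟩
        · have hcu : c ∈ used K B := (mem_used _ _ _).2 ⟨hcK, _, hca⟩
          obtain ⟨_, b, hb⟩ := (mem_used _ _ _).1 (hs hcu)
          by_cases hba : b = a
          · subst hba
            rw [Function.update_self] at hb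
            exact hb.2 rfl
          · rw [Function.update_of_ne hba] at hb
            exact Set.disjoint_left.1 (h.2.2.1 b a hba) hb hca

end Pool.Agent.Hhelper53.Planar
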