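import Pool.Agent.Hhelper53.Planar.Simplicial

set_option autoImplicit false

namespace Pool.Agent.Hhelper53.Planar

open SimpleGraph

variable {V : Type}

/-- Stacked (Apollonian) structure on the finite vertex set `S`. -/
structure IsStack (G : SimpleGraph V) (S : Finset V) (d : V → ℕ) (P : V → Finset V)
    (crea : V → V) : Prop where
  adj : ∀ v ∈ S, ∀ w ∈ S, G.Adj v w →
    (1 ≤ d v ∧ w ∈ P v) ∨ (1 ≤ d w ∧ v ∈ P w) ∨ (d v = 0 ∧ d w = 0)
  base : ∀ T ⊆ S, (∀ v ∈ T, d v = 0) → T.card ≤ 3
  root : ∀ v ∈ S, ∀ w ∈ S, d v = 1 → d w = 1 → v = w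
  dc : ∀ v ∈ S, 1 ≤ d v → P v ⊆ S
  card3 : ∀ v ∈ S, 1 ≤ d v → (P v).card = 3
  clique : ∀ v ∈ S, 1 ≤ d v → ∀ p ∈ P v, ∀ q ∈ P v, p ≠ q → G.Adj p q
  adjP : ∀ v ∈ S, 1 ≤ d v → ∀ p ∈ P v, G.Adj v p
  one : ∀ v ∈ S, d v = 1 → ∀ p ∈ P v, d p = 0
  cr : ∀ v ∈ S, 2 ≤ d v → crea v ∈ P v ∧ d v = d (crea v) + 1 ∧
    ∀ p ∈ P v, p ≠ crea v → p ∈ P (crea v)
  inj : ∀ v ∈ S, ∀ w ∈ S, 2 ≤ d v → 2 ≤ d w → crea v = crea w → P v = P w → v = w

variable {G : SimpleGraph V} {d : V → ℕ} {P : V → Finset V} {crea : V → V}

lemma IsStack.lt {S : Finset V} (h : IsStack G S d P crea) : ∀ (n : ℕ) (v : V), d v = n →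
    v ∈ S → 1 ≤ n → ∀ p ∈ P v, d p < n := by
  intro n
  induction n using Nat.strong_induction_on with
  | _ n IH =>
    intro v hv hvS hn p hp
    by_cases h1 : n = 1
    · have := h.one v hvS (hv.trans h1) p hp
      omega
    · obtain ⟨c1, c2, c3⟩ := h.cr v hvS (by omega)
      by_cases hpc : p = crea v
      · rw [hpc]
        omega
      · have hcS : crea v ∈ S := h.dc v hvS (by omega) c1
        have := IH (d (crea v)) (by omega) (crea v) rfl hcS (by omega) p (c3 p hp hpc)
        omega

open Classical in
lemma IsStack.sdiff {S : Finset V} (h : IsStack G S d P crea) (K : Finset V)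
    (hK : ∀ v ∈ S, v ∉ K → 1 ≤ d v → ∀ c ∈ K, c ∉ P v) : IsStack G (S \ K) d P crea := by
  have hm : ∀ v ∈ S \ K, v ∈ S ∧ v ∉ K := fun v hv => Finset.mem_sdiff.1 hv
  exact
    { adj := fun v hv w hw => h.adj v (hm v hv).1 w (hm w hw).1
      base := fun T hT => h.base T (hT.trans Finset.sdiff_subset)
      root := fun v hv w hw => h.root v (hm v hv).1 w (hm w hw).1
      dc := fun v hv h1 p hp => Finset.mem_sdiff.2 ⟨h.dc v (hm v hv).1 h1 hp,
        fun hpK => hK v (hm v hv).1 (hm v hv).2 h1 p hpK hp⟩
      card3 := fun v hv => h.card3 v (hm v hv).1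
      clique := fun v hv => h.clique v (hm v hv).1
      adjP := fun v hv => h.adjP v (hm v hv).1
      one := fun v hv => h.one v (hm v hv).1
      cr := fun v hv => h.cr v (hm v hv).1
      inj := fun v hv w hw => h.inj v (hm v hv).1 w (hm w hw).1 }

/-- If all depths are at most one there are at most four vertices. -/
lemma IsStack.card_le_four {S : Finset V} (h : IsStack G S d P crea) (hd : ∀ v ∈ S, d v ≤ 1) :
    S.card ≤ 4 := by
  classical
  have h1 : (S.filter (fun v => d v = 0)).card ≤ 3 :=
    h.base _ (Finset.filter_subset _ _) (fun v hv => (Finset.mem_filter.1 hv).2)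
  have h2 : (S.filter (fun v => ¬ d v = 0)).card ≤ 1 := by
    rw [Finset.card_le_one]
    intro a ha b hb
    rw [Finset.mem_filter] at ha hb
    have h3 := hd a ha.1
    have h4 := hd b hb.1
    exact h.root a ha.1 b hb.1 (by omega) (by omega)
  have h3 := Finset.card_filter_add_card_filter_not (s := S) (fun v => d v = 0)
  omega

theorem IsStack.no_K5 : ∀ (n : ℕ) (S : Finset V), S.card = n → IsStack G S d P crea →
    ¬ HasModel (⊤ : SimpleGraph (Fin 5)) G (S : Set V) := by
  classical
  intro n
  induction n using Nat.strong_induction_on with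
  | _ n IH =>
    intro S hS h hmod
    by_cases hall : ∀ v ∈ S, d v ≤ 1
    · have h1 := h.card_le_four hall
      have h2 := hmod.card_le
      simp at h2
      omega
    · push Not at hall
      obtain ⟨v0, hv0, hv0d⟩ := hall
      obtain ⟨v, hv, hmax⟩ := Finset.exists_max_image S d ⟨v0, hv0⟩
      have hdv : 2 ≤ d v := by
        have := hmax v0 hv0
        omega
      have hnotP : ∀ w ∈ S, 1 ≤ d w → v ∉ P w := by
        intro w hw h1 hvw
        have h2 := h.lt (d w) w rfl hw h1 v hvw
        have h3 := hmax w hw
        omega
      have hN : ∀ w ∈ S, G.Adj v w → w ∈ P v := by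
        intro w hw hvw
        rcases h.adj v hv w hw hvw with h1 | h1 | h1
        · exact h1.2
        · exact absurd h1.2 (hnotP w hw h1.1)
        · omega
      have hred : HasModel (⊤ : SimpleGraph (Fin 5)) G ((S \ {v} : Finset V) : Set V) := by
        obtain ⟨B, hB⟩ := hmod
        by_cases hused : ∃ a, v ∈ B a
        · obtain ⟨a, ha⟩ := hused
          by_cases hsing : B a = {v}
          · exfalso
            have hex : ∀ b, b ≠ a → ∃ u, u ∈ B b ∧ u ∈ P v := by
              intro b hb
              obtain ⟨x, hx, y, hy, hxy⟩ := hB.2.2.2 a b (by simpa using Ne.symm hb)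
              rw [hsing, Set.mem_singleton_iff] at hx
              subst hx
              exact ⟨y, hy, hN y (hB.2.1 b hy) hxy⟩
            have hex' : ∀ b, ∃ u, b ≠ a → (u ∈ B b ∧ u ∈ P v) := by
              intro b
              by_cases hb : b = a
              · exact ⟨v, fun h' => absurd hb h'⟩
              · obtain ⟨u, hu⟩ := hex b hb
                exact ⟨u, fun _ => hu⟩
            choose f hf using hex'
            have hcard : (Finset.univ.erase a).card ≤ (P v).card := by
              refine Finset.card_le_card_of_injOn f ?_ ?_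
              · intro b hb
                have hb' : b ≠ a := by simpa using hb
                exact (hf b hb').2
              · intro b hb b' hb' hbb
                have hb1 : b ≠ a := by simpa using hb
                have hb2 : b' ≠ a := by simpa using hb'
                by_contra hne
                exact Set.disjoint_left.1 (hB.2.2.1 b b' hne) (hf b hb1).1
                  (hbb ▸ (hf b' hb2).1)
            rw [h.card3 v hv (by omega), Finset.card_erase_of_mem (Finset.mem_univ _)] at hcard
            simp at hcard
          · have hcl : ∀ p ∈ (S : Set V), ∀ q ∈ (S : Set V), G.Adj v p → G.Adj v q → p ≠ q →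
                G.Adj p q := fun p hp q hq hvp hvq hpq =>
              h.clique v hv (by omega) p (hN p hp hvp) q (hN q hq hvq) hpq
            refine ⟨_, (hB.erase_simplicial a v ha hsing hcl).of_disjoint ?_⟩
            intro b x hx
            by_cases hb : b = a
            · subst hb
              rw [Function.update_self] at hx
              simp only [Finset.coe_sdiff, Finset.coe_singleton, Set.mem_sdiff,
                Set.mem_singleton_iff]
              exact ⟨hB.2.1 b hx.1, hx.2⟩
            · rw [Function.update_of_ne hb] at hx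
              simp only [Finset.coe_sdiff, Finset.coe_singleton, Set.mem_sdiff,
                Set.mem_singleton_iff]
              refine ⟨hB.2.1 b hx, fun h' => ?_⟩
              exact Set.disjoint_left.1 (hB.2.2.1 a b (Ne.symm hb)) ha (h' ▸ hx)
        · push Not at hused
          refine ⟨B, hB.of_disjoint ?_⟩
          intro b x hx
          simp only [Finset.coe_sdiff, Finset.coe_singleton, Set.mem_sdiff,
            Set.mem_singleton_iff]
          exact ⟨hB.2.1 b hx, fun h' => hused b (h' ▸ hx)⟩
      refine IH _ ?_ (S \ {v}) rfl (h.sdiff {v} ?_) hred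
      · rw [← hS]
        apply Finset.card_lt_card
        refine ⟨Finset.sdiff_subset, fun hs => ?_⟩
        have := hs hv
        simp at this
      · intro w hw _ h1 c hc
        rw [Finset.mem_singleton] at hc
        rw [hc]
        exact hnotP w hw h1

theorem IsStack.no_K33 : ∀ (n : ℕ) (S : Finset V), S.card = n → IsStack G S d P crea →
    ¬ HasModel K33 G (S : Set V) := by
  classical
  intro n
  induction n using Nat.strong_induction_on with
  | _ n IH =>
    intro S hS h hmod
    by_cases hall : ∀ v ∈ S, d v ≤ 1
    · have h1 := h.card_le_four hall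
      have h2 := hmod.card_le
      simp at h2
      omega
    · push Not at hall
      obtain ⟨v0, hv0, hv0d⟩ := hall
      obtain ⟨v, hv, hmax⟩ := Finset.exists_max_image S d ⟨v0, hv0⟩
      have hdv : 2 ≤ d v := by
        have := hmax v0 hv0
        omega
      obtain ⟨hk1, hk2, hk3⟩ := h.cr v hv hdv
      generalize hkdef : crea v = k at hk1 hk2 hk3
      have hkS : k ∈ S := h.dc v hv (by omega) hk1
      have hdk : 1 ≤ d k := by omega
      let K : Finset V := S.filter (fun w => 2 ≤ d w ∧ crea w = k)
      have hK : ∀ w, w ∈ K ↔ w ∈ S ∧ 2 ≤ d w ∧ crea w = k := by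
        intro w
        simp only [K, Finset.mem_filter]
      have hKd : ∀ w ∈ K, d w = d k + 1 := by
        intro w hw
        obtain ⟨h1, h2, h3⟩ := (hK w).1 hw
        have h4 := (h.cr w h1 h2).2.1
        rw [h3] at h4
        exact h4
      have hnotP : ∀ w ∈ S, 1 ≤ d w → ∀ c ∈ K, c ∉ P w := by
        intro w hw h1 c hc hcw
        have h2 := h.lt (d w) w rfl hw h1 c hcw
        have h3 := hmax w hw
        have h4 := hKd c hc
        omega
      have L : Local G (S : Set V) K (P k) k (fun c => (P c).erase k) :=
        { hkK := fun h1 => by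
            have := hKd k h1
            omega
          hQK := fun q hq hqK => by
            have h1 := h.lt (d k) k rfl hkS hdk q hq
            have h2 := hKd q hqK
            omega
          hkS := hkS
          hQS := fun q hq => h.dc k hkS hdk hq
          hKS := fun c hc => ((hK c).1 hc).1
          hQ3 := h.card3 k hkS hdk
          hkQ := fun h1 => by
            have h2 := h.lt (d k) k rfl hkS hdk k h1
            omega
          hk := by
            intro w hw hkw
            have hw' : w ∈ S := hw
            rcases h.adj k hkS w hw' hkw with h1 | h1 | h1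
            · exact Or.inl h1.2
            · right
              have h2 := h.lt (d w) w rfl hw' h1.1 k h1.2
              have h3 := hmax w hw'
              obtain ⟨c1, c2, c3⟩ := h.cr w hw' (by omega)
              refine (hK w).2 ⟨hw', by omega, ?_⟩
              by_contra hne
              have h4 := c3 k h1.2 (Ne.symm hne)
              have h5 := h.lt (d (crea w)) (crea w) rfl (h.dc w hw' h1.1 c1) (by omega) k h4
              omega
            · omega
          hc := by
            intro c hc w hw hcw
            have hcS := ((hK c).1 hc).1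
            have hcd := hKd c hc
            rcases h.adj c hcS w hw hcw with h1 | h1 | h1
            · by_cases hwk : w = k
              · exact Or.inl hwk
              · exact Or.inr (Finset.mem_erase.2 ⟨hwk, h1.2⟩)
            · exact absurd h1.2 (hnotP w hw h1.1 c hc)
            · omega
          hR := by
            intro c hc
            obtain ⟨h1, h2, h3⟩ := (hK c).1 hc
            obtain ⟨c1, c2, c3⟩ := h.cr c h1 h2
            rw [h3] at c1 c3
            refine ⟨?_, ?_⟩
            · intro p hp
              obtain ⟨hp1, hp2⟩ := Finset.mem_erase.1 hp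
              exact c3 p hp2 hp1
            · rw [Finset.card_erase_of_mem c1, h.card3 c h1 (by omega)]
          hinj := by
            intro c hc c' hc' hcc
            obtain ⟨h1, h2, h3⟩ := (hK c).1 hc
            obtain ⟨h1', h2', h3'⟩ := (hK c').1 hc'
            have c1 := (h.cr c h1 h2).1
            have c1' := (h.cr c' h1' h2').1
            rw [h3] at c1
            rw [h3'] at c1'
            refine h.inj c h1 c' h1' h2 h2' (h3.trans h3'.symm) ?_
            have hcc' : (P c).erase k = (P c').erase k := hcc
            rw [← Finset.insert_erase c1, ← Finset.insert_erase c1', hcc']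
          hcl := h.clique k hkS hdk
          hkcl := h.adjP k hkS hdk }
      obtain ⟨B, hB⟩ := hmod
      have hred := L.reduce _ B hB rfl
      have hred' : HasModel K33 G ((S \ K : Finset V) : Set V) := by
        rw [Finset.coe_sdiff]
        exact hred
      refine IH _ ?_ (S \ K) rfl (h.sdiff K ?_) hred'
      · rw [← hS]
        apply Finset.card_lt_card
        refine ⟨Finset.sdiff_subset, fun hs => ?_⟩
        have h1 := hs hv
        exact (Finset.mem_sdiff.1 h1).2 ((hK v).2 ⟨hv, hdv, hkdef⟩)
      · intro w hw _ h1 c hc
        exact hnotP w hw h1 c hc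

end Pool.Agent.Hhelper53.Planar
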