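import Pool.Agent.Hhelper53.Planar.FamilyDeg
import Pool.Agent.Hhelper53.Planar.Turan

set_option autoImplicit false

namespace Pool.Agent.Hhelper53.Planar

open SimpleGraph

open Vx

/-- Isolated vertices are not used in models of graphs without isolated vertices. -/
lemma HasModel.drop {A V : Type} {X : SimpleGraph A} {G : SimpleGraph V} {S S' : Set V}
    (hX : ∀ a, ∃ b, X.Adj a b) (hS : ∀ v ∈ S', v ∉ S → ∀ w ∈ S', ¬ G.Adj v w)
    (hmod : HasModel X G S') : HasModel X G S := by
  obtain ⟨B, hB⟩ := hmod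
  refine ⟨B, hB.1, ?_, hB.2.2.1, hB.2.2.2⟩
  intro a x hx
  by_contra hxS
  have hiso := hS x (hB.2.1 a hx) hxS
  obtain ⟨b, hab⟩ := hX a
  obtain ⟨u, hu, v, hv, huv⟩ := hB.2.2.2 a b hab
  have hux : u ≠ x := fun h' => hiso v (hB.2.1 b hv) (h' ▸ huv)
  obtain ⟨p, hp, q, hq, hpq⟩ := (hB.1 a).2 {x} (Set.singleton_subset_iff.2 hx) ⟨x, rfl⟩
    ⟨u, hu, hux⟩
  rw [Set.mem_singleton_iff] at hp
  exact hiso q (hB.2.1 a hq.1) (hp ▸ hpq)

lemma HasModel.of_comap {A V W : Type} {X : SimpleGraph A} {G : SimpleGraph V} {S : Set V}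
    (g : W → V) (hg : Function.Injective g) (hgS : ∀ w, g w ∈ S)
    (hmod : HasModel X (G.comap g) Set.univ) : HasModel X G S := by
  refine hmod.trans (fun w => {g w}) (fun w _ => conn_singleton G _) ?_ ?_ ?_
  · intro w _ x hx
    rw [Set.mem_singleton_iff] at hx
    rw [hx]
    exact hgS w
  · intro a _ b _ hab
    exact Set.disjoint_singleton.2 (fun h' => hab (hg h'))
  · intro a _ b _ hab
    exact ⟨g a, rfl, g b, rfl, hab⟩

def eps (e r : ℕ) : ℕ := if r < e then 1 else 0

def al0 (e r : ℕ) : Bool :=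
  !decide ((e = 1 ∧ r = 0) ∨ (e = 1 ∧ r = 3) ∨ (e = 2 ∧ r = 3) ∨ (e = 4 ∧ r = 3))

def be0 (e r : ℕ) : ℕ :=
  if (e = 1 ∧ r = 3) ∨ (e = 2 ∧ r = 4) ∨ (e = 3 ∧ r = 0) ∨ (e = 3 ∧ r = 3) ∨ (e = 4 ∧ r = 1) then 0
  else if (e = 3 ∧ r = 2) ∨ (e = 4 ∧ r = 2) then 2 else 1

lemma tab1 : ∀ e < 5, ∀ r < 5, be0 e r ≤ 1 + eps e r := by decide

lemma tab2 : ∀ e < 5, ∀ r < 5, 2 + e ≤ (if al0 e r = true then 1 else 0) +
    (if al0 e ((r + 1) % 5) = true then 0 else 1) + eps e r + eps e r + be0 e r +
    eps e ((r + 2) % 5) + eps e ((r + 2) % 5) +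
    (1 + eps e ((r + 2) % 5) - be0 e ((r + 2) % 5)) := by decide

lemma tab3 : ∀ e < 5, eps e 3 + eps e 4 + eps e 0 + eps e 1 + eps e 2 = e := by decide

def fT (e q i : ℕ) : ℕ := 1 + q + eps e (i % 5)

def fb (e q i : ℕ) : ℕ := q + be0 e (i % 5)

def ff (e i : ℕ) : Bool := al0 e (i % 5)

lemma sum_fT (e q : ℕ) (he : e < 5) (m : ℕ) :
    ∑ i ∈ Finset.Ico 3 (5 * m + 3), (1 + fT e q i) = m * (10 + 5 * q + e) := by
  induction m with
  | zero => simp
  | succ m IH =>
    have h1 : 5 * (m + 1) + 3 = 5 * m + 3 + 1 + 1 + 1 + 1 + 1 := by omega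
    rw [h1, Finset.sum_Ico_succ_top (by omega), Finset.sum_Ico_succ_top (by omega),
      Finset.sum_Ico_succ_top (by omega), Finset.sum_Ico_succ_top (by omega),
      Finset.sum_Ico_succ_top (by omega), IH]
    unfold fT
    have e1 : (5 * m + 3) % 5 = 3 := by omega
    have e2 : (5 * m + 3 + 1) % 5 = 4 := by omega
    have e3 : (5 * m + 3 + 1 + 1) % 5 = 0 := by omega
    have e4 : (5 * m + 3 + 1 + 1 + 1) % 5 = 1 := by omega
    have e5 : (5 * m + 3 + 1 + 1 + 1 + 1) % 5 = 2 := by omega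
    rw [e1, e2, e3, e4, e5]
    have h3 := tab3 e he
    nlinarith

lemma deg_fam (e q : ℕ) (he : e < 5) (v : ℕ) (hv : 3 ≤ v) :
    18 + e + 5 * q ≤ (nb (ff e) (fb e q) (fT e q) v).card := by
  rw [card_nb _ _ _ v hv]
  have h1 := tab2 e he (v % 5) (Nat.mod_lt _ (by norm_num))
  have h2 := tab1 e he ((v % 5 + 2) % 5) (Nat.mod_lt _ (by norm_num))
  have e1 : (v + 1) % 5 = (v % 5 + 1) % 5 := by omega
  have e2 : (v + 2) % 5 = (v % 5 + 2) % 5 := by omega
  unfold ff fb fT
  rw [e1, e2]
  generalize (if al0 e (v % 5) = true then 1 else 0) = x1 at h1 ⊢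
  generalize (if al0 e ((v % 5 + 1) % 5) = true then 0 else 1) = x2 at h1 ⊢
  omega

lemma clique_KA (f : ℕ → Bool) (b : ℕ → ℕ) (i : ℕ) (x y : Vx) (hx : x ∈ KA i) (hy : y ∈ KA i)
    (hxy : x ≠ y) : (gr f b).Adj x y := by
  refine ⟨hxy, ?_⟩
  simp only [KA, Finset.mem_insert, Finset.mem_singleton] at hx hy
  rcases hx with rfl | rfl | rfl | rfl <;> rcases hy with rfl | rfl | rfl | rfl <;>
    first | exact absurd rfl hxy | simp [par]

lemma clique_KB (f : ℕ → Bool) (b : ℕ → ℕ) (i s : ℕ) (x y : Vx) (hx : x ∈ KB i s)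
    (hy : y ∈ KB i s) (hxy : x ≠ y) : (gr f b).Adj x y := by
  refine ⟨hxy, ?_⟩
  simp only [KB, Finset.mem_insert, Finset.mem_singleton] at hx hy
  rcases hx with rfl | rfl | rfl | rfl <;> rcases hy with rfl | rfl | rfl | rfl <;>
    first | exact absurd rfl hxy | simp [par]

lemma inter_clique (G : SimpleGraph Vx) (J K : Finset Vx) (hJ : Ind G J)
    (hK : ∀ x ∈ K, ∀ y ∈ K, x ≠ y → G.Adj x y) : (J ∩ K).card ≤ 1 := by
  rw [Finset.card_le_one]
  intro x hx y hy
  rw [Finset.mem_inter] at hx hy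
  by_contra hxy
  exact hJ x hx.1 y hy.1 (hK x hx.2 y hy.2 hxy)

lemma inter_layer (f : ℕ → Bool) (b T : ℕ → ℕ) (i : ℕ) (J : Finset Vx) (hJ : Ind (gr f b) J) :
    (J ∩ layer T i).card ≤ 1 + T i := by
  unfold layer
  rw [Finset.inter_union_distrib_left, Finset.inter_biUnion]
  refine (Finset.card_union_le _ _).trans (Nat.add_le_add ?_ ?_)
  · exact inter_clique _ J _ hJ (fun x hx y hy => clique_KA f b i x y hx hy)
  · refine Finset.card_biUnion_le.trans ?_
    calc ∑ s ∈ Finset.range (T i), (J ∩ KB i s).card ≤ ∑ _s ∈ Finset.range (T i), 1 :=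
          Finset.sum_le_sum fun s _ => inter_clique _ J _ hJ (fun x hx y hy => clique_KB f b i s x y hx hy)
      _ = T i := by simp

/-- Independent sets avoiding the good vertices `H v` are small. -/
lemma ind_small (f : ℕ → Bool) (b T : ℕ → ℕ) (h r : ℕ) (J : Finset Vx) (hJ : Ind (gr f b) J)
    (hsub : J ⊆ allv T h r) (hgood : ∀ v, 3 ≤ v → v + 3 < h → H v ∉ J) :
    J.card ≤ 6 + ∑ i ∈ Finset.Ico 3 h, (1 + T i) + r := by
  have h1 : J = (J ∩ (Finset.range h).image H) ∪ (J ∩ (Finset.Ico 3 h).biUnion (layer T)) ∪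
      (J ∩ iso r) := by
    rw [← Finset.inter_union_distrib_left, ← Finset.inter_union_distrib_left]
    exact (Finset.inter_eq_left.2 hsub).symm
  have h2 : (J ∩ (Finset.range h).image H).card ≤ 6 := by
    have hs : J ∩ (Finset.range h).image H ⊆ (Finset.range 3 ∪ Finset.Ico (h - 3) h).image H := by
      intro x hx
      rw [Finset.mem_inter, Finset.mem_image] at hx
      obtain ⟨hxJ, v, hv, rfl⟩ := hx
      rw [Finset.mem_range] at hv
      refine Finset.mem_image_of_mem _ ?_
      rw [Finset.mem_union, Finset.mem_range, Finset.mem_Ico]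
      by_contra hcon
      exact hgood v (by omega) (by omega) hxJ
    refine (Finset.card_le_card hs).trans (Finset.card_image_le.trans
      ((Finset.card_union_le _ _).trans ?_))
    rw [Finset.card_range, Nat.card_Ico]
    omega
  have h3 : (J ∩ (Finset.Ico 3 h).biUnion (layer T)).card ≤ ∑ i ∈ Finset.Ico 3 h, (1 + T i) := by
    rw [Finset.inter_biUnion]
    exact Finset.card_biUnion_le.trans (Finset.sum_le_sum fun i _ => inter_layer f b T i J hJ)
  have h4 : (J ∩ iso r).card ≤ r :=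
    (Finset.card_le_card Finset.inter_subset_right).trans
      (Finset.card_image_le.trans (by rw [Finset.card_range]))
  have h5 := Finset.card_union_le ((J ∩ (Finset.range h).image H) ∪
    (J ∩ (Finset.Ico 3 h).biUnion (layer T))) (J ∩ iso r)
  have h6 := Finset.card_union_le (J ∩ (Finset.range h).image H)
    (J ∩ (Finset.Ico 3 h).biUnion (layer T))
  rw [← h1] at h5
  omega

/-- The upper bound family. -/
theorem upper_final (D : ℕ) (hD : 18 ≤ D) (n : ℕ) : ∃ K : SimpleGraph (Fin n), K.Colorable 4 ∧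
    ¬ HasModel (⊤ : SimpleGraph (Fin 5)) K Set.univ ∧ ¬ HasModel K33 K Set.univ ∧
    ∀ I : Finset (Fin n), Ind K I → (∀ v ∈ I, dg K Finset.univ v < D) →
      (4 * D - 27) * I.card ≤ (D - 8) * n + (4 * D - 27) * (4 * D) := by
  classical
  by_cases hn : n < 3
  · refine ⟨⊥, ?_, ?_, ?_, ?_⟩
    · exact ⟨Coloring.mk (fun _ => 0) (fun h' => absurd h' (by simp))⟩
    · intro hmod
      rw [← Finset.coe_univ] at hmod
      have := hmod.card_le
      simp at this
      omega
    · intro hmod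
      rw [← Finset.coe_univ] at hmod
      have := hmod.card_le
      simp at this
      omega
    · intro I _ _
      have h1 : I.card ≤ n := by simpa using Finset.card_le_univ I
      have h2 : I.card ≤ 4 * D := by omega
      have := Nat.mul_le_mul_left (4 * D - 27) h2
      omega
  · obtain ⟨e, q, he, rfl⟩ : ∃ e q, e < 5 ∧ D = 18 + e + 5 * q :=
      ⟨(D - 18) % 5, (D - 18) / 5, Nat.mod_lt _ (by norm_num), by omega⟩
    obtain ⟨m, r, hr, hnm⟩ : ∃ m r, r < 45 + 4 * e + 20 * q ∧
        n = (45 + 4 * e + 20 * q) * m + 3 + r := by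
      refine ⟨(n - 3) / (45 + 4 * e + 20 * q), (n - 3) % (45 + 4 * e + 20 * q),
        Nat.mod_lt _ (by omega), ?_⟩
      have := Nat.div_add_mod (n - 3) (45 + 4 * e + 20 * q)
      omega
    have hcard : (allv (fT e q) (5 * m + 3) r).card = n := by
      rw [card_allv, sum_fT e q he, hnm]
      ring
    let g0 := (Finset.equivFinOfCardEq hcard).symm
    let g : Fin n → Vx := fun a => (g0 a : Vx)
    have hginj : Function.Injective g := fun a a' haa => g0.injective (Subtype.ext haa)
    have hgmem : ∀ a, g a ∈ allv (fT e q) (5 * m + 3) r := fun a => (g0 a).2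
    have hgsurj : ∀ x ∈ allv (fT e q) (5 * m + 3) r, ∃ a, g a = x := by
      intro x hx
      obtain ⟨a, ha⟩ := g0.surjective ⟨x, hx⟩
      exact ⟨a, by simp only [g, ha]⟩
    have hst := core_stack (ff e) (fb e q) (fT e q) (5 * m + 3)
    have hmodel : ∀ (A : Type) (X : SimpleGraph A), (∀ a, ∃ b, X.Adj a b) →
        HasModel X ((gr (ff e) (fb e q)).comap g) Set.univ →
        HasModel X (gr (ff e) (fb e q)) ((core (fT e q) (5 * m + 3) : Finset Vx) : Set Vx) := by
      intro A X hX hmod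
      have h1 := hmod.of_comap g hginj
        (S := ((allv (fT e q) (5 * m + 3) r : Finset Vx) : Set Vx)) (fun w => hgmem w)
      refine h1.drop hX ?_
      intro v hv hvS w hw
      have hv' : v ∈ iso r := by
        rcases Finset.mem_union.1 (Finset.mem_coe.1 hv) with h2 | h2
        · exact absurd h2 hvS
        · exact h2
      exact iso_nadj _ _ _ _ r v hv' w hw
    refine ⟨(gr (ff e) (fb e q)).comap g, ?_, ?_, ?_, ?_⟩
    · exact ⟨Coloring.mk (fun a => (⟨cl (ff e) (fb e q) (g a), cl_lt _ _ _⟩ : Fin 4))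
        (fun {a a'} haa h' => cl_valid _ _ _ _ r (g a) (g a') (hgmem a) (hgmem a') haa
          (by simpa using h'))⟩
    · intro hmod
      refine hst.no_K5 _ _ rfl (hmodel _ _ ?_ hmod)
      intro a
      exact ⟨a + 1, by simp⟩
    · intro hmod
      refine hst.no_K33 _ _ rfl (hmodel _ _ ?_ hmod)
      rintro (a | a)
      · exact ⟨Sum.inr 0, by simp⟩
      · exact ⟨Sum.inl 0, by simp⟩
    · intro I hI hdeg
      have hJ : Ind (gr (ff e) (fb e q)) (I.image g) := by
        intro x hx y hy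
        obtain ⟨a, ha, rfl⟩ := Finset.mem_image.1 hx
        obtain ⟨a', ha', rfl⟩ := Finset.mem_image.1 hy
        exact hI a ha a' ha'
      have hsub : I.image g ⊆ allv (fT e q) (5 * m + 3) r := by
        intro x hx
        obtain ⟨a, _, rfl⟩ := Finset.mem_image.1 hx
        exact hgmem a
      have hgood : ∀ v, 3 ≤ v → v + 3 < 5 * m + 3 → H v ∉ I.image g := by
        intro v hv hvh hmem
        obtain ⟨a, ha, hav⟩ := Finset.mem_image.1 hmem
        have h1 := hdeg a ha
        have h2 := deg_fam e q he v hv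
        have h3 : (nb (ff e) (fb e q) (fT e q) v).card ≤
            dg ((gr (ff e) (fb e q)).comap g) Finset.univ a := by
          unfold dg
          rw [← Finset.card_image_of_injective _ hginj]
          apply Finset.card_le_card
          intro x hx
          have hT : 1 ≤ fT e q (v + 3) := by
            unfold fT
            omega
          have hb : fb e q v ≤ fT e q v := by
            have := tab1 e he (v % 5) (Nat.mod_lt _ (by norm_num))
            unfold fb fT
            omega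
          obtain ⟨h4, h5⟩ := nb_sub (ff e) (fb e q) (fT e q) (5 * m + 3) v hv hvh hT hb x hx
          obtain ⟨a', rfl⟩ := hgsurj x (Finset.mem_union_left _ ((mem_core _ _ _).2 h4))
          refine Finset.mem_image_of_mem _ (Finset.mem_filter.2 ⟨Finset.mem_univ _, ?_⟩)
          rw [SimpleGraph.comap_adj, hav]
          exact h5
        omega
      have hsmall := ind_small _ _ _ _ r _ hJ hsub hgood
      rw [Finset.card_image_of_injective _ hginj, sum_fT e q he] at hsmall
      have e1 : 4 * (18 + e + 5 * q) - 27 = 45 + 4 * e + 20 * q := by omega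
      have e2 : 18 + e + 5 * q - 8 = 10 + e + 5 * q := by omega
      rw [e1, e2]
      have h6 : I.card ≤ m * (10 + 5 * q + e) + (4 * (18 + e + 5 * q)) := by omega
      calc (45 + 4 * e + 20 * q) * I.card
          ≤ (45 + 4 * e + 20 * q) * (m * (10 + 5 * q + e) + (4 * (18 + e + 5 * q))) :=
            Nat.mul_le_mul_left _ h6
        _ = (10 + e + 5 * q) * ((45 + 4 * e + 20 * q) * m) +
            (45 + 4 * e + 20 * q) * (4 * (18 + e + 5 * q)) := by ring
        _ ≤ (10 + e + 5 * q) * n +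
            (45 + 4 * e + 20 * q) * (4 * (18 + e + 5 * q)) := by
            apply Nat.add_le_add_right
            apply Nat.mul_le_mul_left
            omega

end Pool.Agent.Hhelper53.Planar
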